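import Mathlib

/-!
# Jacobson's formula and the Cartier operator of a field with one derivation
-/

set_option autoImplicit false

namespace Pool.Agent.R360.GK

section Jacobson

variable {p : ℕ} [hp : Fact p.Prime] {F : Type} [Field F] [CharP F p]

/-- coefficients of `(D + t w)^n 1` -/
def jc (D : Derivation ℤ F F) (w : F) : ℕ → ℕ → F
  | 0, 0 => 1
  | 0, _ + 1 => 0
  | n + 1, 0 => D (jc D w n 0)
  | n + 1, i + 1 => D (jc D w n (i + 1)) + w * jc D w n i

lemma jc_zero (D : Derivation ℤ F F) (w : F) (n : ℕ) : jc D w (n + 1) 0 = 0 := by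
  induction n with
  | zero => simp [jc]
  | succ n ih => rw [jc, ih, map_zero]

lemma jc_gt (D : Derivation ℤ F F) (w : F) (n i : ℕ) (h : n < i) : jc D w n i = 0 := by
  induction n generalizing i with
  | zero =>
    obtain ⟨j, rfl⟩ : ∃ j, i = j + 1 := ⟨i - 1, by omega⟩
    rfl
  | succ n ih =>
    obtain ⟨j, rfl⟩ : ∃ j, i = j + 1 := ⟨i - 1, by omega⟩
    rw [jc, ih _ (by omega), ih _ (by omega)]
    simp

lemma jc_diag (D : Derivation ℤ F F) (w : F) (n : ℕ) : jc D w n n = w ^ n := by
  induction n with
  | zero => simp [jc]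
  | succ n ih => rw [jc, ih, jc_gt _ _ _ _ (by omega)]; simp [pow_succ, mul_comm]

lemma jc_sum (D : Derivation ℤ F F) (w : F) (n : ℕ) :
    (fun y => D y + w * y)^[n] 1 = ∑ i ∈ Finset.range (n + 1), jc D w n i := by
  induction n with
  | zero => simp [jc]
  | succ n ih =>
    rw [Function.iterate_succ_apply', ih, Finset.sum_range_succ' (fun i => jc D w (n + 1) i)]
    simp only [jc]
    rw [Finset.sum_add_distrib, map_sum, Finset.mul_sum]
    have h1 : ∑ i ∈ Finset.range (n + 1), D (jc D w n i) =
        ∑ i ∈ Finset.range (n + 1), D (jc D w n (i + 1)) + D (jc D w n 0) := by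
      rw [← Finset.sum_range_succ' (fun i => D (jc D w n i)) (n + 1),
        Finset.sum_range_succ (fun i => D (jc D w n i)) (n + 1),
        jc_gt D w n (n + 1) (by omega), map_zero, add_zero]
    rw [h1]
    ring

/-- the derivative with respect to `t` -/
lemma jc_der (D : Derivation ℤ F F) (w : F) (n i : ℕ) :
    ((i : F) + 1) * jc D w n (i + 1) =
      ∑ j ∈ Finset.range n, (n.choose (j + 1) : F) * D^[j] w * jc D w (n - 1 - j) i := by
  induction n generalizing i with
  | zero => simp [jc]
  | succ n ih =>
    have key : D (((i : F) + 1) * jc D w n (i + 1)) + w * ((i : F) * jc D w n i) =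
        ∑ j ∈ Finset.range n, (n.choose (j + 1) : F) *
          (D^[j + 1] w * jc D w (n - 1 - j) i + D^[j] w * jc D w (n - j) i) := by
      rw [ih, map_sum]
      have hD : ∀ j, D ((n.choose (j + 1) : F) * D^[j] w * jc D w (n - 1 - j) i) =
          (n.choose (j + 1) : F) * (D^[j + 1] w * jc D w (n - 1 - j) i +
            D^[j] w * D (jc D w (n - 1 - j) i)) := by
        intro j
        rw [mul_assoc, Derivation.leibniz, Derivation.leibniz, Function.iterate_succ_apply']
        have : D (n.choose (j + 1) : F) = 0 := by simp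
        rw [this]
        simp only [smul_eq_mul, mul_zero, add_zero]
        ring
      rw [Finset.sum_congr rfl fun j _ => hD j]
      rcases Nat.eq_zero_or_pos i with rfl | hi
      · simp only [Nat.cast_zero, zero_mul, mul_zero, add_zero]
        refine Finset.sum_congr rfl fun j hj => ?_
        have hj' := Finset.mem_range.1 hj
        obtain ⟨m, hm⟩ : ∃ m, n - 1 - j = m := ⟨_, rfl⟩
        have h2 : n - j = m + 1 := by omega
        rw [hm, h2, jc]
      · obtain ⟨k, rfl⟩ : ∃ k, i = k + 1 := ⟨i - 1, by omega⟩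
        have h3 := ih k
        push_cast
        rw [h3, Finset.mul_sum, ← Finset.sum_add_distrib]
        refine Finset.sum_congr rfl fun j hj => ?_
        have hj' := Finset.mem_range.1 hj
        obtain ⟨m, hm⟩ : ∃ m, n - 1 - j = m := ⟨_, rfl⟩
        have h2 : n - j = m + 1 := by omega
        rw [hm, h2, jc]
        ring
    have e1 : ((i : F) + 1) * jc D w (n + 1) (i + 1) =
        D (((i : F) + 1) * jc D w n (i + 1)) + w * ((i : F) * jc D w n i) + w * jc D w n i := by
      rw [jc, Derivation.leibniz]
      have : D ((i : F) + 1) = 0 := by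
        rw [map_add]; simp
      rw [this]
      simp only [smul_eq_mul, mul_zero, add_zero]
      ring
    rw [e1, key]
    have e2 : ∀ j ∈ Finset.range (n + 1), ((n + 1).choose (j + 1) : F) * D^[j] w *
        jc D w (n + 1 - 1 - j) i = (n.choose j : F) * D^[j] w * jc D w (n - j) i +
          (n.choose (j + 1) : F) * D^[j] w * jc D w (n - j) i := by
      intro j _
      rw [Nat.choose_succ_succ, show n + 1 - 1 - j = n - j by omega]
      push_cast
      ring
    rw [Finset.sum_congr rfl e2, Finset.sum_add_distrib, Finset.sum_range_succ'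
      (fun j => (n.choose j : F) * D^[j] w * jc D w (n - j) i),
      Finset.sum_range_succ (fun j => (n.choose (j + 1) : F) * D^[j] w * jc D w (n - j) i)]
    simp only [Nat.choose_succ_self, Nat.cast_zero, zero_mul, add_zero, Nat.choose_zero_right,
      Nat.cast_one, one_mul, Function.iterate_zero, id_eq, Nat.sub_zero]
    rw [Finset.sum_congr rfl fun j _ => mul_add _ _ _, Finset.sum_add_distrib]
    have e3 : ∀ j ∈ Finset.range n, (n.choose (j + 1) : F) * (D^[j + 1] w * jc D w (n - 1 - j) i) =
        (n.choose (j + 1) : F) * D^[j + 1] w * jc D w (n - (j + 1)) i := by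
      intro j _
      rw [show n - (j + 1) = n - 1 - j by omega]
      ring
    rw [Finset.sum_congr rfl e3]
    simp only [mul_assoc]
    ring

/-- Jacobson's formula -/
theorem jacobson (D : Derivation ℤ F F) (w : F) :
    (fun y => D y + w * y)^[p] 1 = D^[p - 1] w + w ^ p := by
  have hp2 := hp.out.two_le
  rw [jc_sum]
  obtain ⟨m, hm⟩ : ∃ m, p = m + 2 := ⟨p - 2, by omega⟩
  have hmain : ∀ i : ℕ, ((i : F) + 1) * jc D w p (i + 1) = D^[p - 1] w * jc D w 0 i := by
    intro i
    rw [jc_der, Finset.sum_eq_single (p - 1)]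
    · rw [show p - 1 + 1 = p by omega, Nat.choose_self, show p - 1 - (p - 1) = 0 by omega]
      simp
    · intro j hj hne
      have hj' := Finset.mem_range.1 hj
      have : ((p.choose (j + 1) : ℕ) : F) = 0 := by
        rw [CharP.cast_eq_zero_iff F p]
        exact hp.out.dvd_choose_self (by omega) (by omega)
      rw [this]
      simp
    · intro h
      exact absurd (Finset.mem_range.2 (by omega)) h
  rw [Finset.sum_range_succ, jc_diag]
  have hz : ∀ i ∈ Finset.range p, jc D w p i = if i = 1 then D^[p - 1] w else 0 := by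
    intro i hi
    have hi' := Finset.mem_range.1 hi
    rcases Nat.eq_zero_or_pos i with rfl | hpos
    · have := jc_zero D w (m + 1)
      rw [hm]
      simpa using this
    · obtain ⟨k, rfl⟩ : ∃ k, i = k + 1 := ⟨i - 1, by omega⟩
      have h1 := hmain k
      rcases Nat.eq_zero_or_pos k with rfl | hk
      · simpa [jc] using h1
      · obtain ⟨k', rfl⟩ : ∃ k', k = k' + 1 := ⟨k - 1, by omega⟩
        have h2 : ((k' + 1 : ℕ) : F) + 1 ≠ 0 := by
          have : ((k' + 1 : ℕ) : F) + 1 = ((k' + 2 : ℕ) : F) := by push_cast; ring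
          rw [this, Ne, CharP.cast_eq_zero_iff F p]
          intro hd
          have := Nat.le_of_dvd (by omega) hd
          omega
        have h3 : jc D w 0 (k' + 1) = 0 := rfl
        rw [h3, mul_zero] at h1
        have h4 := (mul_eq_zero.1 h1).resolve_left h2
        rw [h4, if_neg (by omega)]
  rw [Finset.sum_congr rfl hz, Finset.sum_ite_eq' (Finset.range p) 1]
  rw [if_pos (Finset.mem_range.2 (by omega))]

/-- solutions of `D α = z α` -/
theorem exists_log (D : Derivation ℤ F F) (z : F) (h : D^[p - 1] z = - z ^ p) :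
    ∃ α : F, α ≠ 0 ∧ D α = z * α := by
  classical
  have h1 := jacobson (p := p) D (-z)
  have h2 : D^[p - 1] (-z) = - D^[p - 1] z := by
    have : ∀ n, D^[n] (-z) = - D^[n] z := by
      intro n
      induction n with
      | zero => rfl
      | succ n ih => rw [Function.iterate_succ_apply', ih, map_neg, Function.iterate_succ_apply']
    exact this _
  have h3 : (-z) ^ p = - z ^ p := by
    have := map_neg (frobenius F p) z
    simpa [frobenius_def] using this
  rw [h2, h, h3, neg_neg, add_neg_cancel] at h1
  have hex : ∃ n, (fun y => D y + -z * y)^[n] 1 = 0 := ⟨p, h1⟩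
  have hn := Nat.find_spec hex
  have hmin := fun m (hm : m < Nat.find hex) => Nat.find_min hex hm
  rcases Nat.eq_zero_or_pos (Nat.find hex) with h0 | hpos
  · rw [h0] at hn
    simp at hn
  · obtain ⟨m, hm⟩ : ∃ m, Nat.find hex = m + 1 := ⟨Nat.find hex - 1, by omega⟩
    rw [hm, Function.iterate_succ_apply'] at hn
    refine ⟨_, hmin m (by omega), ?_⟩
    linear_combination hn

end Jacobson

section Cartier

variable {p : ℕ} [hp : Fact p.Prime] {F : Type} [Field F] [CharP F p]

lemma D_pow_p (D : Derivation ℤ F F) (a : F) : D (a ^ p) = 0 := by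
  rw [Derivation.leibniz_pow]
  simp

lemma D_pow_p_mul (D : Derivation ℤ F F) (a b : F) : D (a ^ p * b) = a ^ p * D b := by
  rw [Derivation.leibniz, D_pow_p]
  simp

lemma Dn_pow_p_mul (D : Derivation ℤ F F) (a b : F) (n : ℕ) :
    D^[n] (a ^ p * b) = a ^ p * D^[n] b := by
  induction n with
  | zero => rfl
  | succ n ih => rw [Function.iterate_succ_apply', ih, D_pow_p_mul, Function.iterate_succ_apply']

lemma Dn_pow (D : Derivation ℤ F F) (T : F) (hT : D T = 1) (i n : ℕ) :
    D^[n] (T ^ i) = (i.descFactorial n : F) * T ^ (i - n) := by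
  induction n with
  | zero => simp
  | succ n ih =>
    rw [Function.iterate_succ_apply', ih, Derivation.leibniz, Derivation.leibniz_pow, hT]
    have : D ((i.descFactorial n : ℕ) : F) = 0 := by simp
    rw [this, Nat.descFactorial_succ, Nat.sub_sub]
    simp only [smul_eq_mul, mul_zero, add_zero, nsmul_eq_mul, mul_one, Nat.cast_mul]
    ring

lemma Dn_add (D : Derivation ℤ F F) (a b : F) (n : ℕ) : D^[n] (a + b) = D^[n] a + D^[n] b := by
  induction n with
  | zero => rfl
  | succ n ih => simp only [Function.iterate_succ_apply', ih, map_add]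

lemma Dn_zero (D : Derivation ℤ F F) (n : ℕ) : D^[n] 0 = 0 := by
  induction n with
  | zero => rfl
  | succ n ih => simp only [Function.iterate_succ_apply', ih, map_zero]

lemma Dn_sum (D : Derivation ℤ F F) (s : Finset ℕ) (f : ℕ → F) (n : ℕ) :
    D^[n] (∑ i ∈ s, f i) = ∑ i ∈ s, D^[n] (f i) := by
  classical
  induction s using Finset.induction_on with
  | empty => simp [Dn_zero]
  | insert a s ha ih => rw [Finset.sum_insert ha, Finset.sum_insert ha, Dn_add, ih]

lemma Dp_pow (D : Derivation ℤ F F) (T : F) (hT : D T = 1) (i : ℕ) (hi : i < p) :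
    D^[p - 1] (T ^ i) = if i = p - 1 then -1 else 0 := by
  rw [Dn_pow D T hT]
  split_ifs with h
  · rw [h, Nat.descFactorial_self, Nat.sub_self, pow_zero, mul_one]
    have h2 := congrArg (ZMod.castHom (dvd_refl p) F) (ZMod.wilsons_lemma p)
    rw [map_natCast, map_neg, map_one] at h2
    exact h2
  · rw [Nat.descFactorial_of_lt (by omega)]
    simp

lemma exists_root (D : Derivation ℤ F F) (T : F) (hT : D T = 1)
    (hspan : ∀ z : F, ∃ h : ℕ → F, z = ∑ i ∈ Finset.range p, h i ^ p * T ^ i) (z : F) :
    ∃ y : F, y ^ p = - D^[p - 1] z := by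
  have hp2 := hp.out.two_le
  obtain ⟨h, hh⟩ := hspan z
  refine ⟨h (p - 1), ?_⟩
  rw [hh, Dn_sum, Finset.sum_congr rfl fun i hi => by
    rw [Dn_pow_p_mul, Dp_pow D T hT i (Finset.mem_range.1 hi)]]
  simp only [mul_ite, mul_neg, mul_one, mul_zero]
  rw [Finset.sum_ite_eq' (Finset.range p) (p - 1), if_pos (Finset.mem_range.2 (by omega)), neg_neg]

/-- the Cartier operator -/
theorem cartier_exists (D : Derivation ℤ F F) (T : F) (hT : D T = 1)
    (hspan : ∀ z : F, ∃ h : ℕ → F, z = ∑ i ∈ Finset.range p, h i ^ p * T ^ i) :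
    ∃ Cp : F →+ F, (∀ a b, Cp (a ^ p * b) = a * Cp b) ∧
      (∀ i, Cp (T ^ i) = if p ∣ i + 1 then T ^ ((i + 1) / p - 1) else 0) ∧
      (∀ z, Cp z = z → ∃ α : F, α ≠ 0 ∧ D α = z * α) := by
  have hp2 := hp.out.two_le
  choose c hc using exists_root D T hT hspan
  have hinj : ∀ a b : F, a ^ p = b ^ p → a = b := fun a b h =>
    frobenius_inj F p (by simpa [frobenius_def] using h)
  have hadd : ∀ a b, c (a + b) = c a + c b := by
    intro a b
    apply hinj
    rw [hc, add_pow_char, hc, hc, Dn_add]
    ring
  have hmul : ∀ a b, c (a ^ p * b) = a * c b := by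
    intro a b
    apply hinj
    rw [hc, mul_pow, hc, Dn_pow_p_mul]
    ring
  refine ⟨AddMonoidHom.mk' c hadd, hmul, ?_, ?_⟩
  · intro i
    change c (T ^ i) = _
    have hdm := Nat.div_add_mod i p
    have hb : i % p < p := Nat.mod_lt _ (by omega)
    have e : T ^ i = (T ^ (i / p)) ^ p * T ^ (i % p) := by
      rw [← pow_mul, ← pow_add, mul_comm (i / p) p, hdm]
    rw [e, hmul]
    by_cases h : i % p = p - 1
    · have h1 : p ∣ i + 1 := by
        refine ⟨i / p + 1, ?_⟩
        rw [mul_add]
        omega
      have h2 : (i + 1) / p = i / p + 1 := by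
        have : i + 1 = p * (i / p + 1) := by rw [mul_add]; omega
        rw [this, Nat.mul_div_cancel_left _ (by omega)]
      rw [if_pos h1, h2, Nat.add_sub_cancel]
      have h3 : c (T ^ (i % p)) = 1 := by
        apply hinj
        rw [hc, Dp_pow D T hT _ hb, if_pos h]
        simp
      rw [h3, mul_one]
    · have h1 : ¬ p ∣ i + 1 := by
        rintro ⟨m, hm⟩
        apply h
        have hm0 : 0 < m := by
          rcases Nat.eq_zero_or_pos m with rfl | h0
          · omega
          · exact h0
        obtain ⟨m', rfl⟩ : ∃ m', m = m' + 1 := ⟨m - 1, by omega⟩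
        have : i = p * m' + (p - 1) := by
          rw [mul_add] at hm; omega
        rw [this, Nat.mul_add_mod, Nat.mod_eq_of_lt (by omega)]
      rw [if_neg h1]
      have h3 : c (T ^ (i % p)) = 0 := by
        apply hinj
        rw [hc, Dp_pow D T hT _ hb, if_neg h, neg_zero, zero_pow (by omega)]
      rw [h3, mul_zero]
  · intro z hz
    have hz' : c z = z := hz
    apply exists_log (p := p) D z
    have := hc z
    rw [hz'] at this
    rw [this, neg_neg]

end Cartier

end Pool.Agent.R360.GK
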