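import Mathlib

/-!
# The class group: action of ring isomorphisms, roots of principal ideals
-/

set_option autoImplicit false

open scoped nonZeroDivisors

namespace Pool.Agent.R360.GK

section map

set_option linter.unusedSectionVars false
set_option linter.overlappingInstances false

variable {R S : Type*} [CommRing R] [IsDomain R] [CommRing S] [IsDomain S]

lemma frac_map_coeIdeal (K L : Type*) [Field K] [Algebra R K] [IsFractionRing R K] [Field L]
    [Algebra S L] [IsFractionRing S L] (g : R ≃+* S) (J : Ideal R) :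
    FractionalIdeal.ringEquivOfRingEquiv K L g (J : FractionalIdeal R⁰ K) =
      ((J.map g : Ideal S) : FractionalIdeal S⁰ L) := by
  ext y
  rw [← FractionalIdeal.mem_coe, ← FractionalIdeal.mem_coe,
    ← FractionalIdeal.val_eq_coe (FractionalIdeal.ringEquivOfRingEquiv K L g _),
    FractionalIdeal.ringEquivOfRingEquiv_apply_val, Submodule.mem_map]
  constructor
  · rintro ⟨x, hx, rfl⟩
    have hx' : x ∈ (J : FractionalIdeal R⁰ K) := hx
    rw [FractionalIdeal.mem_coeIdeal] at hx'
    obtain ⟨t, ht, rfl⟩ := hx'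
    rw [FractionalIdeal.coe_coeIdeal]
    refine (IsLocalization.mem_coeSubmodule L _).2 ⟨g t, Ideal.mem_map_of_mem g ht, ?_⟩
    exact (IsFractionRing.ringEquivOfRingEquiv_algebraMap g t).symm
  · intro hy
    rw [FractionalIdeal.coe_coeIdeal] at hy
    obtain ⟨z, hz, rfl⟩ := (IsLocalization.mem_coeSubmodule L _).1 hy
    obtain ⟨x, hx, rfl⟩ := (Ideal.mem_map_of_equiv g z).1 hz
    refine ⟨algebraMap R K x, ?_, ?_⟩
    · exact (FractionalIdeal.mem_coeIdeal _).2 ⟨x, hx, rfl⟩
    · exact IsFractionRing.ringEquivOfRingEquiv_algebraMap g x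

lemma map_ne_bot (g : R ≃+* S) {J : Ideal R} (hJ : J ≠ ⊥) : J.map g ≠ ⊥ := by
  intro h
  apply hJ
  rw [eq_bot_iff]
  intro x hx
  have h1 := Ideal.mem_map_of_mem g hx
  rw [h, Ideal.mem_bot] at h1
  have : x = 0 := g.injective (by simpa using h1)
  rw [this]
  exact zero_mem _

theorem mulEquiv_mk0 [IsDedekindDomain R] [IsDedekindDomain S] (g : R ≃+* S) (J : (Ideal R)⁰)
    (J' : (Ideal S)⁰) (h : (J' : Ideal S) = (J : Ideal R).map g) :
    ClassGroup.mulEquiv g (ClassGroup.mk0 J) = ClassGroup.mk0 J' := by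
  apply (ClassGroup.equiv (FractionRing S)).injective
  rw [ClassGroup.equiv_mk0]
  change (ClassGroup.equiv (FractionRing S)) ((ClassGroup.equiv (FractionRing S)).symm
    (QuotientGroup.congr (toPrincipalIdeal R (FractionRing R)).range
        (toPrincipalIdeal S (FractionRing S)).range
        (Units.mapEquiv (FractionalIdeal.ringEquivOfRingEquiv (FractionRing R) (FractionRing S) g))
        (FractionalIdeal.map_ringEquivOfRingEquiv_toPrincipalIdeal g)
      (ClassGroup.equiv (FractionRing R) (ClassGroup.mk0 J)))) = _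
  rw [MulEquiv.apply_symm_apply, ClassGroup.equiv_mk0]
  erw [QuotientGroup.congr_mk']
  congr 1
  apply Units.ext
  change FractionalIdeal.ringEquivOfRingEquiv (FractionRing R) (FractionRing S) g
    ((J : Ideal R) : FractionalIdeal R⁰ (FractionRing R)) = _
  rw [frac_map_coeIdeal, ← h]
  rfl

end map

end Pool.Agent.R360.GK
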