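import Mathlib

/-!
# Carlitz cyclotomic function fields and Bernoulli-Carlitz numbers: definitions

`Fq` is a finite field with `q` elements, `A = Fq[T]` (written `Fq[X]`), `K = RatFunc Fq`.
-/

set_option autoImplicit false

open Polynomial
open scoped TensorProduct

namespace Pool.Agent.R360.GK

section Carlitz

variable (Fq : Type) [Field Fq] [Fintype Fq]

/-- The Carlitz module: `C_T(x) = T x + x ^ q` on an `A`-algebra `F`. -/
noncomputable def cT (F : Type) [CommRing F] [Algebra Fq[X] F] (x : F) : F :=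
  algebraMap Fq[X] F X * x + x ^ Fintype.card Fq

/-- The Carlitz module: `C_a(x) = ∑ i, a_i C_T(C_T(⋯ C_T(x)))` for `a = ∑ i, a_i T ^ i`. -/
noncomputable def carlitz (F : Type) [CommRing F] [Algebra Fq[X] F] (a : Fq[X]) (x : F) : F :=
  a.sum fun i c => algebraMap Fq[X] F (C c) * (cT Fq F)^[i] x

/-- `D_i = ∏_{j < i} (T ^ (q ^ i) - T ^ (q ^ j))`. -/
noncomputable def carD (i : ℕ) : Fq[X] :=
  ∏ j ∈ Finset.range i, (X ^ Fintype.card Fq ^ i - X ^ Fintype.card Fq ^ j)

/-- The Carlitz factorial `Π(n) = ∏ D_i ^ (n_i)`, where `n = ∑ n_i q ^ i` with `0 ≤ n_i < q`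
(`n_i = 0` for `i > n`). -/
noncomputable def carPi (n : ℕ) : Fq[X] :=
  ∏ i ∈ Finset.range (n + 1), carD Fq i ^ (n / Fintype.card Fq ^ i % Fintype.card Fq)

open scoped Classical in
/-- The power series `e(z) / z`, where `e(z) = ∑ z ^ (q ^ i) / D_i` is the Carlitz exponential. -/
noncomputable def expDivZ : PowerSeries (RatFunc Fq) :=
  PowerSeries.mk fun n =>
    if Fintype.card Fq ^ Nat.log (Fintype.card Fq) (n + 1) = n + 1 then
      (algebraMap Fq[X] (RatFunc Fq) (carD Fq (Nat.log (Fintype.card Fq) (n + 1))))⁻¹ else 0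

/-- The Bernoulli-Carlitz number `B_n`: `z / e(z) = ∑ (B_n / Π(n)) z ^ n`. -/
noncomputable def bernoulliCarlitz (n : ℕ) : RatFunc Fq :=
  algebraMap Fq[X] (RatFunc Fq) (carPi Fq n) * PowerSeries.coeff n (expDivZ Fq)⁻¹

/-- The prime `P` divides the rational function `x`, i.e. `x = P a / b` with `P ∤ b`. -/
def PrimeDvd (P : Fq[X]) (x : RatFunc Fq) : Prop :=
  ∃ a b : Fq[X], ¬ P ∣ b ∧ x * algebraMap Fq[X] (RatFunc Fq) b =
    algebraMap Fq[X] (RatFunc Fq) (P * a)

/-- `F` is the `P`-th Carlitz cyclotomic field `K(Λ_P)` and `lam` is a generator of the group of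
`P`-torsion points of the Carlitz module, such as `Λ_P = e(π̃ / P)`: `lam ≠ 0`, `C_P(lam) = 0` and
`F = K(lam)`. -/
structure IsCyclotomic (P : Fq[X]) (F : Type) [Field F] [Algebra Fq[X] F]
    [Algebra (RatFunc Fq) F] (lam : F) : Prop where
  ne_zero : lam ≠ 0
  torsion : carlitz Fq F P lam = 0
  gen : IntermediateField.adjoin (RatFunc Fq) {lam} = ⊤

end Carlitz

section ClassGroup

variable (Fq : Type) [Field Fq] [Fintype Fq] (p : ℕ) [Fact p.Prime] [CharP Fq p]
variable (P : Fq[X]) [Fact (Irreducible P)]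
variable (F : Type) [Field F] [Algebra Fq[X] F] [Algebra (RatFunc Fq) F]
  [IsScalarTower Fq[X] (RatFunc Fq) F]

/-- the ideal class group of the integral closure of `A` in `F`, written additively -/
noncomputable abbrev Cl : Type := Additive (ClassGroup (integralClosure Fq[X] F))

/-- the action of `Gal(F/K)` on the ideal class group -/
noncomputable def clAct (σ : F ≃ₐ[RatFunc Fq] F) : Cl Fq F →ₗ[ℤ] Cl Fq F :=
  (MonoidHom.toAdditive (ClassGroup.mulEquiv
    ((σ.restrictScalars Fq[X]).mapIntegralClosure.toRingEquiv)).toMonoidHom).toIntLinearMap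

/-- the `p`-primary part `C̃` of the ideal class group -/
noncomputable abbrev ClP : Submodule ℤ (Cl Fq F) := (Ideal.span {(p : ℤ)}).primaryComponent (Cl Fq F)

/-- the ring `W` of Witt vectors of the residue field `A / P` -/
noncomputable abbrev W : Type := WittVector p (AdjoinRoot P)

/-- the Teichmüller character `w : A / P → W` -/
noncomputable def teich (a : Fq[X]) : W Fq p P := WittVector.teichmuller p (AdjoinRoot.mk P a)

/-- `C̃ ⊗ W` -/
noncomputable abbrev ClW : Type := W Fq p P ⊗[ℤ] ClP Fq p F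

/-- the action of `Gal(F/K)` on `C̃ ⊗ W` -/
noncomputable def clWAct (σ : F ≃ₐ[RatFunc Fq] F) : ClW Fq p P F →ₗ[ℤ] ClW Fq p P F :=
  LinearMap.lTensor (W Fq p P) (Ideal.primaryComponent.map (Ideal.span {(p : ℤ)}) (clAct Fq F σ))

/-- The component `C̃(w ^ k)` of `C̃ ⊗ W`: the elements on which `(A / P)^*`, i.e. `Gal(F/K)`, acts
through `w ^ k`; the automorphism `σ` with `σ(lam) = C_a(lam)` acts as multiplication by
`w(a) ^ k`. -/
def component (lam : F) (k : ℕ) : Set (ClW Fq p P F) :=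
  {x | ∀ (σ : F ≃ₐ[RatFunc Fq] F) (a : Fq[X]), σ lam = carlitz Fq F a lam →
    clWAct Fq p P F σ x = teich Fq p P a ^ k • x}

end ClassGroup

end Pool.Agent.R360.GK
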