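import Pool.Agent.R360.GK.Defs

/-!
# Compact definitions for the statement of Gekeler's conjecture
-/

set_option autoImplicit false

open Polynomial

namespace Pool.Agent.R360.GKS

section General

/-- the `p`-primary part of an abelian group -/
def Prim (p : ℕ) (M : Type) [AddCommGroup M] : AddSubgroup M where
  carrier := {c | ∃ n : ℕ, p ^ n • c = 0}
  zero_mem' := ⟨0, smul_zero _⟩
  add_mem' := by
    rintro a b ⟨m, hm⟩ ⟨n, hn⟩
    refine ⟨m + n, ?_⟩
    have ha : p ^ (m + n) • a = 0 := by rw [pow_add, mul_comm, mul_smul, hm, smul_zero]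
    have hb : p ^ (m + n) • b = 0 := by rw [pow_add, mul_smul, hn, smul_zero]
    rw [smul_add, ha, hb, add_zero]
  neg_mem' := by
    rintro a ⟨m, hm⟩
    exact ⟨m, by rw [smul_neg, hm, neg_zero]⟩

/-- the restriction of an endomorphism to the `p`-primary part -/
def primMap (p : ℕ) {M : Type} [AddCommGroup M] (f : M →+ M) : Prim p M →+ Prim p M :=
  AddMonoidHom.mk' (fun c => ⟨f c, c.2.imp fun n hn => by rw [← map_nsmul, hn, map_zero]⟩)
    (fun _ _ => Subtype.ext (map_add _ _ _))

/-- `R ⊗ M` over the integers -/
def Tens (R M : Type) [CommRing R] [AddCommGroup M] : Type := TensorProduct ℤ R M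

noncomputable instance instTens (R M : Type) [CommRing R] [AddCommGroup M] :
    AddCommGroup (Tens R M) := TensorProduct.addCommGroup

noncomputable instance instTensModule (R M : Type) [CommRing R] [AddCommGroup M] :
    Module R (Tens R M) := TensorProduct.leftModule

/-- the map `1 ⊗ f` -/
noncomputable def tensMap (R : Type) {M : Type} [CommRing R] [AddCommGroup M] (f : M →+ M)
    (x : Tens R M) : Tens R M :=
  LinearMap.lTensor R f.toIntLinearMap x

/-- the ideal class group, written additively -/
def Cl (R : Type) [CommRing R] [IsDomain R] : Type := Additive (ClassGroup R)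

noncomputable instance instCl (R : Type) [CommRing R] [IsDomain R] : AddCommGroup (Cl R) :=
  Additive.addCommGroup

/-- the action of a ring automorphism on the ideal class group -/
noncomputable def clMap {R : Type} [CommRing R] [IsDomain R] (g : R ≃+* R) : Cl R →+ Cl R :=
  MonoidHom.toAdditive (ClassGroup.mulEquiv g).toMonoidHom

end General

section Carlitz

variable (Fq : Type) [Field Fq] (F : Type) [Field F] [Algebra Fq[X] F]

/-- `O_F`, the integral closure of `A = Fq[T]` in `F` -/
def OF : Type := integralClosure Fq[X] F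

noncomputable instance instOF : CommRing (OF Fq F) := (integralClosure Fq[X] F).toCommRing

instance instOF' : IsDomain (OF Fq F) := (integralClosure Fq[X] F).isDomain

variable {F}

/-- the action of `Gal(F/K)` on `O_F` -/
noncomputable def galOF [Algebra (RatFunc Fq) F] [IsScalarTower Fq[X] (RatFunc Fq) F]
    (σ : F ≃ₐ[RatFunc Fq] F) : OF Fq F ≃+* OF Fq F :=
  ((σ.restrictScalars Fq[X]).mapIntegralClosure).toRingEquiv

variable {Fq} (p : ℕ) [Fact p.Prime] (P : Fq[X])

/-- the ring `W` of Witt vectors of the residue field `A / P` -/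
def W : Type := WittVector p (AdjoinRoot P)

noncomputable instance instW : CommRing (W p P) := WittVector.instCommRing p (AdjoinRoot P)

/-- the Teichmüller character `w : A / P → W` -/
noncomputable def teich (a : Fq[X]) : W p P := WittVector.teichmuller p (AdjoinRoot.mk P a)

variable (Fq F)

/-- the `p`-primary part `C̃` of the ideal class group of `O_F` -/
def ClP : Type := Prim p (Cl (OF Fq F))

noncomputable instance instClP : AddCommGroup (ClP Fq F p) := (Prim p (Cl (OF Fq F))).toAddCommGroup

variable {Fq F}

/-- the action of `Gal(F/K)` on `C̃` -/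
noncomputable def clPAct [Algebra (RatFunc Fq) F] [IsScalarTower Fq[X] (RatFunc Fq) F]
    (σ : F ≃ₐ[RatFunc Fq] F) : ClP Fq F p →+ ClP Fq F p := primMap p (clMap (galOF Fq σ))

variable (F)

/-- `C̃ ⊗ W` -/
def CW : Type := Tens (W p P) (ClP Fq F p)

noncomputable instance instCW : AddCommGroup (CW F p P) := instTens (W p P) (ClP Fq F p)

noncomputable instance instCWModule : Module (W p P) (CW F p P) :=
  instTensModule (W p P) (ClP Fq F p)

variable {F} [Algebra (RatFunc Fq) F] [IsScalarTower Fq[X] (RatFunc Fq) F]

/-- the action of `Gal(F/K)` on `C̃ ⊗ W` -/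
noncomputable def cwAct (σ : F ≃ₐ[RatFunc Fq] F) (x : CW F p P) : CW F p P :=
  tensMap (W p P) (clPAct p σ) x

variable [Fintype Fq]

/-- The component `C̃(w ^ k)` of `C̃ ⊗ W`: the elements on which `(A / P)^*`, i.e. `Gal(F/K)`, acts
through `w ^ k`; the automorphism `σ` with `σ(lam) = C_a(lam)` acts as multiplication by
`w(a) ^ k`. -/
def component (lam : F) (k : ℕ) : Set (CW F p P) :=
  {x | ∀ (σ : F ≃ₐ[RatFunc Fq] F) (a : Fq[X]), σ lam = GK.carlitz Fq F a lam →
    cwAct p P σ x = teich p P a ^ k • x}

end Carlitz

end Pool.Agent.R360.GKS
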