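import Pool.Agent.R360.GK.Gal
import Pool.Agent.R360.GK.Cartier

/-!
# The derivation `d/dT` of the Carlitz cyclotomic field
-/

set_option autoImplicit false
set_option linter.unusedSectionVars false

open Polynomial
open scoped TensorProduct

namespace Pool.Agent.R360.GK

section der

variable {Fq : Type} [Field Fq] {F : Type} [Field F] [Algebra Fq F] [Algebra Fq[X] F]
  [IsScalarTower Fq Fq[X] F] [Algebra (RatFunc Fq) F] [IsScalarTower Fq[X] (RatFunc Fq) F]

theorem exists_der [Algebra.IsSeparable (RatFunc Fq) F] :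
    ∃ D : Derivation ℤ F F, D (algebraMap Fq[X] F X) = 1 := by
  have e1 : Algebra.FormallyEtale Fq[X] (RatFunc Fq) :=
    Algebra.FormallyEtale.of_isLocalization (nonZeroDivisors Fq[X])
  have e2 : Algebra.FormallyEtale (RatFunc Fq) F := Algebra.FormallyEtale.of_isSeparable _ _
  have e3 : Algebra.FormallyEtale Fq[X] F := Algebra.FormallyEtale.comp _ (RatFunc Fq) _
  let φ : Ω[F⁄Fq] ≃ₗ[F] F :=
    (KaehlerDifferential.tensorKaehlerEquivOfFormallyEtale Fq Fq[X] F).symm ≪≫ₗ
      (TensorProduct.AlgebraTensorModule.congr (LinearEquiv.refl F F)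
        (KaehlerDifferential.polynomialEquiv Fq)) ≪≫ₗ
      (TensorProduct.AlgebraTensorModule.rid Fq[X] F F)
  let D : Derivation Fq F F := φ.toLinearMap.compDer (KaehlerDifferential.D Fq F)
  refine ⟨D.restrictScalars ℤ, ?_⟩
  change φ (KaehlerDifferential.D Fq F (algebraMap Fq[X] F X)) = 1
  simp only [φ, LinearEquiv.trans_apply,
    KaehlerDifferential.tensorKaehlerEquivOfFormallyEtale_symm_D_algebraMap]
  simp

end der

section span

variable (p : ℕ) [hp : Fact p.Prime] {F : Type} [Field F] [CharP F p] (T : F)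

/-- `F^p[T]` -/
def Sp : Subring F where
  carrier := {z | ∃ h : ℕ → F, z = ∑ i ∈ Finset.range p, h i ^ p * T ^ i}
  zero_mem' := ⟨fun _ => 0, by
    rw [Finset.sum_eq_zero]
    intro i _
    rw [zero_pow hp.out.ne_zero, zero_mul]⟩
  add_mem' := by
    rintro a b ⟨h, rfl⟩ ⟨g, rfl⟩
    refine ⟨fun i => h i + g i, ?_⟩
    rw [← Finset.sum_add_distrib]
    refine Finset.sum_congr rfl fun i _ => ?_
    rw [add_pow_char, add_mul]
  neg_mem' := by
    rintro a ⟨h, rfl⟩
    refine ⟨fun i => - h i, ?_⟩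
    rw [← Finset.sum_neg_distrib]
    refine Finset.sum_congr rfl fun i _ => ?_
    have : (- h i) ^ p = - (h i ^ p) := map_neg (frobenius F p) (h i)
    change _ = (- h i) ^ p * T ^ i
    rw [this, neg_mul]
  one_mem' := by
    refine ⟨fun i => if i = 0 then 1 else 0, ?_⟩
    rw [Finset.sum_eq_single 0]
    · simp
    · intro b _ hb
      simp [hb, zero_pow hp.out.ne_zero]
    · intro h
      exact absurd (Finset.mem_range.2 hp.out.pos) h
  mul_mem' := by
    have hadd : ∀ a b : F, (∃ h : ℕ → F, a = ∑ i ∈ Finset.range p, h i ^ p * T ^ i) →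
        (∃ h : ℕ → F, b = ∑ i ∈ Finset.range p, h i ^ p * T ^ i) →
        (∃ h : ℕ → F, a + b = ∑ i ∈ Finset.range p, h i ^ p * T ^ i) := by
      rintro a b ⟨h, rfl⟩ ⟨g, rfl⟩
      refine ⟨fun i => h i + g i, ?_⟩
      rw [← Finset.sum_add_distrib]
      refine Finset.sum_congr rfl fun i _ => ?_
      rw [add_pow_char, add_mul]
    have hT : ∀ a : F, (∃ h : ℕ → F, a = ∑ i ∈ Finset.range p, h i ^ p * T ^ i) →
        (∃ h : ℕ → F, T * a = ∑ i ∈ Finset.range p, h i ^ p * T ^ i) := by
      rintro a ⟨h, rfl⟩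
      obtain ⟨n, hn⟩ : ∃ n, p = n + 1 := ⟨p - 1, by have := hp.out.pos; omega⟩
      refine ⟨fun i => if i = 0 then h n * T else h (i - 1), ?_⟩
      rw [Finset.mul_sum]
      have e : Finset.range p = Finset.range (n + 1) := by rw [hn]
      rw [e, Finset.sum_range_succ, Finset.sum_range_succ']
      congr 1
      · refine Finset.sum_congr rfl fun i _ => ?_
        change _ = (if i + 1 = 0 then h n * T else h (i + 1 - 1)) ^ p * T ^ (i + 1)
        rw [if_neg (by omega), Nat.add_sub_cancel, pow_succ]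
        ring
      · change _ = (h n * T) ^ p * T ^ 0
        rw [mul_pow, pow_zero, mul_one]
        have : T ^ p = T ^ n * T := by rw [hn, pow_succ]
        rw [this]
        ring
    have hc : ∀ c a : F, (∃ h : ℕ → F, a = ∑ i ∈ Finset.range p, h i ^ p * T ^ i) →
        (∃ h : ℕ → F, c ^ p * a = ∑ i ∈ Finset.range p, h i ^ p * T ^ i) := by
      rintro c a ⟨h, rfl⟩
      refine ⟨fun i => c * h i, ?_⟩
      rw [Finset.mul_sum]
      refine Finset.sum_congr rfl fun i _ => ?_
      rw [mul_pow]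
      ring
    have hTn : ∀ n (a : F), (∃ h : ℕ → F, a = ∑ i ∈ Finset.range p, h i ^ p * T ^ i) →
        (∃ h : ℕ → F, T ^ n * a = ∑ i ∈ Finset.range p, h i ^ p * T ^ i) := by
      intro n
      induction n with
      | zero => intro a ha; simpa using ha
      | succ n ih =>
        intro a ha
        rw [pow_succ, mul_assoc]
        exact ih _ (hT a ha)
    rintro a b ⟨h, rfl⟩ hb
    change ∃ g : ℕ → F, _ = _
    rw [Finset.sum_mul]
    have : ∀ s : Finset ℕ, ∃ g : ℕ → F, ∑ i ∈ s, h i ^ p * T ^ i * b =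
        ∑ i ∈ Finset.range p, g i ^ p * T ^ i := by
      intro s
      classical
      induction s using Finset.induction_on with
      | empty =>
        refine ⟨fun _ => 0, ?_⟩
        rw [Finset.sum_empty, Finset.sum_eq_zero]
        intro i _
        rw [zero_pow hp.out.ne_zero, zero_mul]
      | insert i s hi ih =>
        rw [Finset.sum_insert hi]
        refine hadd _ _ ?_ ih
        rw [mul_assoc]
        exact hc _ _ (hTn _ _ hb)
    exact this _

lemma mem_Sp (z : F) : z ∈ Sp p T ↔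
    ∃ h : ℕ → F, z = ∑ i ∈ Finset.range p, h i ^ p * T ^ i := Iff.rfl

lemma pow_mem_Sp (c : F) : c ^ p ∈ Sp p T := by
  refine ⟨fun i => if i = 0 then c else 0, ?_⟩
  rw [Finset.sum_eq_single 0]
  · simp
  · intro b _ hb
    simp [hb, zero_pow hp.out.ne_zero]
  · intro h
    exact absurd (Finset.mem_range.2 hp.out.pos) h

lemma T_mem_Sp : T ∈ Sp p T := by
  refine ⟨fun i => if i = 1 then 1 else 0, ?_⟩
  rw [Finset.sum_eq_single 1]
  · simp
  · intro b _ hb
    simp [hb, zero_pow hp.out.ne_zero]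
  · intro h
    exact absurd (Finset.mem_range.2 hp.out.one_lt) h

lemma inv_mem_Sp {z : F} (hz : z ∈ Sp p T) : z⁻¹ ∈ Sp p T := by
  rcases eq_or_ne z 0 with rfl | h0
  · simp
  have h1 := mul_mem (pow_mem_Sp p T z⁻¹) (pow_mem hz (p - 1))
  have h2 : (z⁻¹) ^ p * z ^ (p - 1) = z⁻¹ := by
    obtain ⟨n, hn⟩ : ∃ n, p = n + 1 := ⟨p - 1, by have := hp.out.pos; omega⟩
    have hn' : p - 1 = n := by omega
    rw [hn']
    have : (z⁻¹) ^ p = (z⁻¹) ^ n * z⁻¹ := by rw [hn, pow_succ]
    rw [this, mul_right_comm, ← mul_pow, inv_mul_cancel₀ h0, one_pow, one_mul]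
  rwa [h2] at h1

end span

section comm

variable {p : ℕ} [hp : Fact p.Prime] {F : Type} [Field F] [CharP F p]

lemma D_T_pow (D : Derivation ℤ F F) (T : F) (hT : D T = 1) (i : ℕ) :
    D (T ^ i) = i * T ^ (i - 1) := by
  rw [Derivation.leibniz_pow, hT]
  simp

lemma D_comm (D : Derivation ℤ F F) (T : F) (hT : D T = 1)
    (hs : ∀ z : F, ∃ h : ℕ → F, z = ∑ i ∈ Finset.range p, h i ^ p * T ^ i)
    (σ : F →+* F) (hσ : σ T = T) (z : F) : D (σ z) = σ (D z) := by
  obtain ⟨h, rfl⟩ := hs z
  simp only [map_sum, map_mul, map_pow, D_pow_p_mul, D_T_pow D T hT, hσ, map_natCast]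

lemma Cp_comm (Cp : F →+ F) (T : F) (h1 : ∀ a b, Cp (a ^ p * b) = a * Cp b)
    (h2 : ∀ i, Cp (T ^ i) = if p ∣ i + 1 then T ^ ((i + 1) / p - 1) else 0)
    (hs : ∀ z : F, ∃ h : ℕ → F, z = ∑ i ∈ Finset.range p, h i ^ p * T ^ i)
    (σ : F →+* F) (hσ : σ T = T) (z : F) : Cp (σ z) = σ (Cp z) := by
  obtain ⟨h, rfl⟩ := hs z
  simp only [map_sum, map_mul, map_pow, h1, h2, hσ]
  refine Finset.sum_congr rfl fun i _ => ?_
  split_ifs <;> simp [hσ]

lemma ker_D (D : Derivation ℤ F F) (T : F) (hT : D T = 1)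
    (hs : ∀ z : F, ∃ h : ℕ → F, z = ∑ i ∈ Finset.range p, h i ^ p * T ^ i) (z : F)
    (hz : D z = 0) : ∃ y : F, z = y ^ p := by
  obtain ⟨Cp, h1, h2, -⟩ := cartier_exists D T hT hs
  have hp2 := hp.out.two_le
  -- Cp ∘ D = 0
  have h0 : ∀ y, Cp (D y) = 0 := by
    intro y
    obtain ⟨h, rfl⟩ := hs y
    simp only [map_sum, D_pow_p_mul, D_T_pow D T hT, h1]
    refine Finset.sum_eq_zero fun i hi => ?_
    have hi' := Finset.mem_range.1 hi
    rcases Nat.eq_zero_or_pos i with rfl | hi0
    · simp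
    · have e : Cp (i * T ^ (i - 1)) = i * Cp (T ^ (i - 1)) := by
        rw [← nsmul_eq_mul, map_nsmul, nsmul_eq_mul]
      rw [e, h2, if_neg, mul_zero, mul_zero]
      rw [Nat.sub_add_cancel hi0]
      exact fun hd => absurd (Nat.le_of_dvd hi0 hd) (by omega)
  obtain ⟨h, hh⟩ := hs z
  have h3 : ∀ m, m < p - 1 → h (p - 1 - m) = 0 := by
    intro m hm
    have e1 : D (T ^ (m + 1) * z) = ((m + 1 : ℕ) : F) * (T ^ m * z) := by
      rw [Derivation.leibniz, hz, D_T_pow D T hT, Nat.add_sub_cancel]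
      simp only [smul_eq_mul, mul_zero, zero_add]
      ring
    have e2 : Cp (((m + 1 : ℕ) : F) * (T ^ m * z)) = 0 := by rw [← e1, h0]
    rw [← nsmul_eq_mul, map_nsmul, nsmul_eq_mul] at e2
    have e3 : ((m + 1 : ℕ) : F) ≠ 0 := by
      intro h4
      rw [CharP.cast_eq_zero_iff F p] at h4
      exact absurd (Nat.le_of_dvd (by omega) h4) (by omega)
    have e4 : Cp (T ^ m * z) = 0 := (mul_eq_zero.1 e2).resolve_left e3
    rw [hh, Finset.mul_sum, map_sum, Finset.sum_eq_single (p - 1 - m)] at e4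
    · have e5 : T ^ m * (h (p - 1 - m) ^ p * T ^ (p - 1 - m)) = h (p - 1 - m) ^ p * T ^ (p - 1) := by
        rw [mul_left_comm, ← pow_add]
        congr 2
        omega
      rw [e5, h1, h2, if_pos (by rw [Nat.sub_add_cancel (by omega)])] at e4
      rw [Nat.sub_add_cancel (by omega), Nat.div_self (by omega)] at e4
      simpa using e4
    · intro i hi hne
      have hi' := Finset.mem_range.1 hi
      have e5 : T ^ m * (h i ^ p * T ^ i) = h i ^ p * T ^ (m + i) := by
        rw [mul_left_comm, ← pow_add]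
      rw [e5, h1, h2, if_neg, mul_zero]
      rintro ⟨c, hc⟩
      have hc1 : c = 1 := by
        have : p * c < p * 2 := by omega
        have h5 : c < 2 := Nat.lt_of_mul_lt_mul_left this
        rcases Nat.eq_zero_or_pos c with rfl | hc0
        · omega
        · omega
      subst hc1
      omega
    · intro hne
      exact absurd (Finset.mem_range.2 (by omega)) hne
  refine ⟨h 0, ?_⟩
  rw [hh, Finset.sum_eq_single 0]
  · simp
  · intro i hi hi0
    have hi' := Finset.mem_range.1 hi
    have := h3 (p - 1 - i) (by omega)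
    rw [show p - 1 - (p - 1 - i) = i by omega] at this
    rw [this, zero_pow hp.out.ne_zero, zero_mul]
  · intro hne
    exact absurd (Finset.mem_range.2 hp.out.pos) hne

end comm

section carl

variable {Fq : Type} [Field Fq] [Fintype Fq]

/-- span of `x ^ (q ^ i)`, `i ≥ 1` -/
noncomputable def Mq (Fq : Type) [Field Fq] [Fintype Fq] {R : Type} [CommRing R] [Algebra Fq[X] R] (x : R) :
    Submodule Fq[X] R :=
  Submodule.span Fq[X] (Set.range fun i : ℕ => x ^ (Fintype.card Fq ^ (i + 1)))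

variable {p : ℕ} [hp : Fact p.Prime] [CharP Fq p] {F : Type} [Field F] [Algebra Fq F]
  [Algebra Fq[X] F] [IsScalarTower Fq Fq[X] F]

lemma Mq_pow (x y : F) (hy : y ∈ Mq Fq x) : y ^ Fintype.card Fq ∈ Mq Fq x := by
  have hadd : ∀ a b : F, (a + b) ^ Fintype.card Fq = a ^ Fintype.card Fq + b ^ Fintype.card Fq :=
    fun a b => map_add (FiniteField.frobeniusAlgHom Fq F) a b
  induction hy using Submodule.span_induction with
  | mem y hy =>
    obtain ⟨i, rfl⟩ := hy
    refine Submodule.subset_span ⟨i + 1, ?_⟩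
    change x ^ (Fintype.card Fq ^ (i + 1 + 1)) = (x ^ (Fintype.card Fq ^ (i + 1))) ^ Fintype.card Fq
    rw [← pow_mul, ← pow_succ]
  | zero => rw [zero_pow Fintype.card_ne_zero]; exact zero_mem _
  | add y z _ _ h1 h2 => rw [hadd]; exact add_mem h1 h2
  | smul a y _ h1 =>
    rw [Algebra.smul_def, mul_pow, ← map_pow, ← Algebra.smul_def]
    exact Submodule.smul_mem _ _ h1

lemma carlitz_sub_mem (a : Fq[X]) (x : F) : carlitz Fq F a x - a • x ∈ Mq Fq x := by
  have h : ∀ n, (cT Fq F)^[n] x - (X ^ n : Fq[X]) • x ∈ Mq Fq x := by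
    intro n
    induction n with
    | zero => simp
    | succ n ih =>
      rw [Function.iterate_succ_apply', cT]
      set y := (cT Fq F)^[n] x
      have h1 := Submodule.smul_mem _ (X : Fq[X]) ih
      have h2 := Mq_pow (Fq := Fq) x _ ih
      have h3 : (y - (X ^ n : Fq[X]) • x) ^ Fintype.card Fq =
          y ^ Fintype.card Fq - (X ^ n : Fq[X]) ^ Fintype.card Fq • x ^ Fintype.card Fq := by
        have := map_sub (FiniteField.frobeniusAlgHom Fq F) y ((X ^ n : Fq[X]) • x)
        refine this.trans ?_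
        change _ - ((X ^ n : Fq[X]) • x) ^ Fintype.card Fq = _
        rw [Algebra.smul_def, mul_pow, ← map_pow, ← Algebra.smul_def]
        rfl
      rw [h3] at h2
      have h4 : (X ^ n : Fq[X]) ^ Fintype.card Fq • x ^ Fintype.card Fq ∈ Mq Fq x :=
        Submodule.smul_mem _ _ (Submodule.subset_span ⟨0, by simp⟩)
      have h5 := add_mem (add_mem h1 h2) h4
      have e : algebraMap Fq[X] F X * y + y ^ Fintype.card Fq - (X ^ (n + 1) : Fq[X]) • x =
          (X : Fq[X]) • (y - (X ^ n : Fq[X]) • x) + (y ^ Fintype.card Fq - (X ^ n : Fq[X]) ^ Fintype.card Fq •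
            x ^ Fintype.card Fq) + (X ^ n : Fq[X]) ^ Fintype.card Fq • x ^ Fintype.card Fq := by
        simp only [Algebra.smul_def, map_pow]
        ring
      rw [e]
      exact h5
  have e : carlitz Fq F a x - a • x =
      ∑ i ∈ a.support, (C (a.coeff i) : Fq[X]) • ((cT Fq F)^[i] x - (X ^ i : Fq[X]) • x) := by
    have e1 : ∑ i ∈ a.support, (C (a.coeff i) : Fq[X]) • ((X ^ i : Fq[X]) • x) = a • x := by
      have e2 : ∀ i ∈ a.support, (C (a.coeff i) : Fq[X]) • ((X ^ i : Fq[X]) • x) =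
          (C (a.coeff i) * X ^ i : Fq[X]) • x := fun i _ => (mul_smul _ _ _).symm
      rw [Finset.sum_congr rfl e2, ← Finset.sum_smul]
      congr 1
      exact a.as_sum_support_C_mul_X_pow.symm
    simp only [smul_sub]
    rw [Finset.sum_sub_distrib, e1]
    simp only [carlitz, Polynomial.sum, Algebra.smul_def]
  rw [e]
  exact Submodule.sum_mem _ fun i _ => Submodule.smul_mem _ _ (h i)

variable {P : Fq[X]} [hirr : Fact (Irreducible P)] [Algebra (RatFunc Fq) F]
  [IsScalarTower Fq[X] (RatFunc Fq) F] {lam : F}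

lemma P_lam_mem (h : IsCyclotomic Fq P F lam) : P • lam ∈ Mq Fq lam := by
  have := carlitz_sub_mem P lam
  rw [h.torsion, zero_sub] at this
  exact (neg_mem_iff).1 this

omit hp [Fintype Fq] [Algebra Fq[X] F] [IsScalarTower Fq Fq[X] F] [Algebra (RatFunc Fq) F]
  [IsScalarTower Fq[X] (RatFunc Fq) F] in
theorem charP_F (Fq : Type) [Field Fq] [CharP Fq p] [Algebra Fq F] : CharP F p :=
  charP_of_injective_algebraMap (algebraMap Fq F).injective p

theorem hspan (h : IsCyclotomic Fq P F lam) (hP : P.Monic) (z : F) :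
    ∃ h : ℕ → F, z = ∑ i ∈ Finset.range p, h i ^ p * (algebraMap Fq[X] F X) ^ i := by
  have : CharP F p := charP_F Fq
  rw [← mem_Sp]
  set T := algebraMap Fq[X] F X with hT
  obtain ⟨n, hn⟩ := FiniteField.card Fq p
  have hq : Fintype.card Fq = Fintype.card Fq / p * p := by
    rw [Nat.div_mul_cancel]
    rw [hn.2]
    exact dvd_pow_self p n.2.ne'
  have h1 : ∀ c : Fq, algebraMap Fq F c ∈ Sp p T := by
    intro c
    have : algebraMap Fq F c = (algebraMap Fq F (c ^ (Fintype.card Fq / p))) ^ p := by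
      rw [← map_pow, ← pow_mul, ← hq, FiniteField.pow_card]
    rw [this]
    exact pow_mem_Sp _ _ _
  have h2 : ∀ a : Fq[X], algebraMap Fq[X] F a ∈ Sp p T := by
    intro a
    induction a using Polynomial.induction_on' with
    | add a b ha hb => rw [map_add]; exact add_mem ha hb
    | monomial n c =>
      rw [← C_mul_X_pow_eq_monomial, map_mul, map_pow]
      refine mul_mem ?_ (pow_mem (T_mem_Sp _ _) _)
      have : algebraMap Fq[X] F (C c) = algebraMap Fq F c := by
        rw [IsScalarTower.algebraMap_apply Fq Fq[X] F]; rfl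
      rw [this]
      exact h1 c
  have h3 : ∀ x : RatFunc Fq, algebraMap (RatFunc Fq) F x ∈ Sp p T := by
    intro x
    obtain ⟨a, b, -, rfl⟩ := IsFractionRing.div_surjective (A := Fq[X]) x
    rw [map_div₀, div_eq_mul_inv, ← IsScalarTower.algebraMap_apply,
      ← IsScalarTower.algebraMap_apply]
    exact mul_mem (h2 a) (inv_mem_Sp p T (h2 b))
  have h4 : ∀ y ∈ Mq Fq lam, y ∈ Sp p T := by
    intro y hy
    induction hy using Submodule.span_induction with
    | mem y hy =>
      obtain ⟨i, rfl⟩ := hy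
      change lam ^ (Fintype.card Fq ^ (i + 1)) ∈ _
      have : lam ^ (Fintype.card Fq ^ (i + 1)) =
          (lam ^ (Fintype.card Fq ^ i * (Fintype.card Fq / p))) ^ p := by
        rw [← pow_mul, mul_assoc, ← hq, pow_succ]
      rw [this]
      exact pow_mem_Sp _ _ _
    | zero => exact zero_mem _
    | add y z _ _ h1 h2 => exact add_mem h1 h2
    | smul a y _ h1 => rw [Algebra.smul_def]; exact mul_mem (h2 a) h1
  have h5 : lam ∈ Sp p T := by
    have h6 := h4 _ (P_lam_mem h)
    have h7 := mul_mem (inv_mem_Sp p T (h2 P)) h6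
    have hP0 : algebraMap Fq[X] F P ≠ 0 := by
      rw [Ne, map_eq_zero_iff _ (algebraMap_inj (Fq := Fq) (F := F))]
      exact hirr.out.ne_zero
    rwa [Algebra.smul_def, inv_mul_cancel_left₀ hP0] at h7
  have h6 : z ∈ Algebra.adjoin (RatFunc Fq) {lam} := by
    rw [adjoin_lam h hP]; trivial
  induction h6 using Algebra.adjoin_induction with
  | mem x hx => rw [Set.mem_singleton_iff.1 hx]; exact h5
  | algebraMap r => exact h3 r
  | add x y _ _ hx hy => exact add_mem hx hy
  | mul x y _ _ hx hy => exact mul_mem hx hy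

end carl

end Pool.Agent.R360.GK
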