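import Pool.Agent.R360.GK.Main
import Pool.Agent.R360.GK.Defs2

/-!
# Gekeler's conjecture: final form
-/

set_option autoImplicit false

open Polynomial

namespace Pool.Agent.R360.GKS

open Pool.Agent.R360.GK (IsCyclotomic PrimeDvd bernoulliCarlitz gekeler_core galHom galHom_spec
  Ll_injective Ll_mk)

/-- **Gekeler's conjecture** (the converse to the Okada-Goss theorem). -/
theorem gekeler (p : ℕ) [Fact p.Prime] (Fq : Type) [Field Fq] [Fintype Fq] [CharP Fq p]
    (P : Fq[X]) [Fact (Irreducible P)] (hP : P.Monic)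
    (F : Type) [Field F] [Algebra Fq[X] F] [Algebra (RatFunc Fq) F]
    [IsScalarTower Fq[X] (RatFunc Fq) F] (lam : F) (h : IsCyclotomic Fq P F lam) (k : ℕ)
    (hk0 : 0 < k) (hk : k < Fintype.card Fq ^ P.natDegree - 1) (hdvd : (Fintype.card Fq - 1) ∣ k)
    (hB : ∀ k' : ℕ, 0 < k' → k' < Fintype.card Fq ^ P.natDegree - 1 →
      (∃ m : ℕ, k' ≡ p ^ m * k [MOD Fintype.card Fq ^ P.natDegree - 1]) →
      PrimeDvd Fq P (bernoulliCarlitz Fq k')) :
    ∃ x ∈ component p P lam k, x ≠ 0 := by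
  let _ : Algebra Fq F := ((algebraMap Fq[X] F).comp C).toAlgebra
  have : IsScalarTower Fq Fq[X] F := IsScalarTower.of_algebraMap_eq fun _ => rfl
  have : CharP (AdjoinRoot P) p :=
    charP_of_injective_algebraMap (algebraMap Fq (AdjoinRoot P)).injective p
  obtain ⟨φ, hφ, hφp, hφσ⟩ := gekeler_core p Fq P hP F lam h k hk0 hk hdvd hB
  have hmem : ∀ c, (φ c : Cl (OF Fq F)) ∈ Prim p (Cl (OF Fq F)) := by
    intro c
    exact ⟨1, by rw [pow_one]; exact hφp c⟩
  let θ : AdjoinRoot P →+ ClP Fq F p :=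
    AddMonoidHom.mk' (fun c => (⟨φ c, hmem c⟩ : Prim p (Cl (OF Fq F))))
      (fun a b => Subtype.ext (map_add φ a b))
  have hθ : θ ≠ 0 := by
    intro h0
    apply hφ
    ext c
    have h1 : θ c = 0 := by rw [h0]; rfl
    exact congrArg (fun y : Prim p (Cl (OF Fq F)) => (y : Cl (OF Fq F))) h1
  obtain ⟨x, hx, hxσ⟩ := Pool.Agent.R664.GK.taskG p (AdjoinRoot P) (ClP Fq F p) θ hθ
  refine ⟨x, ?_, hx⟩
  intro σ a ha
  have h1 : galHom h hP σ = AdjoinRoot.mk P a := by
    apply Ll_injective h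
    rw [← galHom_spec h hP, Ll_mk, ha]
  have h2 := hxσ (clPAct p σ).toIntLinearMap (galHom h hP σ ^ k) (by
    intro c
    apply Subtype.ext
    exact hφσ σ c)
  rw [h1, map_pow] at h2
  exact h2

end Pool.Agent.R360.GKS
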