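import Pool.Agent.R360.GK.Torsion

/-!
# The Galois group of the Carlitz cyclotomic field
-/

set_option autoImplicit false
set_option linter.unusedSectionVars false

open Polynomial

namespace Pool.Agent.R360.GK

section gal

variable {Fq : Type} [Field Fq] [Fintype Fq] {p : ℕ} [hp : Fact p.Prime] [CharP Fq p]
  {P : Fq[X]} [hirr : Fact (Irreducible P)] {F : Type} [Field F] [Algebra Fq F] [Algebra Fq[X] F]
  [IsScalarTower Fq Fq[X] F] [Algebra (RatFunc Fq) F] [IsScalarTower Fq[X] (RatFunc Fq) F]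
  {lam : F}

omit [Fintype Fq] hp [CharP Fq p] [Algebra Fq F] [IsScalarTower Fq Fq[X] F] in
lemma algebraMap_inj : Function.Injective (algebraMap Fq[X] F) := by
  rw [IsScalarTower.algebraMap_eq Fq[X] (RatFunc Fq) F]
  exact (algebraMap (RatFunc Fq) F).injective.comp (IsFractionRing.injective Fq[X] (RatFunc Fq))

lemma map_carPoly : (carPoly Fq (RatFunc Fq) P).map (algebraMap (RatFunc Fq) F) =
    carPoly Fq F P := by
  have h := carlitz_map Fq (R := (RatFunc Fq)[X]) (S := F[X])
    (Polynomial.mapAlgHom (IsScalarTower.toAlgHom Fq[X] (RatFunc Fq) F)) P X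
  simpa [carPoly] using h

lemma isCoprime_of_isUnit_right' {R : Type} [CommRing R] (a b : R) (hb : IsUnit b) :
    IsCoprime a b := by
  obtain ⟨u, rfl⟩ := hb
  exact ⟨0, ↑u⁻¹, by simp⟩

lemma isIntegral_lam (h : IsCyclotomic Fq P F lam) (hP : P.Monic) :
    IsIntegral (RatFunc Fq) lam := by
  refine ⟨carPoly Fq (RatFunc Fq) P, (carPoly_monic Fq _ P hP).1, ?_⟩
  rw [← eval_map, map_carPoly, eval_carPoly]
  exact h.torsion

lemma adjoin_lam (h : IsCyclotomic Fq P F lam) (hP : P.Monic) :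
    Algebra.adjoin (RatFunc Fq) {lam} = ⊤ := by
  have h2 := IntermediateField.adjoin_simple_toSubalgebra_of_isAlgebraic
    (F := RatFunc Fq) (E := F) (α := lam) (isIntegral_lam h hP).isAlgebraic
  rw [← h2, h.gen]
  rfl

include p hp in
theorem isGalois_of (h : IsCyclotomic Fq P F lam) (hP : P.Monic) : IsGalois (RatFunc Fq) F ∧
    FiniteDimensional (RatFunc Fq) F := by
  classical
  have := Fintype.ofFinite (AdjoinRoot P)
  set f := carPoly Fq (RatFunc Fq) P with hf
  have hmap := map_carPoly (Fq := Fq) (P := P) (F := F)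
  have hsep : f.Separable := by
    rw [separable_def, hf, carPoly_derivative Fq (RatFunc Fq) p P]
    refine isCoprime_of_isUnit_right' _ _ ?_
    rw [isUnit_C]
    exact isUnit_iff_ne_zero.2 (by simpa using hirr.out.ne_zero)
  have hsplit : (f.map (algebraMap (RatFunc Fq) F)).Splits := by
    rw [hmap, carPoly_eq_prod h hP]
    exact Polynomial.Splits.prod fun z _ => Polynomial.Splits.X_sub_C _
  have hmem : lam ∈ f.rootSet F := by
    rw [mem_rootSet]
    refine ⟨(carPoly_monic Fq _ P hP).1.ne_zero, ?_⟩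
    rw [← eval_map_algebraMap, hmap, eval_carPoly]
    exact h.torsion
  have hadj : Algebra.adjoin (RatFunc Fq) (f.rootSet F) = ⊤ := by
    rw [eq_top_iff, ← adjoin_lam h hP]
    exact Algebra.adjoin_mono (by simpa using hmem)
  have : IsSplittingField (RatFunc Fq) F f := ⟨hsplit, hadj⟩
  exact ⟨IsGalois.of_separable_splitting_field hsep, IsSplittingField.finiteDimensional F f⟩

/-- the class `a mod P` with `σ lam = C_a(lam)` -/
theorem exists_gal (h : IsCyclotomic Fq P F lam) (hP : P.Monic) (σ : F ≃ₐ[RatFunc Fq] F) :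
    ∃ z : AdjoinRoot P, σ lam = Ll h z := by
  obtain ⟨s, hs1, hs2, -⟩ := roots_carPoly h hP
  have : σ lam ∈ (carPoly Fq F P).roots := by
    rw [mem_roots (carPoly_monic Fq F P hP).1.ne_zero, IsRoot.def, eval_carPoly]
    have h1 := carlitz_map Fq (σ.toAlgHom.restrictScalars Fq[X]) P lam
    rw [h.torsion, map_zero] at h1
    exact h1.symm
  rw [hs1] at this
  obtain ⟨z, hz⟩ := (hs2 _).1 this
  exact ⟨z, hz.symm⟩

lemma sigma_L (h : IsCyclotomic Fq P F lam) (σ : F ≃ₐ[RatFunc Fq] F) (z w : AdjoinRoot P)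
    (hz : σ lam = Ll h z) : σ (Ll h w) = Ll h (z * w) := by
  obtain ⟨a, rfl⟩ := AdjoinRoot.mk_surjective z
  obtain ⟨b, rfl⟩ := AdjoinRoot.mk_surjective w
  have h1 := carlitz_map Fq (σ.toAlgHom.restrictScalars Fq[X]) b lam
  rw [← map_mul, Ll_mk, Ll_mk, mul_comm, carlitz_mul]
  rw [Ll_mk] at hz
  rw [← hz]
  exact h1

lemma Ll_one (h : IsCyclotomic Fq P F lam) : Ll h 1 = lam := by
  rw [← map_one (AdjoinRoot.mk P), Ll_mk, carlitz_one]

/-- the homomorphism `σ ↦ a mod P` -/
noncomputable def galHom (h : IsCyclotomic Fq P F lam) (hP : P.Monic) :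
    (F ≃ₐ[RatFunc Fq] F) →* AdjoinRoot P where
  toFun σ := (exists_gal h hP σ).choose
  map_one' := by
    apply Ll_injective h
    rw [← (exists_gal h hP 1).choose_spec, Ll_one]
    rfl
  map_mul' σ τ := by
    apply Ll_injective h
    rw [← (exists_gal h hP (σ * τ)).choose_spec,
      ← sigma_L h σ _ _ (exists_gal h hP σ).choose_spec, ← (exists_gal h hP τ).choose_spec]
    rfl

lemma galHom_spec (h : IsCyclotomic Fq P F lam) (hP : P.Monic) (σ : F ≃ₐ[RatFunc Fq] F) :
    σ lam = Ll h (galHom h hP σ) := (exists_gal h hP σ).choose_spec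

/-- the homomorphism to the units -/
noncomputable def galUnits (h : IsCyclotomic Fq P F lam) (hP : P.Monic) :
    (F ≃ₐ[RatFunc Fq] F) →* (AdjoinRoot P)ˣ := (galHom h hP).toHomUnits

lemma galUnits_spec (h : IsCyclotomic Fq P F lam) (hP : P.Monic) (σ : F ≃ₐ[RatFunc Fq] F) :
    ((galUnits h hP σ : (AdjoinRoot P)ˣ) : AdjoinRoot P) = galHom h hP σ := rfl

lemma galUnits_injective (h : IsCyclotomic Fq P F lam) (hP : P.Monic) :
    Function.Injective (galUnits h hP) := by
  intro σ τ hst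
  have h1 : galHom h hP σ = galHom h hP τ := congrArg Units.val hst
  have h2 : σ lam = τ lam := by rw [galHom_spec h hP, galHom_spec h hP, h1]
  have h3 : (σ : F →ₐ[RatFunc Fq] F) = τ := by
    refine AlgHom.ext_of_adjoin_eq_top (adjoin_lam h hP) ?_
    intro x hx
    rw [Set.mem_singleton_iff.1 hx]
    exact h2
  ext x
  exact DFunLike.congr_fun h3 x

include hp in
lemma card_coprime (h : IsCyclotomic Fq P F lam) (hP : P.Monic) :
    (Nat.card (F ≃ₐ[RatFunc Fq] F)).Coprime p := by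
  have h1 : Nat.card (F ≃ₐ[RatFunc Fq] F) ∣ Nat.card (AdjoinRoot P)ˣ :=
    Subgroup.card_dvd_of_injective _ (galUnits_injective h hP)
  have h2 : Nat.card (AdjoinRoot P)ˣ = Fintype.card Fq ^ P.natDegree - 1 := by
    rw [Nat.card_units, card_κ]
  rw [h2] at h1
  refine Nat.Coprime.coprime_dvd_left h1 ?_
  rw [Nat.coprime_comm, hp.out.coprime_iff_not_dvd]
  have h3 : p ∣ Fintype.card Fq ^ P.natDegree := by
    obtain ⟨n, hn⟩ := FiniteField.card Fq p
    rw [hn.2]
    exact dvd_pow (dvd_pow_self p n.2.ne') hirr.out.natDegree_pos.ne'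
  intro h4
  have h5 : 0 < Fintype.card Fq ^ P.natDegree := pow_pos Fintype.card_pos _
  have h6 := (Nat.dvd_sub_iff_right (Nat.succ_le_of_lt h5) h3).1 h4
  exact hp.out.one_lt.ne' (Nat.dvd_one.1 h6)

end gal

end Pool.Agent.R360.GK
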