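import Pool.Agent.R360.GK.Defs

/-!
# Tasks for the proof of Gekeler's conjecture

See notes.md in this folder.
-/

set_option autoImplicit false

open Polynomial
open scoped TensorProduct

namespace Pool.Agent.R360.GK

/-! ## Task A: the algebraic identity -/

/-- `U f = ∑ f_{q n + q - 1} X ^ n` (`q ≥ 1`) -/
noncomputable def U (q : ℕ) {κ : Type} [Field κ] (f : κ[X]) : κ[X] := (contract q (X * f)).divX

/-- `D_j(θ) = ∏_{i < j} (θ ^ (q ^ j) - θ ^ (q ^ i))` -/
noncomputable def dth (q : ℕ) {κ : Type} [Field κ] (θ : κ) (j : ℕ) : κ :=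
  ∏ i ∈ Finset.range j, (θ ^ q ^ j - θ ^ q ^ i)

/-- the truncated series `e(z)/z = ∑_{j < d} z ^ (q ^ j - 1) / D_j(θ)` -/
noncomputable def eser (q d : ℕ) {κ : Type} [Field κ] (θ : κ) : PowerSeries κ :=
  ∑ j ∈ Finset.range d, PowerSeries.C (dth q θ j)⁻¹ * PowerSeries.X ^ (q ^ j - 1)

/-- `Q_k = ∏_{j < d} (X - θ ^ (q ^ j)) ^ (q - 1 - k_j)`, where `k_j` is the `j`-th digit of `k` -/
noncomputable def Qk (q d k : ℕ) {κ : Type} [Field κ] (θ : κ) : κ[X] :=
  ∏ j ∈ Finset.range d, (X - C (θ ^ q ^ j)) ^ (q - 1 - k / q ^ j % q)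

/-- **Task A.** If the (truncated) Bernoulli-Carlitz numbers of index `q ^ j k mod (q ^ d - 1)` all
vanish, then the operator `f ↦ U (Q_k f)` has two linearly independent fixed vectors. -/
def TaskA : Prop :=
  ∀ (p q s d : ℕ), p.Prime → q = p ^ s → 0 < s → 0 < d →
    ∀ (κ : Type) [Field κ] [CharP κ p] (θ : κ), θ ^ q ^ d = θ →
      (∀ i, 0 < i → i < d → θ ^ q ^ i ≠ θ) → ∀ k : ℕ, 0 < k → k < q ^ d - 1 → (q - 1) ∣ k →
      (∀ j < d, PowerSeries.coeff ((q ^ j * k) % (q ^ d - 1)) (eser q d θ)⁻¹ = 0) →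
      ∃ f g : κ[X], LinearIndependent κ ![f, g] ∧ U q (Qk q d k θ * f) = f ∧
        U q (Qk q d k θ * g) = g

/-! ## Task F: the character components of the unit group have rank at most one -/

/-- **Task F.** `E` = units (written additively), `v` = valuation at an infinite place,
`dl` = logarithmic derivative, `G` = Galois group. -/
def TaskF : Prop :=
  ∀ (p : ℕ), p.Prime → ∀ (κ : Type) [Field κ] [Finite κ] [CharP κ p] (G : Type) [Group G]
    [Finite G], (Nat.card G).Coprime p →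
    ∀ (E : Type) [AddCommGroup E] [DistribMulAction G E] (v : E →+ ℤ),
      (∀ e : E, (∀ σ : G, v (σ • e) = 0) → ∃ m : ℕ, m.Coprime p ∧ m • e = 0) →
    ∀ (F : Type) [AddCommGroup F] [DistribMulAction G F], (∀ x : F, p • x = 0) →
    ∀ (dl : E →+ F), (∀ (σ : G) (e : E), dl (σ • e) = σ • dl e) →
    ∀ (χ : G →* κˣ) (z₁ z₂ : κ →+ F), (∀ c, ∃ e, dl e = z₁ c) → (∀ c, ∃ e, dl e = z₂ c) →
      (∀ (σ : G) (c : κ), σ • z₁ c = z₁ (χ σ * c)) → (∀ (σ : G) (c : κ), σ • z₂ c = z₂ (χ σ * c)) →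
      ∃ b₁ b₂ : κ, (b₁ ≠ 0 ∨ b₂ ≠ 0) ∧ ∀ c, z₁ (b₁ * c) + z₂ (b₂ * c) = 0

/-! ## Task G: from an equivariant map `κ → M` to an element of `W(κ) ⊗ M` -/

/-- **Task G.** `M` = the `p`-primary part of the class group. -/
def TaskG : Prop :=
  ∀ (p : ℕ) [Fact p.Prime] (κ : Type) [Field κ] [Finite κ] [CharP κ p] (M : Type)
    [AddCommGroup M] (θ : κ →+ M), θ ≠ 0 →
    ∃ x : WittVector p κ ⊗[ℤ] M, x ≠ 0 ∧ ∀ (σ : M →ₗ[ℤ] M) (c : κ), (∀ b, σ (θ b) = θ (c * b)) →
      LinearMap.lTensor (WittVector p κ) σ x = WittVector.teichmuller p c • x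

/-! ## Task E: regular logarithmic differentials come from `p`-th powers of ideals -/

/-- **Task E.** `D` is the derivation `d/dT`; if `z = D α / α` has `P z ∈ lam A[lam]`, then the
fractional ideal of `α` is a `p`-th power. -/
def TaskE : Prop :=
  ∀ (Fq : Type) [Field Fq] [Fintype Fq] (p : ℕ) [Fact p.Prime] [CharP Fq p] (P : Fq[X])
    [Fact (Irreducible P)], P.Monic →
    ∀ (F : Type) [Field F] [Algebra Fq[X] F] [Algebra (RatFunc Fq) F]
      [IsScalarTower Fq[X] (RatFunc Fq) F] (lam : F), IsCyclotomic Fq P F lam →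
    ∀ (D : Derivation ℤ F F), D (algebraMap Fq[X] F X) = 1 →
      (∀ z : F, ∃ h : ℕ → F, z = ∑ i ∈ Finset.range p, h i ^ p * (algebraMap Fq[X] F X) ^ i) →
    ∀ (z α : F), α ≠ 0 → D α = z * α →
      (∃ r ∈ Algebra.adjoin Fq[X] {lam}, z * algebraMap Fq[X] F P = lam * r) →
      ∃ s : F, s ≠ 0 ∧ ∃ (β : integralClosure Fq[X] F) (J : Ideal (integralClosure Fq[X] F)),
        (β : F) = α * s ^ p ∧ Ideal.span {β} = J ^ p

/-! ## Task I: the valuations at the infinite places -/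

/-- **Task I.** In a finite Galois extension of `Fq(T)` there is a place `v` over `∞` such that
an integral element with `v (σ x) = 0` for all `σ` is a root of unity of order prime to `p`. -/
def TaskI : Prop :=
  ∀ (Fq : Type) [Field Fq] [Fintype Fq] (p : ℕ) [Fact p.Prime] [CharP Fq p]
    (F : Type) [Field F] [Algebra Fq[X] F] [Algebra (RatFunc Fq) F]
    [IsScalarTower Fq[X] (RatFunc Fq) F] [FiniteDimensional (RatFunc Fq) F]
    [IsGalois (RatFunc Fq) F],
    ∃ v : Fˣ →* Multiplicative ℤ, ∀ x : Fˣ, IsIntegral Fq[X] (x : F) →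
      (∀ σ : F ≃ₐ[RatFunc Fq] F, v (Units.map (σ : F →* F) x) = 1) →
      ∃ m : ℕ, m.Coprime p ∧ x ^ m = 1

end Pool.Agent.R360.GK
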