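import Pool.Agent.R360.GK.Der
import Pool.Agent.R360.GK.Tasks

/-!
# The tensor product `F ⊗ κ`: Gauss-Thakur sums and Cartier-fixed elements
-/

set_option autoImplicit false
set_option linter.unusedSectionVars false

open Polynomial
open scoped TensorProduct

namespace Pool.Agent.R360.GK

section H

variable {Fq : Type} [Field Fq] [Fintype Fq] {F : Type} [Field F] [Algebra Fq F]
  {κ : Type} [Field κ] [Algebra Fq κ] [Fintype κ] [DecidableEq κ]

/-- the Gauss-Thakur sum `g_j = -∑ L(z) ⊗ z^(-q^j)` -/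
noncomputable def gj (L : κ →ₗ[Fq] F) (j : ℕ) : F ⊗[Fq] κ :=
  - ∑ z : κˣ, L (z : κ) ⊗ₜ[Fq] (((z⁻¹ : κˣ) : κ) ^ (Fintype.card Fq ^ j))

/-- `Frob_q ⊗ 1` -/
noncomputable def Fr (Fq F κ : Type) [Field Fq] [Fintype Fq] [Field F] [Algebra Fq F] [Field κ]
    [Algebra Fq κ] : F ⊗[Fq] κ →ₐ[Fq] F ⊗[Fq] κ :=
  Algebra.TensorProduct.map (FiniteField.frobeniusAlgHom Fq F) (AlgHom.id Fq κ)

lemma Fr_tmul (a : F) (c : κ) : Fr Fq F κ (a ⊗ₜ c) = (a ^ Fintype.card Fq) ⊗ₜ c := rfl

lemma sum_L (L : κ →ₗ[Fq] F) (w : κ) (m : ℕ) (hm : m ≠ 0) :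
    ∑ z : κˣ, L (w * z) ⊗ₜ[Fq] (((z⁻¹ : κˣ) : κ) ^ m) =
      (1 ⊗ₜ (w ^ m)) * ∑ z : κˣ, L (z : κ) ⊗ₜ[Fq] (((z⁻¹ : κˣ) : κ) ^ m) := by
  rcases eq_or_ne w 0 with rfl | hw
  · rw [zero_pow hm, TensorProduct.tmul_zero, zero_mul]
    refine Finset.sum_eq_zero fun z _ => ?_
    rw [zero_mul, map_zero, TensorProduct.zero_tmul]
  · obtain ⟨u, rfl⟩ : ∃ u : κˣ, (u : κ) = w := ⟨Units.mk0 w hw, rfl⟩
    rw [Finset.mul_sum, ← Equiv.sum_comp (Equiv.mulLeft u)
      (fun z : κˣ => (1 ⊗ₜ ((u : κ) ^ m)) * (L (z : κ) ⊗ₜ[Fq] (((z⁻¹ : κˣ) : κ) ^ m)))]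
    refine Finset.sum_congr rfl fun z _ => ?_
    have e : ((u : κ) * (((Equiv.mulLeft u z)⁻¹ : κˣ) : κ)) = ((z⁻¹ : κˣ) : κ) := by
      rw [← Units.val_mul]
      congr 1
      simp
    rw [Algebra.TensorProduct.tmul_mul_tmul, one_mul, ← mul_pow, e]
    simp

lemma map_gj (σ : F →ₐ[Fq] F) (L : κ →ₗ[Fq] F) (w : κ) (hσ : ∀ z, σ (L z) = L (w * z)) (j : ℕ) :
    Algebra.TensorProduct.map σ (AlgHom.id Fq κ) (gj L j) =
      (1 ⊗ₜ (w ^ (Fintype.card Fq ^ j))) * gj L j := by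
  rw [gj, map_neg, map_sum, mul_neg, ← sum_L L w _ (pow_ne_zero _ Fintype.card_ne_zero)]
  congr 1
  refine Finset.sum_congr rfl fun z _ => ?_
  rw [Algebra.TensorProduct.map_tmul, hσ]
  rfl

lemma Fr_gj (L : κ →ₗ[Fq] F) (T : F) (θ : κ)
    (hL : ∀ z, L (θ * z) = T * L z + L z ^ Fintype.card Fq) (j : ℕ) :
    Fr Fq F κ (gj L j) = (1 ⊗ₜ (θ ^ (Fintype.card Fq ^ j)) - T ⊗ₜ 1) * gj L j := by
  have h1 : ∀ z, L z ^ Fintype.card Fq = L (θ * z) - T * L z := fun z => by rw [hL]; ring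
  rw [gj, map_neg, map_sum, mul_neg, sub_mul,
    ← sum_L L θ _ (pow_ne_zero _ Fintype.card_ne_zero), Finset.mul_sum, ← Finset.sum_sub_distrib]
  congr 1
  refine Finset.sum_congr rfl fun z _ => ?_
  rw [Fr_tmul, h1, TensorProduct.sub_tmul, Algebra.TensorProduct.tmul_mul_tmul, one_mul]

lemma pow_gj (L : κ →ₗ[Fq] F) (j : ℕ) :
    gj L j ^ Fintype.card Fq = Fr Fq F κ (gj L (j + 1)) := by
  have h : gj L j ^ Fintype.card Fq = FiniteField.frobeniusAlgHom Fq (F ⊗[Fq] κ) (gj L j) := rfl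
  rw [h, gj, gj, map_neg, map_sum, map_neg, map_sum]
  congr 1
  refine Finset.sum_congr rfl fun z _ => ?_
  change (L (z : κ) ⊗ₜ[Fq] (((z⁻¹ : κˣ) : κ) ^ _)) ^ Fintype.card Fq = _
  rw [Algebra.TensorProduct.tmul_pow, Fr_tmul, ← pow_mul, ← pow_succ]

lemma sum_gj (L : κ →ₗ[Fq] F) (d : ℕ) (hd : Fintype.card κ = Fintype.card Fq ^ d)
    (hd0 : 0 < d) :
    ∑ j ∈ Finset.range d, gj L j = L 1 ⊗ₜ 1 := by
  have hq : 1 < Fintype.card Fq := Fintype.one_lt_card
  have hfin : Module.Finite Fq κ := Module.Finite.of_finite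
  have hrank : Module.finrank Fq κ = d := by
    have h1 := Module.card_eq_pow_finrank (K := Fq) (V := κ)
    rw [hd] at h1
    exact (Nat.pow_right_injective hq h1).symm
  have htr : ∀ x : κ, algebraMap Fq κ (Algebra.trace Fq κ x) =
      ∑ j ∈ Finset.range d, x ^ (Fintype.card Fq ^ j) := by
    intro x
    have := FiniteField.algebraMap_trace_eq_sum_pow Fq κ x
    rw [this, hrank, Nat.card_eq_fintype_card]
  have h1 : ∑ z : κˣ, Algebra.trace Fq κ ((z⁻¹ : κˣ) : κ) • (z : κ) = -1 := by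
    have e : ∀ z : κˣ, Algebra.trace Fq κ ((z⁻¹ : κˣ) : κ) • (z : κ) =
        ∑ j ∈ Finset.range d, (((z⁻¹ : κˣ) : κ) ^ (Fintype.card Fq ^ j - 1)) := by
      intro z
      rw [Algebra.smul_def, htr, Finset.sum_mul]
      refine Finset.sum_congr rfl fun j _ => ?_
      have h2 : 0 < Fintype.card Fq ^ j := pow_pos (by omega) _
      obtain ⟨m, hm⟩ : ∃ m, Fintype.card Fq ^ j = m + 1 := ⟨Fintype.card Fq ^ j - 1, by omega⟩
      rw [hm, Nat.add_sub_cancel, pow_succ, mul_assoc, Units.inv_mul, mul_one]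
    rw [Finset.sum_congr rfl fun z _ => e z, Finset.sum_comm, Finset.sum_eq_single 0]
    · have : ∑ z : κˣ, (((z⁻¹ : κˣ) : κ) ^ (Fintype.card Fq ^ 0 - 1)) = (Fintype.card κˣ : κ) := by
        simp
      rw [this, Fintype.card_units, Nat.cast_sub (by have := Fintype.card_pos (α := κ); omega)]
      rw [FiniteField.cast_card_eq_zero]
      simp
    · intro j hj hj0
      have hj' := Finset.mem_range.1 hj
      have h3 := Equiv.sum_comp (Equiv.inv κˣ) (fun z : κˣ => ((z : κ) ^ (Fintype.card Fq ^ j - 1)))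
      change ∑ z : κˣ, (((z⁻¹ : κˣ) : κ) ^ (Fintype.card Fq ^ j - 1)) = _ at h3
      rw [h3, FiniteField.sum_pow_units, if_neg]
      intro hdvd
      have h4 : 1 < Fintype.card Fq ^ j := Nat.one_lt_pow hj0 hq
      have h5 : Fintype.card Fq ^ j < Fintype.card Fq ^ d := Nat.pow_lt_pow_right hq hj'
      rw [hd] at hdvd
      have := Nat.le_of_dvd (by omega) hdvd
      omega
    · intro h; exact absurd (Finset.mem_range.2 hd0) h
  have h2 : ∀ z : κˣ, ∑ j ∈ Finset.range d, L (z : κ) ⊗ₜ[Fq] (((z⁻¹ : κˣ) : κ) ^ (Fintype.card Fq ^ j)) =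
      (L (Algebra.trace Fq κ ((z⁻¹ : κˣ) : κ) • (z : κ))) ⊗ₜ[Fq] 1 := by
    intro z
    rw [← TensorProduct.tmul_sum, ← htr, map_smul, TensorProduct.smul_tmul,
      Algebra.algebraMap_eq_smul_one]
  simp only [gj]
  rw [Finset.sum_neg_distrib, Finset.sum_comm, Finset.sum_congr rfl fun z _ => h2 z,
    ← TensorProduct.sum_tmul, ← map_sum, h1, map_neg, TensorProduct.neg_tmul, neg_neg]

/-- `id ⊗ Tr` -/
noncomputable def trm (Fq F κ : Type) [Field Fq] [Field F] [Algebra Fq F] [Field κ]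
    [Algebra Fq κ] : F ⊗[Fq] κ →ₗ[Fq] F :=
  (TensorProduct.rid Fq F).toLinearMap ∘ₗ LinearMap.lTensor F (Algebra.trace Fq κ)

lemma trm_tmul (a : F) (c : κ) : trm Fq F κ (a ⊗ₜ c) = Algebra.trace Fq κ c • a := by
  simp [trm]

lemma trm_mul_left (a : F) (x : F ⊗[Fq] κ) : trm Fq F κ ((a ⊗ₜ 1) * x) = a * trm Fq F κ x := by
  induction x using TensorProduct.induction_on with
  | zero => simp
  | tmul b c =>
    rw [Algebra.TensorProduct.tmul_mul_tmul, trm_tmul, trm_tmul, one_mul, mul_smul_comm]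
  | add x y hx hy => rw [mul_add, map_add, map_add, hx, hy, mul_add]

lemma trm_map (σ : F →ₗ[Fq] F) (x : F ⊗[Fq] κ) :
    trm Fq F κ (LinearMap.rTensor κ σ x) = σ (trm Fq F κ x) := by
  induction x using TensorProduct.induction_on with
  | zero => simp
  | tmul b c => rw [LinearMap.rTensor_tmul, trm_tmul, trm_tmul, map_smul]
  | add x y hx hy => rw [map_add, map_add, map_add, map_add, hx, hy]

lemma eq_zero_of_trm (x : F ⊗[Fq] κ) (h : ∀ c : κ, trm Fq F κ ((1 ⊗ₜ c) * x) = 0) : x = 0 := by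
  classical
  have hfin : Module.Finite Fq κ := Module.Finite.of_finite
  let b := Module.finBasis Fq κ
  let B := Algebra.traceForm Fq κ
  have hB : B.Nondegenerate := traceForm_nondegenerate Fq κ
  let b' := B.dualBasis hB b
  have key : ∀ x : F ⊗[Fq] κ, x = ∑ i, trm Fq F κ ((1 ⊗ₜ (b' i)) * x) ⊗ₜ[Fq] b i := by
    intro x
    induction x using TensorProduct.induction_on with
    | zero => simp
    | tmul a c =>
      have e : ∀ i, trm Fq F κ ((1 ⊗ₜ (b' i)) * (a ⊗ₜ c)) ⊗ₜ[Fq] b i =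
          a ⊗ₜ (B (b' i) c • b i) := by
        intro i
        rw [Algebra.TensorProduct.tmul_mul_tmul, trm_tmul, one_mul, TensorProduct.smul_tmul]
        rfl
      rw [Finset.sum_congr rfl fun i _ => e i, ← TensorProduct.tmul_sum]
      congr 1
      have h2 : ∀ i, B (b' i) c = b.repr c i := by
        intro i
        conv_lhs => rw [← b.sum_repr c]
        rw [map_sum, Finset.sum_eq_single i]
        · rw [map_smul, LinearMap.BilinForm.apply_dualBasis_left]
          simp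
        · intro j _ hj
          rw [map_smul, LinearMap.BilinForm.apply_dualBasis_left, if_neg hj]
          simp
        · intro h; exact absurd (Finset.mem_univ _) h
      simp only [h2]
      exact (b.sum_repr c).symm
    | add x y hx hy =>
      conv_lhs => rw [hx, hy]
      rw [← Finset.sum_add_distrib]
      refine Finset.sum_congr rfl fun i _ => ?_
      rw [mul_add, map_add, TensorProduct.add_tmul]
  rw [key x]
  refine Finset.sum_eq_zero fun i _ => ?_
  rw [h, TensorProduct.zero_tmul]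

/-- evaluation `X ↦ T ⊗ 1` -/
noncomputable def ev (Fq : Type) {F κ : Type} [Field Fq] [Field F] [Algebra Fq F] [Field κ]
    [Algebra Fq κ] (T : F) : κ[X] →+* F ⊗[Fq] κ :=
  Polynomial.eval₂RingHom (Algebra.TensorProduct.includeRight : κ →ₐ[Fq] F ⊗[Fq] κ).toRingHom
    (T ⊗ₜ 1)

lemma ev_C (T : F) (c : κ) : ev Fq T (C c) = 1 ⊗ₜ c := by
  simp [ev]

lemma ev_X (T : F) : ev Fq T (X : κ[X]) = T ⊗ₜ 1 := by
  simp [ev]

lemma ev_monomial (T : F) (i : ℕ) (c : κ) : ev Fq T (monomial i c) = (T ^ i) ⊗ₜ c := by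
  rw [← C_mul_X_pow_eq_monomial, map_mul, map_pow, ev_C, ev_X, Algebra.TensorProduct.tmul_pow,
    Algebra.TensorProduct.tmul_mul_tmul]
  simp

lemma ev_map (T : F) (a : Fq[X]) : ev Fq T (a.map (algebraMap Fq κ)) = (aeval T a) ⊗ₜ 1 := by
  induction a using Polynomial.induction_on' with
  | add a b ha hb => rw [Polynomial.map_add, map_add, ha, hb, map_add, TensorProduct.add_tmul]
  | monomial n c =>
    rw [Polynomial.map_monomial, ev_monomial, aeval_monomial, Algebra.algebraMap_eq_smul_one,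
      ← TensorProduct.smul_tmul, Algebra.smul_def]

lemma ev_injective (T : F) (hT : Transcendental Fq T) : Function.Injective (ev Fq (κ := κ) T) := by
  rw [injective_iff_map_eq_zero]
  intro f hf
  have hfin : Module.Finite Fq κ := Module.Finite.of_finite
  have h1 : ∀ c : κ, trm Fq F κ ((1 ⊗ₜ c) * ev Fq T f) =
      aeval T (∑ i ∈ f.support, monomial i (Algebra.trace Fq κ (c * f.coeff i))) := by
    intro c
    conv_lhs => rw [f.as_sum_support]
    rw [map_sum, map_sum, Finset.mul_sum, map_sum]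
    refine Finset.sum_congr rfl fun i _ => ?_
    rw [ev_monomial, Algebra.TensorProduct.tmul_mul_tmul, trm_tmul, one_mul, aeval_monomial,
      Algebra.smul_def]
  have h2 : ∀ (c : κ) (i : ℕ), Algebra.trace Fq κ (c * f.coeff i) = 0 := by
    intro c i
    have h3 := h1 c
    rw [hf, mul_zero, map_zero] at h3
    have h4 := (transcendental_iff.1 hT) _ h3.symm
    have h5 := congrArg (fun g => coeff g i) h4
    simp only [finsetSum_coeff, coeff_monomial, coeff_zero] at h5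
    rw [Finset.sum_ite_eq' f.support i] at h5
    split_ifs at h5 with h6
    · exact h5
    · rw [notMem_support_iff.1 h6, mul_zero, map_zero]
  ext i
  rw [coeff_zero]
  have hB : (Algebra.traceForm Fq κ).Nondegenerate := traceForm_nondegenerate Fq κ
  have := hB.2 (f.coeff i) (fun c => h2 c i)
  exact this

lemma coeff_U (q : ℕ) (hq : 0 < q) (f : κ[X]) (n : ℕ) :
    (U q f).coeff n = f.coeff (q * n + q - 1) := by
  rw [U, coeff_divX, coeff_contract hq.ne']
  have : (n + 1) * q = (q * n + q - 1) + 1 := by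
    have : (n + 1) * q = q * n + q := by ring
    omega
  rw [this, coeff_X_mul]

lemma U_add (q : ℕ) (hq : 0 < q) (f g : κ[X]) : U q (f + g) = U q f + U q g := by
  ext n
  simp [coeff_U q hq]

lemma U_C_mul (q : ℕ) (hq : 0 < q) (c : κ) (f : κ[X]) : U q (C c * f) = C c * U q f := by
  ext n
  simp [coeff_U q hq]

lemma U_monomial (q : ℕ) (hq : 0 < q) (i : ℕ) (c : κ) :
    U q (monomial i c) = if q ∣ i + 1 then monomial ((i + 1) / q - 1) c else 0 := by
  ext n
  rw [coeff_U q hq, coeff_monomial]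
  split_ifs with h1 h2 h2
  · have e : (i + 1) / q = n + 1 := by
      have : i + 1 = q * (n + 1) := by rw [mul_add]; omega
      rw [this, Nat.mul_div_cancel_left _ hq]
    rw [e, Nat.add_sub_cancel, coeff_monomial, if_pos rfl]
  · exact absurd ⟨n + 1, by rw [mul_add]; omega⟩ h2
  · obtain ⟨m, hm⟩ := h2
    rw [hm, Nat.mul_div_cancel_left _ hq, coeff_monomial, if_neg]
    intro h3
    have hm0 : 0 < m := by
      rcases Nat.eq_zero_or_pos m with rfl | h0
      · omega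
      · exact h0
    obtain ⟨m', rfl⟩ : ∃ m', m = m' + 1 := ⟨m - 1, by omega⟩
    rw [mul_add] at hm
    have : m' = n := by omega
    subst this
    omega
  · rw [coeff_zero]

lemma rT_Fr_mul (Cq : F →ₗ[Fq] F) (h : ∀ a b, Cq (a ^ Fintype.card Fq * b) = a * Cq b)
    (y x : F ⊗[Fq] κ) :
    LinearMap.rTensor κ Cq (Fr Fq F κ y * x) = y * LinearMap.rTensor κ Cq x := by
  induction y using TensorProduct.induction_on with
  | zero => simp
  | tmul a c =>
    induction x using TensorProduct.induction_on with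
    | zero => simp
    | tmul b e =>
      rw [Fr_tmul, Algebra.TensorProduct.tmul_mul_tmul, LinearMap.rTensor_tmul, h,
        LinearMap.rTensor_tmul, Algebra.TensorProduct.tmul_mul_tmul]
    | add x y hx hy => rw [mul_add, map_add, hx, hy, map_add, mul_add]
  | add u v hu hv => rw [map_add, add_mul, map_add, hu, hv, add_mul]

lemma rT_ev (Cq : F →ₗ[Fq] F) (T : F)
    (h : ∀ i, Cq (T ^ i) = if Fintype.card Fq ∣ i + 1 then T ^ ((i + 1) / Fintype.card Fq - 1)
      else 0) (f : κ[X]) :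
    LinearMap.rTensor κ Cq (ev Fq T f) = ev Fq T (U (Fintype.card Fq) f) := by
  induction f using Polynomial.induction_on' with
  | add f g hf hg => rw [map_add, map_add, hf, hg, U_add _ Fintype.card_pos, map_add]
  | monomial n c =>
    rw [ev_monomial, LinearMap.rTensor_tmul, h, U_monomial _ Fintype.card_pos]
    split_ifs with h1
    · rw [ev_monomial]
    · rw [map_zero, TensorProduct.zero_tmul]

lemma isUnit_sub (T : F) (hT : Transcendental Fq T) (t : κ) :
    IsUnit ((1 : F) ⊗ₜ[Fq] t - T ⊗ₜ[Fq] (1 : κ)) := by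
  have hint : IsIntegral Fq t := by
    have hfin : Module.Finite Fq κ := Module.Finite.of_finite
    exact Algebra.IsIntegral.isIntegral t
  set m := minpoly Fq t with hm
  have h1 : (X - C t) ∣ m.map (algebraMap Fq κ) := by
    rw [dvd_iff_isRoot, IsRoot.def, eval_map_algebraMap]
    exact minpoly.aeval _ _
  obtain ⟨r, hr⟩ := h1
  have h2 := congrArg (ev Fq T) hr
  rw [ev_map, map_mul, map_sub, ev_X, ev_C] at h2
  have h3 : aeval T m ≠ 0 := fun h => minpoly.ne_zero hint ((transcendental_iff.1 hT) _ h)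
  have h4 : IsUnit ((aeval T m) ⊗ₜ[Fq] (1 : κ)) :=
    (isUnit_iff_ne_zero.2 h3).map (Algebra.TensorProduct.includeLeft : F →ₐ[Fq] F ⊗[Fq] κ)
  rw [h2] at h4
  have h5 := (isUnit_of_mul_isUnit_left h4).neg
  rwa [neg_sub] at h5

lemma isUnit_gj (L : κ →ₗ[Fq] F) (T : F) (hT : Transcendental Fq T) (θ : κ)
    (hL : ∀ z, L (θ * z) = T * L z + L z ^ Fintype.card Fq) (hL1 : L 1 ≠ 0) (d : ℕ)
    (hd : Fintype.card κ = Fintype.card Fq ^ d) (hd0 : 0 < d) (j : ℕ) : IsUnit (gj L j) := by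
  have h1 : ∀ j, gj L j ^ Fintype.card Fq =
      (1 ⊗ₜ (θ ^ (Fintype.card Fq ^ (j + 1))) - T ⊗ₜ 1) * gj L (j + 1) := by
    intro j
    rw [pow_gj, Fr_gj L T θ hL]
  have h2 : ∀ j, gj L 0 ∣ gj L j := by
    intro j
    induction j with
    | zero => exact dvd_rfl
    | succ j ih =>
      have h3 : gj L 0 ∣ (1 ⊗ₜ (θ ^ (Fintype.card Fq ^ (j + 1))) - T ⊗ₜ 1) * gj L (j + 1) := by
        rw [← h1]
        exact dvd_pow ih Fintype.card_ne_zero
      exact (isUnit_sub T hT _).dvd_mul_left.1 h3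
  have h0 : IsUnit (gj L 0) := by
    have h3 : gj L 0 ∣ L 1 ⊗ₜ 1 := by
      rw [← sum_gj L d hd hd0]
      exact Finset.dvd_sum fun j _ => h2 j
    exact isUnit_of_dvd_unit h3
      ((isUnit_iff_ne_zero.2 hL1).map (Algebra.TensorProduct.includeLeft : F →ₐ[Fq] F ⊗[Fq] κ))
  induction j with
  | zero => exact h0
  | succ j ih =>
    have h3 := ih.pow (Fintype.card Fq)
    rw [h1] at h3
    exact isUnit_of_mul_isUnit_right h3

end H

end Pool.Agent.R360.GK
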