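import Pool.Agent.R360.GK.H

/-!
# Cartier-fixed elements
-/

set_option autoImplicit false
set_option linter.unusedSectionVars false

open Polynomial
open scoped TensorProduct

namespace Pool.Agent.R360.GK

section Cpn

variable {F : Type} [Field F] (Cp : F →+ F) {p : ℕ}

lemma Cpn_mul (h1 : ∀ a b, Cp (a ^ p * b) = a * Cp b) (n : ℕ) (a b : F) :
    Cp^[n] (a ^ p ^ n * b) = a * Cp^[n] b := by
  induction n generalizing b with
  | zero => simp
  | succ n ih =>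
    rw [Function.iterate_succ_apply, pow_succ, pow_mul, h1, ih, Function.iterate_succ_apply]

lemma Cpn_T (hp : 0 < p) (T : F)
    (h2 : ∀ i, Cp (T ^ i) = if p ∣ i + 1 then T ^ ((i + 1) / p - 1) else 0) (n i : ℕ) :
    Cp^[n] (T ^ i) = if p ^ n ∣ i + 1 then T ^ ((i + 1) / p ^ n - 1) else 0 := by
  have h0 : ∀ n, Cp^[n] 0 = 0 := by
    intro n
    induction n with
    | zero => rfl
    | succ n ih => rw [Function.iterate_succ_apply, map_zero, ih]
  induction n generalizing i with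
  | zero => simp
  | succ n ih =>
    rw [Function.iterate_succ_apply, h2]
    by_cases h : p ∣ i + 1
    · rw [if_pos h, ih]
      obtain ⟨m, hm⟩ := h
      have hm0 : 0 < m := by
        rcases Nat.eq_zero_or_pos m with rfl | h0
        · omega
        · exact h0
      simp only [hm, Nat.mul_div_cancel_left _ hp, Nat.sub_add_cancel hm0, pow_succ',
        Nat.mul_dvd_mul_iff_left hp, Nat.mul_div_mul_left _ _ hp]
    · rw [if_neg h, if_neg, h0]
      intro h3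
      exact h ((dvd_pow_self p (Nat.succ_ne_zero n)).trans h3)

lemma Cpn_add (n : ℕ) (a b : F) : Cp^[n] (a + b) = Cp^[n] a + Cp^[n] b := by
  induction n generalizing a b with
  | zero => rfl
  | succ n ih => rw [Function.iterate_succ_apply, map_add, ih]; rfl

/-- `C_q` as a linear map -/
def Cq (Fq : Type) [Field Fq] [Fintype Fq] [Algebra Fq F] (s : ℕ) (hs : Fintype.card Fq = p ^ s)
    (h1 : ∀ a b, Cp (a ^ p * b) = a * Cp b) : F →ₗ[Fq] F where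
  toFun := Cp^[s]
  map_add' := Cpn_add Cp s
  map_smul' c a := by
    have : algebraMap Fq F c * a = (algebraMap Fq F c) ^ p ^ s * a := by
      rw [← map_pow, ← hs, FiniteField.pow_card]
    rw [Algebra.smul_def, this, Cpn_mul Cp h1]
    rw [Algebra.smul_def]
    rfl

end Cpn

section x

variable {Fq : Type} [Field Fq] [Fintype Fq] {F : Type} [Field F] [Algebra Fq F]
  {κ : Type} [Field κ] [Algebra Fq κ] [Fintype κ] [DecidableEq κ]
variable (L : κ →ₗ[Fq] F) (T : F) (d k : ℕ) (Pi : F)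

/-- `∏ g_j^{k_j}` -/
noncomputable def Gk (L : κ →ₗ[Fq] F) (d k : ℕ) : F ⊗[Fq] κ :=
  ∏ j ∈ Finset.range d, gj L j ^ (k / Fintype.card Fq ^ j % Fintype.card Fq)

/-- `x_f = f(T) ∏ g_j^{k_j} / P` -/
noncomputable def xf (f : κ[X]) : F ⊗[Fq] κ := ev Fq T f * Gk L d k * (Pi ⊗ₜ 1)

/-- `Y_f(c) = (id ⊗ Tr)(c x_f)` -/
noncomputable def Yf (f : κ[X]) (c : κ) : F := trm Fq F κ ((1 ⊗ₜ c) * xf L T d k Pi f)

lemma Yf_add (f : κ[X]) (c c' : κ) :
    Yf L T d k Pi f (c + c') = Yf L T d k Pi f c + Yf L T d k Pi f c' := by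
  rw [Yf, TensorProduct.tmul_add, add_mul, map_add, Yf, Yf]

lemma Yf_add' (f g : κ[X]) (c : κ) :
    Yf L T d k Pi (f + g) c = Yf L T d k Pi f c + Yf L T d k Pi g c := by
  have : xf L T d k Pi (f + g) = xf L T d k Pi f + xf L T d k Pi g := by
    simp only [xf, map_add]
    ring
  rw [Yf, this, mul_add, map_add, Yf, Yf]

lemma Yf_C_mul (f : κ[X]) (b c : κ) :
    Yf L T d k Pi (C b * f) c = Yf L T d k Pi f (b * c) := by
  have h1 : xf L T d k Pi (C b * f) = (1 ⊗ₜ b) * xf L T d k Pi f := by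
    rw [xf, xf, (ev Fq T).map_mul, ev_C]
    ring
  have h2 : (1 : F) ⊗ₜ[Fq] (b * c) = (1 ⊗ₜ b) * (1 ⊗ₜ c) := by
    rw [Algebra.TensorProduct.tmul_mul_tmul, one_mul]
  rw [Yf, Yf, h1, h2]
  congr 1
  ring

lemma Yf_smul (f : κ[X]) (b : Fq) (c : κ) :
    Yf L T d k Pi f (b • c) = b • Yf L T d k Pi f c := by
  rw [Yf, Yf, ← map_smul, TensorProduct.tmul_smul, smul_mul_assoc]

lemma f_eq_zero_of_Yf (hT : Transcendental Fq T) (θ : κ)
    (hL : ∀ z, L (θ * z) = T * L z + L z ^ Fintype.card Fq) (hL1 : L 1 ≠ 0)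
    (hd : Fintype.card κ = Fintype.card Fq ^ d) (hd0 : 0 < d) (hPi : Pi ≠ 0) (f : κ[X])
    (h : ∀ c, Yf L T d k Pi f c = 0) : f = 0 := by
  have h1 : xf L T d k Pi f = 0 := eq_zero_of_trm _ h
  have h2 : IsUnit (Gk L d k * (Pi ⊗ₜ 1) : F ⊗[Fq] κ) := by
    refine IsUnit.mul ?_ ?_
    · rw [Gk]
      exact Finset.prod_induction _ IsUnit (fun a b ha hb => ha.mul hb) isUnit_one
        (fun j _ => (isUnit_gj L T hT θ hL hL1 d hd hd0 j).pow _)
    · exact (isUnit_iff_ne_zero.2 hPi).map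
        (Algebra.TensorProduct.includeLeft : F →ₐ[Fq] F ⊗[Fq] κ)
  rw [xf, mul_assoc, h2.mul_left_eq_zero] at h1
  exact ev_injective T hT (by rw [h1, map_zero])

end x

section digits

lemma sum_digits (q d k : ℕ) : ∑ j ∈ Finset.range d, (k / q ^ j % q) * q ^ j = k % q ^ d := by
  induction d with
  | zero => simp [Nat.mod_one]
  | succ d ih => rw [Finset.sum_range_succ, ih, Nat.mod_pow_succ, mul_comm]

lemma dvd_sum_digits (q d k : ℕ) (hq : 0 < q) (hk : k < q ^ d) (h : (q - 1) ∣ k) :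
    (q - 1) ∣ ∑ j ∈ Finset.range d, (k / q ^ j % q) := by
  have h1 := sum_digits q d k
  rw [Nat.mod_eq_of_lt hk] at h1
  have hq1 : q ≡ 1 [MOD (q - 1)] := by
    have := (Nat.modEq_iff_dvd' (show 1 ≤ q from hq)).2 (dvd_refl (q - 1))
    exact this.symm
  have h2 : ∑ j ∈ Finset.range d, (k / q ^ j % q) * q ^ j ≡ ∑ j ∈ Finset.range d, (k / q ^ j % q)
      [MOD (q - 1)] := by
    refine Nat.ModEq.sum fun j _ => ?_
    simpa using (Nat.ModEq.refl (k / q ^ j % q)).mul (hq1.pow j)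
  rw [h1] at h2
  exact (Nat.ModEq.dvd_iff h2 (dvd_refl _)).1 h

end digits

section fixed

variable {Fq : Type} [Field Fq] [Fintype Fq] {F : Type} [Field F] [Algebra Fq F]
  {κ : Type} [Field κ] [Algebra Fq κ] [Fintype κ] [DecidableEq κ]
variable (L : κ →ₗ[Fq] F) (T : F) (d k : ℕ)

lemma xf_eq (θ : κ) (hL : ∀ z, L (θ * z) = T * L z + L z ^ Fintype.card Fq)
    (PT : F) (hPT0 : PT ≠ 0)
    (hPT : ev Fq T (∏ j ∈ Finset.range d, (X - C (θ ^ Fintype.card Fq ^ j))) = PT ⊗ₜ 1)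
    (hk : k < Fintype.card Fq ^ d) (hdvd : (Fintype.card Fq - 1) ∣ k) (f : κ[X]) :
    xf L T d k PT⁻¹ f = Fr Fq F κ (Gk L d k * (PT⁻¹ ⊗ₜ 1)) *
      ev Fq T (Qk (Fintype.card Fq) d k θ * f) := by
  set q := Fintype.card Fq with hq
  have hq0 : 0 < q := Fintype.card_pos
  have e1 : Fr Fq F κ (Gk L d k) = (∏ j ∈ Finset.range d,
      ((1 : F) ⊗ₜ[Fq] (θ ^ q ^ j) - T ⊗ₜ[Fq] (1 : κ)) ^ (k / q ^ j % q)) * Gk L d k := by
    rw [Gk, map_prod, ← Finset.prod_mul_distrib]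
    refine Finset.prod_congr rfl fun j _ => ?_
    rw [map_pow, Fr_gj L T θ hL, mul_pow]
  have e2 : ev Fq T (Qk q d k θ) = ∏ j ∈ Finset.range d,
      (T ⊗ₜ[Fq] (1 : κ) - (1 : F) ⊗ₜ[Fq] (θ ^ q ^ j)) ^ (q - 1 - k / q ^ j % q) := by
    rw [Qk, map_prod]
    refine Finset.prod_congr rfl fun j _ => ?_
    rw [map_pow, map_sub, ev_X, ev_C]
  have e3 : (PT ⊗ₜ[Fq] (1 : κ)) = ∏ j ∈ Finset.range d,
      (T ⊗ₜ[Fq] (1 : κ) - (1 : F) ⊗ₜ[Fq] (θ ^ q ^ j)) := by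
    rw [← hPT, map_prod]
    refine Finset.prod_congr rfl fun j _ => ?_
    rw [map_sub, ev_X, ev_C]
  have hneg : ((-1 : F ⊗[Fq] κ)) ^ (q - 1) = 1 := by
    have h1 : (-1 : Fq) ^ (q - 1) = 1 :=
      FiniteField.pow_card_sub_one_eq_one (-1 : Fq) (neg_ne_zero.2 one_ne_zero)
    have h2 := congrArg (algebraMap Fq (F ⊗[Fq] κ)) h1
    rwa [map_pow, map_neg, map_one] at h2
  have e4 : (∏ j ∈ Finset.range d,
      ((1 : F) ⊗ₜ[Fq] (θ ^ q ^ j) - T ⊗ₜ[Fq] (1 : κ)) ^ (k / q ^ j % q)) *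
      ∏ j ∈ Finset.range d,
      (T ⊗ₜ[Fq] (1 : κ) - (1 : F) ⊗ₜ[Fq] (θ ^ q ^ j)) ^ (q - 1 - k / q ^ j % q) =
      (PT ⊗ₜ[Fq] (1 : κ)) ^ (q - 1) := by
    rw [← Finset.prod_mul_distrib, e3, ← Finset.prod_pow]
    have e5 : ∀ j ∈ Finset.range d,
        ((1 : F) ⊗ₜ[Fq] (θ ^ q ^ j) - T ⊗ₜ[Fq] (1 : κ)) ^ (k / q ^ j % q) *
          (T ⊗ₜ[Fq] (1 : κ) - (1 : F) ⊗ₜ[Fq] (θ ^ q ^ j)) ^ (q - 1 - k / q ^ j % q) =
        (-1) ^ (k / q ^ j % q) * (T ⊗ₜ[Fq] (1 : κ) - (1 : F) ⊗ₜ[Fq] (θ ^ q ^ j)) ^ (q - 1) := by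
      intro j _
      have h1 : k / q ^ j % q < q := Nat.mod_lt _ hq0
      have h2 : (T ⊗ₜ[Fq] (1 : κ) - (1 : F) ⊗ₜ[Fq] (θ ^ q ^ j)) ^ (q - 1) =
          (T ⊗ₜ[Fq] (1 : κ) - (1 : F) ⊗ₜ[Fq] (θ ^ q ^ j)) ^ (k / q ^ j % q) *
          (T ⊗ₜ[Fq] (1 : κ) - (1 : F) ⊗ₜ[Fq] (θ ^ q ^ j)) ^ (q - 1 - k / q ^ j % q) := by
        rw [← pow_add]
        congr 1
        omega
      rw [h2, ← mul_assoc, ← mul_pow, neg_one_mul, neg_sub]
    rw [Finset.prod_congr rfl e5, Finset.prod_mul_distrib, Finset.prod_pow_eq_pow_sum]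
    obtain ⟨m, hm⟩ := dvd_sum_digits q d k hq0 hk hdvd
    rw [hm, pow_mul, hneg, one_pow, one_mul]
  have e6 : Fr Fq F κ (PT⁻¹ ⊗ₜ 1) * (PT ⊗ₜ[Fq] (1 : κ)) ^ (q - 1) = PT⁻¹ ⊗ₜ 1 := by
    rw [Fr_tmul, Algebra.TensorProduct.tmul_pow, one_pow, Algebra.TensorProduct.tmul_mul_tmul,
      one_mul]
    congr 1
    obtain ⟨m, hm⟩ : ∃ m, q = m + 1 := ⟨q - 1, by omega⟩
    rw [← hq, hm, Nat.add_sub_cancel, pow_succ, mul_right_comm, ← mul_pow, inv_mul_cancel₀ hPT0,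
      one_pow, one_mul]
  rw [xf, map_mul, map_mul, e1, e2]
  calc ev Fq T f * Gk L d k * PT⁻¹ ⊗ₜ[Fq] 1 =
      ev Fq T f * Gk L d k * (Fr Fq F κ (PT⁻¹ ⊗ₜ 1) * (PT ⊗ₜ[Fq] (1 : κ)) ^ (q - 1)) := by rw [e6]
    _ = _ := by rw [← e4]; ring

lemma rT_xf (θ : κ) (hL : ∀ z, L (θ * z) = T * L z + L z ^ Fintype.card Fq)
    (PT : F) (hPT0 : PT ≠ 0)
    (hPT : ev Fq T (∏ j ∈ Finset.range d, (X - C (θ ^ Fintype.card Fq ^ j))) = PT ⊗ₜ 1)
    (hk : k < Fintype.card Fq ^ d) (hdvd : (Fintype.card Fq - 1) ∣ k) (f : κ[X])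
    (hf : U (Fintype.card Fq) (Qk (Fintype.card Fq) d k θ * f) = f)
    (Cql : F →ₗ[Fq] F) (h1 : ∀ a b, Cql (a ^ Fintype.card Fq * b) = a * Cql b)
    (h2 : ∀ i, Cql (T ^ i) = if Fintype.card Fq ∣ i + 1 then T ^ ((i + 1) / Fintype.card Fq - 1)
      else 0) :
    LinearMap.rTensor κ Cql (xf L T d k PT⁻¹ f) = xf L T d k PT⁻¹ f := by
  rw [xf_eq L T d k θ hL PT hPT0 hPT hk hdvd, rT_Fr_mul Cql h1, rT_ev Cql T h2, hf,
    ← xf_eq L T d k θ hL PT hPT0 hPT hk hdvd, xf]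
  ring

lemma Cql_Yf (θ : κ) (hL : ∀ z, L (θ * z) = T * L z + L z ^ Fintype.card Fq)
    (PT : F) (hPT0 : PT ≠ 0)
    (hPT : ev Fq T (∏ j ∈ Finset.range d, (X - C (θ ^ Fintype.card Fq ^ j))) = PT ⊗ₜ 1)
    (hk : k < Fintype.card Fq ^ d) (hdvd : (Fintype.card Fq - 1) ∣ k) (f : κ[X])
    (hf : U (Fintype.card Fq) (Qk (Fintype.card Fq) d k θ * f) = f)
    (Cql : F →ₗ[Fq] F) (h1 : ∀ a b, Cql (a ^ Fintype.card Fq * b) = a * Cql b)
    (h2 : ∀ i, Cql (T ^ i) = if Fintype.card Fq ∣ i + 1 then T ^ ((i + 1) / Fintype.card Fq - 1)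
      else 0) (c : κ) :
    Cql (Yf L T d k PT⁻¹ f c) = Yf L T d k PT⁻¹ f c := by
  rw [Yf, ← trm_map]
  have e : (1 : F) ⊗ₜ[Fq] c = Fr Fq F κ (1 ⊗ₜ c) := by rw [Fr_tmul, one_pow]
  conv_lhs => rw [e]
  rw [rT_Fr_mul Cql h1, rT_xf L T d k θ hL PT hPT0 hPT hk hdvd f hf Cql h1 h2]

lemma map_Yf (σ : F →ₐ[Fq] F) (hσT : σ T = T) (w : κ) (hσ : ∀ z, σ (L z) = L (w * z)) (PT : F)
    (hσP : σ PT = PT) (hk : k < Fintype.card Fq ^ d) (f : κ[X]) (c : κ) :
    σ (Yf L T d k PT⁻¹ f c) = Yf L T d k PT⁻¹ f (w ^ k * c) := by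
  have e0 : ∀ x : F ⊗[Fq] κ, LinearMap.rTensor κ σ.toLinearMap x =
      Algebra.TensorProduct.map σ (AlgHom.id Fq κ) x := fun x => rfl
  set Φ := Algebra.TensorProduct.map σ (AlgHom.id Fq κ) with hΦ
  have e1 : Φ (ev Fq T f) = ev Fq T f := by
    induction f using Polynomial.induction_on' with
    | add f g hf hg => rw [map_add, map_add, hf, hg]
    | monomial n c => rw [ev_monomial, hΦ, Algebra.TensorProduct.map_tmul, map_pow, hσT]; rfl
  have e2 : Φ (Gk L d k) = (1 ⊗ₜ (w ^ k)) * Gk L d k := by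
    rw [Gk, map_prod]
    have h1 : ∀ j ∈ Finset.range d, Φ (gj L j ^ (k / Fintype.card Fq ^ j % Fintype.card Fq)) =
        (1 ⊗ₜ w) ^ (k / Fintype.card Fq ^ j % Fintype.card Fq * Fintype.card Fq ^ j) *
          gj L j ^ (k / Fintype.card Fq ^ j % Fintype.card Fq) := by
      intro j _
      rw [map_pow, hΦ, map_gj σ L w hσ, mul_pow]
      congr 1
      rw [Algebra.TensorProduct.tmul_pow, Algebra.TensorProduct.tmul_pow, ← pow_mul, one_pow,
        one_pow]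
      rw [mul_comm]
    rw [Finset.prod_congr rfl h1, Finset.prod_mul_distrib, Finset.prod_pow_eq_pow_sum, sum_digits,
      Nat.mod_eq_of_lt hk, Algebra.TensorProduct.tmul_pow, one_pow]
  have e3 : Φ (xf L T d k PT⁻¹ f) = (1 ⊗ₜ (w ^ k)) * xf L T d k PT⁻¹ f := by
    have e4 : Φ (PT⁻¹ ⊗ₜ 1) = PT⁻¹ ⊗ₜ 1 := by
      rw [hΦ, Algebra.TensorProduct.map_tmul, map_inv₀, hσP]
      rfl
    rw [xf, map_mul, map_mul, e1, e2, e4]
    ring
  have e5 : σ (Yf L T d k PT⁻¹ f c) = trm Fq F κ (Φ ((1 ⊗ₜ c) * xf L T d k PT⁻¹ f)) := by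
    rw [← e0, trm_map]
    rfl
  have e6 : Φ ((1 : F) ⊗ₜ[Fq] c) = 1 ⊗ₜ c := by
    rw [hΦ, Algebra.TensorProduct.map_tmul, map_one]
    rfl
  have e7 : (1 : F) ⊗ₜ[Fq] (w ^ k * c) = (1 ⊗ₜ (w ^ k)) * (1 ⊗ₜ c) := by
    rw [Algebra.TensorProduct.tmul_mul_tmul, one_mul]
  rw [e5, map_mul Φ, e3, e6, Yf, e7]
  congr 1
  ring

end fixed

section zf

variable {Fq : Type} [Field Fq] [Fintype Fq] {F : Type} [Field F] [Algebra Fq F]
  {κ : Type} [Field κ] [Algebra Fq κ] [Fintype κ] [DecidableEq κ]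
variable (L : κ →ₗ[Fq] F) (T : F) (d k : ℕ) (Pi : F) (Cp : F →+ F) (s : ℕ)

/-- `z_f(c) = ∑_{i < s} C_p^i (Y_f(c))` -/
noncomputable def zf (f : κ[X]) : κ →+ F where
  toFun c := ∑ i ∈ Finset.range s, Cp^[i] (Yf L T d k Pi f c)
  map_zero' := by
    have h : Yf L T d k Pi f 0 = 0 := by
      rw [Yf, TensorProduct.tmul_zero, zero_mul, map_zero]
    have h0 : ∀ n, Cp^[n] 0 = 0 := by
      intro n
      induction n with
      | zero => rfl
      | succ n ih => rw [Function.iterate_succ_apply, map_zero, ih]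
    simp [h, h0]
  map_add' c c' := by
    rw [← Finset.sum_add_distrib]
    refine Finset.sum_congr rfl fun i _ => ?_
    rw [Yf_add, Cpn_add]

lemma zf_apply (f : κ[X]) (c : κ) :
    zf L T d k Pi Cp s f c = ∑ i ∈ Finset.range s, Cp^[i] (Yf L T d k Pi f c) := rfl

lemma zf_add' (f g : κ[X]) (c : κ) :
    zf L T d k Pi Cp s (f + g) c = zf L T d k Pi Cp s f c + zf L T d k Pi Cp s g c := by
  simp only [zf_apply, Yf_add', Cpn_add, Finset.sum_add_distrib]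

lemma zf_C_mul (f : κ[X]) (b c : κ) :
    zf L T d k Pi Cp s (C b * f) c = zf L T d k Pi Cp s f (b * c) := by
  simp only [zf_apply, Yf_C_mul]

lemma Cp_zf (f : κ[X]) (c : κ) (h : Cp^[s] (Yf L T d k Pi f c) = Yf L T d k Pi f c) :
    Cp (zf L T d k Pi Cp s f c) = zf L T d k Pi Cp s f c := by
  rw [zf_apply, map_sum]
  have h1 : ∀ i, Cp (Cp^[i] (Yf L T d k Pi f c)) = Cp^[i + 1] (Yf L T d k Pi f c) :=
    fun i => (Function.iterate_succ_apply' _ _ _).symm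
  simp only [h1]
  have h2 := Finset.sum_range_succ (fun i => Cp^[i] (Yf L T d k Pi f c)) s
  rw [Finset.sum_range_succ', Function.iterate_zero, id, h] at h2
  exact add_right_cancel h2

lemma map_zf (σ : F →+* F) (hσ : ∀ z, Cp (σ z) = σ (Cp z)) (f : κ[X]) (c c' : κ)
    (h : σ (Yf L T d k Pi f c) = Yf L T d k Pi f c') :
    σ (zf L T d k Pi Cp s f c) = zf L T d k Pi Cp s f c' := by
  have h1 : ∀ n z, σ (Cp^[n] z) = Cp^[n] (σ z) := by
    intro n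
    induction n with
    | zero => intro z; rfl
    | succ n ih => intro z; rw [Function.iterate_succ_apply, ih, ← hσ, Function.iterate_succ_apply]
  rw [zf_apply, zf_apply, map_sum]
  refine Finset.sum_congr rfl fun i _ => ?_
  rw [h1, h]

lemma Yf_eq_zero_of_zf {p : ℕ} (hp : 1 < p) (hs : Fintype.card Fq = p ^ s)
    (h1 : ∀ a b, Cp (a ^ p * b) = a * Cp b) (f : κ[X]) (h : ∀ c, zf L T d k Pi Cp s f c = 0)
    (c : κ) : Yf L T d k Pi f c = 0 := by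
  classical
  have hq : 1 < Fintype.card Fq := Fintype.one_lt_card
  have hs0 : 0 < s := by
    rcases Nat.eq_zero_or_pos s with rfl | h0
    · rw [pow_zero] at hs; omega
    · exact h0
  set y := Yf L T d k Pi f c with hy
  let R : F[X] := ∑ i ∈ Finset.range s, C (Cp^[i] y) * X ^ (if i = 0 then 1 else p ^ (s - i))
  have hR : R = 0 := by
    refine Polynomial.eq_zero_of_natDegree_lt_card_of_eval_eq_zero R
      (f := algebraMap Fq F) (algebraMap Fq F).injective ?_ ?_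
    · intro β
      have h2 := h (β • c)
      rw [zf_apply, Yf_smul] at h2
      rw [eval_finsetSum, ← h2]
      refine Finset.sum_congr rfl fun i hi => ?_
      have hi' := Finset.mem_range.1 hi
      rw [eval_mul, eval_C, eval_pow, eval_X]
      split_ifs with h3
      · rw [h3, pow_one, Function.iterate_zero, id, id, Algebra.smul_def, mul_comm]
      · have h4 : β • y = (algebraMap Fq F (β ^ p ^ (s - i))) ^ p ^ i * y := by
          rw [← map_pow, ← pow_mul, ← pow_add, Nat.sub_add_cancel hi'.le, ← hs,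
            FiniteField.pow_card, Algebra.smul_def]
        rw [h4, Cpn_mul Cp h1, map_pow, mul_comm]
    · refine (natDegree_sum_le_of_forall_le (n := Fintype.card Fq - 1) _ _ fun i hi => ?_).trans_lt
        (by omega)
      have hi' := Finset.mem_range.1 hi
      refine (natDegree_C_mul_X_pow_le _ _).trans ?_
      split_ifs with h3
      · omega
      · have : p ^ (s - i) < p ^ s := Nat.pow_lt_pow_right hp (by omega)
        omega
  have h2 := congrArg (fun g => coeff g 1) hR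
  simp only [R, finsetSum_coeff, coeff_C_mul, coeff_X_pow, coeff_zero] at h2
  rw [Finset.sum_eq_single 0] at h2
  · simpa using h2
  · intro i hi hi0
    have hi' := Finset.mem_range.1 hi
    rw [if_neg hi0, if_neg, mul_zero]
    have : 1 < p ^ (s - i) := Nat.one_lt_pow (by omega) hp
    omega
  · intro h3; exact absurd (Finset.mem_range.2 hs0) h3

end zf

end Pool.Agent.R360.GK
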