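import Pool.Agent.R360.GK.H2

/-!
# Integrality of the Cartier-fixed elements
-/

set_option autoImplicit false
set_option linter.unusedSectionVars false

open Polynomial
open scoped TensorProduct

namespace Pool.Agent.R360.GK

section mem

variable {Fq : Type} [Field Fq] [Fintype Fq] {F : Type} [Field F] [Algebra Fq F]
  {κ : Type} [Field κ] [Algebra Fq κ] [Fintype κ] [DecidableEq κ]
variable (L : κ →ₗ[Fq] F) (T : F) (d k : ℕ) (Pi : F)

lemma Yf_mem (B : Subalgebra Fq F) (hT : T ∈ B) (lam : F) (hlam : lam ∈ B)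
    (hLB : ∀ z, ∃ r ∈ B, L z = lam * r) (hk0 : 0 < k) (hk : k < Fintype.card Fq ^ d)
    (f : κ[X]) (c : κ) : ∃ r ∈ B, Yf L T d k Pi f c = Pi * (lam * r) := by
  let RB := (Algebra.TensorProduct.map B.val (AlgHom.id Fq κ)).range
  have h1 : ∀ b ∈ B, ∀ c : κ, b ⊗ₜ[Fq] c ∈ RB := fun b hb c => ⟨(⟨b, hb⟩ : B) ⊗ₜ c, rfl⟩
  have h2 : ∀ y ∈ RB, trm Fq F κ y ∈ B := by
    rintro y ⟨x, rfl⟩
    change trm Fq F κ (Algebra.TensorProduct.map B.val (AlgHom.id Fq κ) x) ∈ B
    induction x using TensorProduct.induction_on with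
    | zero => rw [map_zero, map_zero]; exact zero_mem _
    | tmul b c =>
      rw [Algebra.TensorProduct.map_tmul, trm_tmul]
      exact B.smul_mem b.2 _
    | add x y hx hy => rw [map_add, map_add]; exact add_mem hx hy
  have h3 : ∀ f : κ[X], ev Fq T f ∈ RB := by
    intro f
    induction f using Polynomial.induction_on' with
    | add f g hf hg => rw [map_add]; exact add_mem hf hg
    | monomial n c => rw [ev_monomial]; exact h1 _ (pow_mem hT n) c
  have h4 : ∀ j, ∃ y ∈ RB, gj L j = (lam ⊗ₜ 1) * y := by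
    intro j
    choose r hr hLr using hLB
    refine ⟨- ∑ z : κˣ, r (z : κ) ⊗ₜ[Fq] (((z⁻¹ : κˣ) : κ) ^ (Fintype.card Fq ^ j)),
      neg_mem (sum_mem fun z _ => h1 _ (hr _) _), ?_⟩
    rw [gj, mul_neg, Finset.mul_sum]
    congr 1
    refine Finset.sum_congr rfl fun z _ => ?_
    rw [Algebra.TensorProduct.tmul_mul_tmul, one_mul, ← hLr]
  have h5 : ∀ j, gj L j ∈ RB := by
    intro j
    obtain ⟨y, hy, e⟩ := h4 j
    rw [e]
    exact mul_mem (h1 _ hlam _) hy
  have h6 : ∃ y ∈ RB, Gk L d k = (lam ⊗ₜ 1) * y := by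
    have h7 : ∃ j ∈ Finset.range d, k / Fintype.card Fq ^ j % Fintype.card Fq ≠ 0 := by
      by_contra hcon
      push Not at hcon
      have := sum_digits (Fintype.card Fq) d k
      rw [Nat.mod_eq_of_lt hk, Finset.sum_eq_zero] at this
      · omega
      · intro j hj
        rw [hcon j hj, zero_mul]
    obtain ⟨j, hj, hj0⟩ := h7
    obtain ⟨y, hy, e⟩ := h4 j
    obtain ⟨m, hm⟩ : ∃ m, k / Fintype.card Fq ^ j % Fintype.card Fq = m + 1 :=
      ⟨k / Fintype.card Fq ^ j % Fintype.card Fq - 1, by omega⟩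
    refine ⟨y * gj L j ^ m * ∏ i ∈ (Finset.range d).erase j,
      gj L i ^ (k / Fintype.card Fq ^ i % Fintype.card Fq),
      mul_mem (mul_mem hy (pow_mem (h5 j) m)) (prod_mem fun i _ => pow_mem (h5 i) _), ?_⟩
    rw [Gk, ← Finset.mul_prod_erase _ _ hj, hm, pow_succ]
    conv_lhs => rw [mul_comm (gj L j ^ m)]
    nth_rewrite 1 [e]
    ring
  obtain ⟨y, hy, e⟩ := h6
  refine ⟨trm Fq F κ ((1 ⊗ₜ c) * ev Fq T f * y),
    h2 _ (mul_mem (mul_mem (h1 _ (one_mem _) _) (h3 f)) hy), ?_⟩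
  rw [← trm_mul_left, ← trm_mul_left, Yf, xf, e]
  congr 1
  ring

end mem

section Np

variable {Fq : Type} [Field Fq] [Fintype Fq] {p : ℕ} [hp : Fact p.Prime] [CharP Fq p]
  {P : Fq[X]} [hirr : Fact (Irreducible P)] {F : Type} [Field F] [Algebra Fq F] [Algebra Fq[X] F]
  [IsScalarTower Fq Fq[X] F] [Algebra (RatFunc Fq) F] [IsScalarTower Fq[X] (RatFunc Fq) F]
  {lam : F}

/-- the ideal `lam A[lam]` -/
noncomputable def bb (Fq : Type) [Field Fq] {F : Type} [Field F] [Algebra Fq[X] F] (lam : F) :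
    Submodule Fq[X] F :=
  Submodule.map (LinearMap.mulLeft Fq[X] lam)
    (Subalgebra.toSubmodule (Algebra.adjoin Fq[X] {lam}))

lemma mem_bb (y : F) : y ∈ bb Fq lam ↔ ∃ r ∈ Algebra.adjoin Fq[X] {lam}, lam * r = y := Iff.rfl

lemma lam_mem : lam ∈ Algebra.adjoin Fq[X] {lam} := Algebra.subset_adjoin rfl

lemma pow_mem_bb (n : ℕ) (hn : 0 < n) : lam ^ n ∈ bb Fq lam := by
  obtain ⟨m, rfl⟩ : ∃ m, n = m + 1 := ⟨n - 1, by omega⟩
  exact ⟨lam ^ m, pow_mem lam_mem m, by rw [pow_succ', LinearMap.mulLeft_apply]⟩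

/-- span of `p`-th powers -/
noncomputable def Np (Fq : Type) [Field Fq] {F : Type} [Field F] [Algebra Fq[X] F] (p : ℕ)
    (S : Set F) : Submodule Fq[X] F :=
  Submodule.span Fq[X] ((fun x => x ^ p) '' S)

lemma Np_mul {S S' : Set F} (hSS' : ∀ x ∈ S, ∀ y ∈ S', x * y ∈ S) {x y : F}
    (hx : x ∈ Np Fq p S) (hy : y ∈ Np Fq p S') : x * y ∈ Np Fq p S := by
  have h1 := Submodule.mul_mem_mul hx hy
  rw [Np, Np, Submodule.span_mul_span] at h1
  refine Submodule.span_mono ?_ h1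
  rintro _ ⟨_, ⟨a, ha, rfl⟩, _, ⟨b, hb, rfl⟩, rfl⟩
  exact ⟨a * b, hSS' a ha b hb, mul_pow _ _ _⟩

lemma bb_mul (x y : F) (hx : x ∈ bb Fq lam) (hy : y ∈ Algebra.adjoin Fq[X] {lam}) :
    x * y ∈ bb Fq lam := by
  obtain ⟨r, hr, rfl⟩ := hx
  have hr' : r ∈ Algebra.adjoin Fq[X] {lam} := hr
  have hr2 : r * y ∈ Algebra.adjoin Fq[X] {lam} := mul_mem hr' hy
  exact ⟨r * y, hr2, by rw [LinearMap.mulLeft_apply, LinearMap.mulLeft_apply, mul_assoc]⟩

lemma bb_le (x : F) (hx : x ∈ bb Fq lam) : x ∈ Algebra.adjoin Fq[X] {lam} := by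
  obtain ⟨r, hr, rfl⟩ := hx
  have hr' : r ∈ Algebra.adjoin Fq[X] {lam} := hr
  exact mul_mem lam_mem hr'

include hp in
lemma card_eq : Fintype.card Fq = Fintype.card Fq / p * p := by
  obtain ⟨n, hn⟩ := FiniteField.card Fq p
  rw [Nat.div_mul_cancel]
  rw [hn.2]
  exact dvd_pow_self p n.2.ne'

lemma P_lam_mem_Np (h : IsCyclotomic Fq P F lam) : P • lam ∈ Np Fq p (bb Fq lam : Set F) := by
  have h1 : Mq Fq lam ≤ Np Fq p (bb Fq lam : Set F) := by
    refine Submodule.span_le.2 ?_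
    rintro _ ⟨i, rfl⟩
    refine Submodule.subset_span ⟨lam ^ (Fintype.card Fq ^ i * (Fintype.card Fq / p)), ?_, ?_⟩
    · refine pow_mem_bb _ (Nat.mul_pos (pow_pos Fintype.card_pos _) ?_)
      have := card_eq (Fq := Fq) (p := p)
      have h2 : 0 < Fintype.card Fq := Fintype.card_pos
      rcases Nat.eq_zero_or_pos (Fintype.card Fq / p) with h3 | h3
      · rw [h3] at this; omega
      · exact h3
    · change (lam ^ (Fintype.card Fq ^ i * (Fintype.card Fq / p))) ^ p = lam ^ _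
      rw [← pow_mul, mul_assoc, ← card_eq (Fq := Fq) (p := p), pow_succ]
  exact h1 (P_lam_mem h)

lemma Np_mono {S S' : Set F} (h : S ⊆ S') : Np Fq p S ≤ Np Fq p S' :=
  Submodule.span_mono (Set.image_mono h)

lemma P_pow_mul_mem (h : IsCyclotomic Fq P F lam) (y : F) (hy : y ∈ bb Fq lam) :
    (P ^ (p - 1)) • y ∈ Np Fq p (bb Fq lam : Set F) := by
  have hp2 := hp.out.two_le
  -- powers of `P lam`
  have hBB : ∀ x ∈ (bb Fq lam : Set F), ∀ y ∈ (bb Fq lam : Set F), x * y ∈ (bb Fq lam : Set F) :=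
    fun x hx y hy => bb_mul x y hx (bb_le y hy)
  have h1 : ∀ n, 0 < n → (P • lam) ^ n ∈ Np Fq p (bb Fq lam : Set F) := by
    intro n hn
    induction n with
    | zero => omega
    | succ n ih =>
      rcases Nat.eq_zero_or_pos n with rfl | hn0
      · rw [zero_add, pow_one]; exact P_lam_mem_Np h
      · rw [pow_succ]
        exact Np_mul hBB (ih hn0) (P_lam_mem_Np h)
  have h2 : ∀ n, 0 < n → (P ^ (p - 1)) • lam ^ n ∈ Np Fq p (bb Fq lam : Set F) := by
    intro n hn
    have hdm := Nat.div_add_mod n p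
    have hb : n % p < p := Nat.mod_lt _ (by omega)
    rcases Nat.eq_zero_or_pos (n % p) with h0 | h0
    · refine Submodule.smul_mem _ _ (Submodule.subset_span ⟨lam ^ (n / p), ?_, ?_⟩)
      · refine pow_mem_bb _ ?_
        rcases Nat.eq_zero_or_pos (n / p) with h3 | h3
        · rw [h3, h0] at hdm; omega
        · exact h3
      · change (lam ^ (n / p)) ^ p = lam ^ n
        rw [← pow_mul, mul_comm, ]
        congr 1
        omega
    · have e : (P ^ (p - 1)) • lam ^ n =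
          (P ^ (p - 1 - n % p)) • ((P • lam) ^ (n % p) * (lam ^ (n / p)) ^ p) := by
        have h3 : P ^ (p - 1) = P ^ (p - 1 - n % p) * P ^ (n % p) := by
          rw [← pow_add]; congr 1; omega
        have h4 : lam ^ n = lam ^ (n % p) * (lam ^ (n / p)) ^ p := by
          rw [← pow_mul, ← pow_add, mul_comm (n / p) p]
          congr 1
          omega
        rw [h3, h4]
        simp only [Algebra.smul_def, map_mul, map_pow, mul_pow]
        ring
      rw [e]
      refine Submodule.smul_mem _ _ (Np_mul (S' := (Algebra.adjoin Fq[X] {lam} : Set F))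
        (fun x hx y hy => bb_mul x y hx hy) (h1 _ h0) ?_)
      exact Submodule.subset_span ⟨lam ^ (n / p), pow_mem lam_mem _, rfl⟩
  obtain ⟨r, hr, rfl⟩ := hy
  change r ∈ Algebra.adjoin Fq[X] {lam} at hr
  rw [LinearMap.mulLeft_apply]
  rw [Algebra.adjoin_singleton_eq_range_aeval] at hr
  obtain ⟨g, rfl⟩ := hr
  change (P ^ (p - 1)) • (lam * aeval lam g) ∈ _
  rw [aeval_eq_sum_range, Finset.mul_sum, Finset.smul_sum]
  refine Submodule.sum_mem _ fun i _ => ?_
  have e : (P ^ (p - 1)) • (lam * g.coeff i • lam ^ i) =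
      g.coeff i • ((P ^ (p - 1)) • lam ^ (i + 1)) := by
    rw [mul_smul_comm, smul_comm, pow_succ']
  rw [e]
  exact Submodule.smul_mem _ _ (h2 _ (by omega))

/-- `Cp` maps `(lam / P) A[lam]` to itself -/
lemma Cp_mem (h : IsCyclotomic Fq P F lam) (Cp : F →+ F)
    (h1 : ∀ a b, Cp (a ^ p * b) = a * Cp b)
    (h2 : ∀ i, Cp ((algebraMap Fq[X] F X) ^ i) =
      if p ∣ i + 1 then (algebraMap Fq[X] F X) ^ ((i + 1) / p - 1) else 0) (y : F)
    (hy : P • y ∈ bb Fq lam) : P • Cp y ∈ bb Fq lam := by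
  have hp2 := hp.out.two_le
  have hA : ∀ a : Fq[X], ∃ a' : Fq[X], Cp (algebraMap Fq[X] F a) = algebraMap Fq[X] F a' := by
    intro a
    induction a using Polynomial.induction_on' with
    | add a b ha hb =>
      obtain ⟨a', ha⟩ := ha
      obtain ⟨b', hb⟩ := hb
      exact ⟨a' + b', by rw [map_add, map_add, ha, hb, map_add]⟩
    | monomial n c =>
      have e : algebraMap Fq[X] F (monomial n c) =
          (algebraMap Fq[X] F (C (c ^ (Fintype.card Fq / p)))) ^ p * (algebraMap Fq[X] F X) ^ n := by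
        rw [← map_pow, ← C_pow, ← pow_mul, ← card_eq (Fq := Fq) (p := p), FiniteField.pow_card,
          ← map_pow, ← map_mul, C_mul_X_pow_eq_monomial]
      rw [e, h1, h2]
      split_ifs with h3
      · exact ⟨C (c ^ (Fintype.card Fq / p)) * X ^ ((n + 1) / p - 1), by simp only [map_mul, map_pow]⟩
      · exact ⟨0, by simp⟩
  have hN : ∀ y ∈ Np Fq p (bb Fq lam : Set F), ∀ a : Fq[X], Cp (a • y) ∈ bb Fq lam := by
    intro y hy
    induction hy using Submodule.span_induction with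
    | mem y hy =>
      obtain ⟨b, hb, rfl⟩ := hy
      intro a
      obtain ⟨a', ha'⟩ := hA a
      change Cp (a • b ^ p) ∈ _
      rw [Algebra.smul_def, mul_comm, h1, ha', mul_comm, ← Algebra.smul_def]
      exact Submodule.smul_mem _ _ hb
    | zero => intro a; rw [smul_zero, map_zero]; exact zero_mem _
    | add y z _ _ hy hz => intro a; rw [smul_add, map_add]; exact add_mem (hy a) (hz a)
    | smul b y _ hy => intro a; rw [← mul_smul]; exact hy _
  have hP0 : algebraMap Fq[X] F P ≠ 0 := by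
    rw [Ne, map_eq_zero_iff _ (algebraMap_inj (Fq := Fq) (F := F))]
    exact hirr.out.ne_zero
  have e : P • Cp y = Cp ((1 : Fq[X]) • ((P ^ (p - 1)) • (P • y))) := by
    have e1 : (1 : Fq[X]) • ((P ^ (p - 1)) • (P • y)) = (algebraMap Fq[X] F P) ^ p * y := by
      rw [one_smul, ← mul_smul, ← pow_succ, Nat.sub_add_cancel (by omega), Algebra.smul_def,
        map_pow]
    rw [e1, h1, Algebra.smul_def]
  rw [e]
  exact hN _ (P_pow_mul_mem h _ hy) 1

lemma Ll_mem (h : IsCyclotomic Fq P F lam) (z : AdjoinRoot P) :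
    ∃ r ∈ Algebra.adjoin Fq[X] {lam}, Ll h z = lam * r := by
  obtain ⟨a, rfl⟩ := AdjoinRoot.mk_surjective z
  rw [Ll_mk]
  set B := Algebra.adjoin Fq[X] {lam}
  let l : B := ⟨lam, lam_mem⟩
  have h1 := carlitz_map Fq B.val a l
  obtain ⟨r, hr⟩ := carlitz_dvd Fq a l
  refine ⟨r, r.2, ?_⟩
  have h2 : B.val l = lam := rfl
  rw [h2] at h1
  rw [← h1, hr, map_mul]
  rfl

end Np

end Pool.Agent.R360.GK
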