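import Pool.Agent.R360.GK.Tasks

/-! # Two more tasks -/

set_option autoImplicit false

open Polynomial
namespace Pool.Agent.R360.GK
/-- **Task B.** reduction of Bernoulli-Carlitz numbers modulo `P`. -/
def TaskB : Prop :=
  ∀ (Fq : Type) [Field Fq] [Fintype Fq] (P : Fq[X]) [Fact (Irreducible P)], P.Monic →
    ∀ n : ℕ, n < Fintype.card Fq ^ P.natDegree - 1 → PrimeDvd Fq P (bernoulliCarlitz Fq n) →
      PowerSeries.coeff n (eser (Fintype.card Fq) P.natDegree (AdjoinRoot.root P))⁻¹ = 0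

/-- **Task R.** the roots of `P` -/
def TaskR : Prop :=
  ∀ (Fq : Type) [Field Fq] [Fintype Fq] (P : Fq[X]) [Fact (Irreducible P)], P.Monic →
    AdjoinRoot.root P ^ Fintype.card Fq ^ P.natDegree = AdjoinRoot.root P ∧
    (∀ i, 0 < i → i < P.natDegree → AdjoinRoot.root P ^ Fintype.card Fq ^ i ≠ AdjoinRoot.root P) ∧
    P.map (algebraMap Fq (AdjoinRoot P)) =
      ∏ j ∈ Finset.range P.natDegree, (X - C (AdjoinRoot.root P ^ Fintype.card Fq ^ j))
end Pool.Agent.R360.GK
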