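import Pool.Agent.R360.GK.Rel
import Pool.Agent.R360.GK.Tasks2
import Pool.Agent.R664.GK.F
import Pool.Agent.R664.GK.A
import Pool.Agent.R483.GK.B
import Pool.Agent.R483.GK.R
import Pool.Agent.R891.GK.E
import Pool.Agent.R891.GK.I

/-!
# Gekeler's conjecture: assembly
-/

set_option autoImplicit false
set_option linter.unusedSectionVars false

open Polynomial
open scoped TensorProduct nonZeroDivisors

namespace Pool.Agent.R360.GK

section act

variable {Fq : Type} [Field Fq] [Fintype Fq] {F : Type} [Field F] [Algebra Fq[X] F]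
  [Algebra (RatFunc Fq) F] [IsScalarTower Fq[X] (RatFunc Fq) F]

/-- the action of the Galois group on units -/
noncomputable def actU : (F ≃ₐ[RatFunc Fq] F) →* MulAut (integralClosure Fq[X] F)ˣ where
  toFun σ := Units.mapEquiv ((σ.restrictScalars Fq[X]).mapIntegralClosure.toMulEquiv)
  map_one' := by
    ext x
    rfl
  map_mul' σ τ := by
    ext x
    rfl

lemma actU_apply (σ : F ≃ₐ[RatFunc Fq] F) (u : (integralClosure Fq[X] F)ˣ) :
    ((actU σ u : (integralClosure Fq[X] F)ˣ) : integralClosure Fq[X] F) =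
      (σ.restrictScalars Fq[X]).mapIntegralClosure (u : integralClosure Fq[X] F) := rfl

lemma actU_coe (σ : F ≃ₐ[RatFunc Fq] F) (u : (integralClosure Fq[X] F)ˣ) :
    (((actU σ u : (integralClosure Fq[X] F)ˣ) : integralClosure Fq[X] F) : F) =
      σ ((u : integralClosure Fq[X] F) : F) := rfl

/-- the additive version -/
noncomputable abbrev actA (Fq : Type) [Field Fq] [Fintype Fq] (F : Type) [Field F]
    [Algebra Fq[X] F] [Algebra (RatFunc Fq) F] [IsScalarTower Fq[X] (RatFunc Fq) F] :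
    DistribMulAction (F ≃ₐ[RatFunc Fq] F) (Additive (integralClosure Fq[X] F)ˣ) where
  smul σ e := Additive.ofMul (actU σ e.toMul)
  one_smul e := by
    change Additive.ofMul (actU 1 e.toMul) = e
    rw [map_one]
    rfl
  mul_smul σ τ e := by
    change Additive.ofMul (actU (σ * τ) e.toMul) = Additive.ofMul (actU σ (actU τ e.toMul))
    rw [map_mul]
    rfl
  smul_zero σ := by
    change Additive.ofMul (actU σ 1) = 0
    rw [map_one]
    rfl
  smul_add σ e e' := by
    change Additive.ofMul (actU σ (e.toMul * e'.toMul)) = _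
    rw [map_mul]
    rfl

end act

section perf

variable {Fq : Type} [Field Fq] [Fintype Fq] {p : ℕ} [hp : Fact p.Prime] [CharP Fq p]
  {P : Fq[X]} [hirr : Fact (Irreducible P)] {F : Type} [Field F] [Algebra Fq F] [Algebra Fq[X] F]
  [IsScalarTower Fq Fq[X] F] [Algebra (RatFunc Fq) F] [IsScalarTower Fq[X] (RatFunc Fq) F]
  {lam : F} [Fintype (AdjoinRoot P)] [DecidableEq (AdjoinRoot P)]

/-- the map `c ↦ z_f(c)` -/
noncomputable def ZF (h : IsCyclotomic Fq P F lam) (Cp : F →+ F) (k s : ℕ)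
    (f : (AdjoinRoot P)[X]) : AdjoinRoot P →+ F :=
  zf (Ll h) (algebraMap Fq[X] F X) P.natDegree k (algebraMap Fq[X] F P)⁻¹ Cp s f

lemma aeval_T (a : Fq[X]) : aeval (algebraMap Fq[X] F X) a = algebraMap Fq[X] F a := by
  have : aeval (algebraMap Fq[X] F X) a = (IsScalarTower.toAlgHom Fq Fq[X] F) (aeval X a) := by
    rw [← aeval_algHom_apply]
    rfl
  rw [this, aeval_X_left_apply]
  rfl

include hirr in
lemma PF_ne : algebraMap Fq[X] F P ≠ 0 := by
  rw [Ne, map_eq_zero_iff _ (algebraMap_inj (Fq := Fq) (F := F))]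
  exact hirr.out.ne_zero

lemma trans_T : Transcendental Fq (algebraMap Fq[X] F X) := by
  rw [transcendental_iff]
  intro a ha
  rw [aeval_T] at ha
  exact (map_eq_zero_iff _ (algebraMap_inj (Fq := Fq) (F := F))).1 ha

lemma ev_P (hR : P.map (algebraMap Fq (AdjoinRoot P)) =
      ∏ j ∈ Finset.range P.natDegree, (X - C (AdjoinRoot.root P ^ Fintype.card Fq ^ j))) :
    ev Fq (algebraMap Fq[X] F X) (∏ j ∈ Finset.range P.natDegree,
      (X - C (AdjoinRoot.root P ^ Fintype.card Fq ^ j))) = (algebraMap Fq[X] F P) ⊗ₜ 1 := by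
  rw [← hR, ev_map, aeval_T]

variable (h : IsCyclotomic Fq P F lam) (hP : P.Monic)
  (hR : P.map (algebraMap Fq (AdjoinRoot P)) =
      ∏ j ∈ Finset.range P.natDegree, (X - C (AdjoinRoot.root P ^ Fintype.card Fq ^ j)))
  (D : Derivation ℤ F F) (hDT : D (algebraMap Fq[X] F X) = 1)
  (Cp : F →+ F) (C1 : ∀ a b, Cp (a ^ p * b) = a * Cp b)
  (C2 : ∀ i, Cp ((algebraMap Fq[X] F X) ^ i) =
      if p ∣ i + 1 then (algebraMap Fq[X] F X) ^ ((i + 1) / p - 1) else 0)
  (C3 : ∀ z, Cp z = z → ∃ α : F, α ≠ 0 ∧ D α = z * α)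
  (s : ℕ) (hs : Fintype.card Fq = p ^ s) (k : ℕ) (hk0 : 0 < k)
  (hk : k < Fintype.card Fq ^ P.natDegree) (hdvd : (Fintype.card Fq - 1) ∣ k)

include hR C1 C2 hs hk hdvd in
lemma Cp_ZF (f : (AdjoinRoot P)[X])
    (hf : U (Fintype.card Fq) (Qk (Fintype.card Fq) P.natDegree k (AdjoinRoot.root P) * f) = f)
    (c : AdjoinRoot P) : Cp (ZF h Cp k s f c) = ZF h Cp k s f c := by
  apply Cp_zf
  have h1 : ∀ a b, (Cq Cp Fq s hs C1) (a ^ Fintype.card Fq * b) = a * (Cq Cp Fq s hs C1) b := by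
    intro a b
    rw [hs]
    exact Cpn_mul Cp C1 s a b
  have h2 : ∀ i, (Cq Cp Fq s hs C1) ((algebraMap Fq[X] F X) ^ i) =
      if Fintype.card Fq ∣ i + 1 then (algebraMap Fq[X] F X) ^ ((i + 1) / Fintype.card Fq - 1)
        else 0 := by
    intro i
    rw [hs]
    exact Cpn_T Cp hp.out.pos _ C2 s i
  exact Cql_Yf (Ll h) (algebraMap Fq[X] F X) P.natDegree k (AdjoinRoot.root P) (Ll_root_mul h)
    (algebraMap Fq[X] F P) PF_ne (ev_P hR) hk hdvd f hf (Cq Cp Fq s hs C1) h1 h2 c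

include C1 C2 hk0 hk in
lemma ZF_mem (f : (AdjoinRoot P)[X]) (c : AdjoinRoot P) :
    P • (ZF h Cp k s f c) ∈ bb Fq lam := by
  have h1 : P • Yf (Ll h) (algebraMap Fq[X] F X) P.natDegree k (algebraMap Fq[X] F P)⁻¹ f c ∈
      bb Fq lam := by
    let B : Subalgebra Fq F := (Algebra.adjoin Fq[X] {lam}).restrictScalars Fq
    obtain ⟨r, hr, e⟩ := Yf_mem (Ll h) (algebraMap Fq[X] F X) P.natDegree k
      (algebraMap Fq[X] F P)⁻¹ B ((Algebra.adjoin Fq[X] {lam}).algebraMap_mem X) lam lam_mem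
      (Ll_mem h) hk0 hk f c
    rw [e, Algebra.smul_def, mul_inv_cancel_left₀ PF_ne]
    exact ⟨r, hr, rfl⟩
  have h2 : ∀ n, P • Cp^[n] (Yf (Ll h) (algebraMap Fq[X] F X) P.natDegree k
      (algebraMap Fq[X] F P)⁻¹ f c) ∈ bb Fq lam := by
    intro n
    induction n with
    | zero => exact h1
    | succ n ih =>
      rw [Function.iterate_succ_apply']
      exact Cp_mem h Cp C1 C2 _ ih
  change P • zf _ _ _ _ _ _ _ _ _ ∈ _
  rw [zf_apply, Finset.smul_sum]
  exact Submodule.sum_mem _ fun i _ => h2 i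

include hP hDT C1 C2 hk in
lemma map_ZF (σ : F ≃ₐ[RatFunc Fq] F) (f : (AdjoinRoot P)[X]) (c : AdjoinRoot P) :
    σ (ZF h Cp k s f c) = ZF h Cp k s f (galHom h hP σ ^ k * c) := by
  have : CharP F p := charP_F Fq
  have hσA : ∀ a : Fq[X], σ (algebraMap Fq[X] F a) = algebraMap Fq[X] F a := by
    intro a
    rw [IsScalarTower.algebraMap_apply Fq[X] (RatFunc Fq) F, AlgEquiv.commutes]
  have hσC : ∀ z, Cp (σ z) = σ (Cp z) :=
    Cp_comm Cp (algebraMap Fq[X] F X) C1 C2 (hspan h hP) (σ : F →+* F) (hσA X)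
  let σ' : F →ₐ[Fq] F := (σ.toAlgHom.restrictScalars Fq[X]).restrictScalars Fq
  refine map_zf _ _ _ _ _ Cp s (σ : F →+* F) hσC f c _ ?_
  exact map_Yf (Ll h) (algebraMap Fq[X] F X) P.natDegree k σ' (hσA X) (galHom h hP σ)
    (fun z => sigma_L h σ _ z (galHom_spec h hP σ)) (algebraMap Fq[X] F P) (hσA P) hk f c

include hirr hk in
lemma eq_zero_of_ZF (hd : Fintype.card (AdjoinRoot P) = Fintype.card Fq ^ P.natDegree)
    (hs : Fintype.card Fq = p ^ s) (C1 : ∀ a b, Cp (a ^ p * b) = a * Cp b)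
    (f : (AdjoinRoot P)[X]) (hf : ∀ c, ZF h Cp k s f c = 0) : f = 0 := by
  have hL1 : Ll h 1 ≠ 0 := by
    rw [Ll_one]; exact h.ne_zero
  refine f_eq_zero_of_Yf (Ll h) (algebraMap Fq[X] F X) P.natDegree k (algebraMap Fq[X] F P)⁻¹
    trans_T (AdjoinRoot.root P) (Ll_root_mul h) hL1 hd hirr.out.natDegree_pos
    (inv_ne_zero PF_ne) f ?_
  exact Yf_eq_zero_of_zf (Ll h) (algebraMap Fq[X] F X) P.natDegree k (algebraMap Fq[X] F P)⁻¹ Cp s
    hp.out.one_lt hs C1 f hf

include hR hP hDT C1 C2 C3 hs hk0 hk hdvd in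
lemma exists_Rel [IsDedekindDomain (integralClosure Fq[X] F)]
    (f : (AdjoinRoot P)[X])
    (hf : U (Fintype.card Fq) (Qk (Fintype.card Fq) P.natDegree k (AdjoinRoot.root P) * f) = f)
    (c : AdjoinRoot P) : ∃ cl : Cl Fq F, Rel Fq p D (ZF h Cp k s f c) cl := by
  have : CharP F p := charP_F Fq
  obtain ⟨α, hα, hDα⟩ := C3 _ (Cp_ZF h hR Cp C1 C2 s hs k hk hdvd f hf c)
  obtain ⟨r, hr, e⟩ := ZF_mem h Cp C1 C2 s k hk0 hk f c
  have hr' : r ∈ Algebra.adjoin Fq[X] {lam} := hr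
  obtain ⟨t, ht, β, J, hβ, hJ⟩ := Pool.Agent.R891.GK.taskE Fq p P hP F lam h D hDT (hspan h hP)
    (ZF h Cp k s f c) α hα hDα ⟨r, hr', by rw [mul_comm, ← Algebra.smul_def]; exact e.symm⟩
  have hβ0 : (β : F) ≠ 0 := by
    rw [hβ]; exact mul_ne_zero hα (pow_ne_zero _ ht)
  have hJ0 : J ≠ 0 := by
    rintro rfl
    rw [zero_pow hp.out.ne_zero, Ideal.zero_eq_bot, Ideal.span_singleton_eq_bot] at hJ
    rw [hJ] at hβ0
    exact hβ0 rfl
  refine ⟨Additive.ofMul (ClassGroup.mk0 ⟨J, mem_nonZeroDivisors_iff_ne_zero.2 hJ0⟩), β,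
    ⟨J, mem_nonZeroDivisors_iff_ne_zero.2 hJ0⟩, hβ0, ?_, hJ, rfl⟩
  rw [hβ, mul_comm α, D_pow_p_mul, hDα]
  ring

include hR hDT C1 C2 C3 hs hk0 hk hdvd in
theorem exists_phi [IsDedekindDomain (integralClosure Fq[X] F)]
    [IsFractionRing (integralClosure Fq[X] F) F]
    (f : (AdjoinRoot P)[X])
    (hf : U (Fintype.card Fq) (Qk (Fintype.card Fq) P.natDegree k (AdjoinRoot.root P) * f) = f) :
    ∃ φ : AdjoinRoot P →+ ClP Fq p F,
      (∀ c, Rel Fq p D (ZF h Cp k s f c) (φ c : Cl Fq F)) ∧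
      ∀ (σ : F ≃ₐ[RatFunc Fq] F) (c : AdjoinRoot P),
        Ideal.primaryComponent.map (Ideal.span {(p : ℤ)}) (clAct Fq F σ) (φ c) =
          φ (galHom h hP σ ^ k * c) := by
  have : CharP F p := charP_F Fq
  have hsp := hspan (p := p) h hP
  choose cl hcl using exists_Rel h hP hR D hDT Cp C1 C2 C3 s hs k hk0 hk hdvd f hf
  have hmem : ∀ c, cl c ∈ ClP Fq p F := by
    intro c
    rw [Ideal.primaryComponent_mem]
    refine ⟨1, ?_⟩
    rw [pow_one, Submodule.mem_torsionBySet_iff]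
    rintro ⟨a, ha⟩
    obtain ⟨b, rfl⟩ := Ideal.mem_span_singleton'.1 ha
    change (b * (p : ℤ)) • cl c = 0
    rw [mul_smul, natCast_zsmul, Rel_p (hcl c), smul_zero]
  have hadd : ∀ c c', cl (c + c') = cl c + cl c' := by
    intro c c'
    refine Rel_add hDT hsp (hcl c) (hcl c') ?_
    rw [← map_add]
    exact hcl _
  refine ⟨AddMonoidHom.mk' (fun c => ⟨cl c, hmem c⟩) fun c c' => Subtype.ext (hadd c c'),
    fun c => hcl c, ?_⟩
  intro σ c
  apply Subtype.ext
  change clAct Fq F σ (cl c) = cl (galHom h hP σ ^ k * c)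
  have h1 := Rel_map (hcl c) σ
    (D_comm D (algebraMap Fq[X] F X) hDT hsp (σ : F →+* F) (by
      rw [IsScalarTower.algebraMap_apply Fq[X] (RatFunc Fq) F]
      exact AlgEquiv.commutes σ _))
  rw [map_ZF h hP D hDT Cp C1 C2 s k hk σ f c] at h1
  exact Rel_unique hDT hsp (hcl _) h1

end perf

section final

/-- the vanishing of the reduced Bernoulli-Carlitz numbers of the orbit of `k` -/
lemma coeff_zero_of_dvd (Fq : Type) [Field Fq] [Fintype Fq] (p s : ℕ)
    (hs : Fintype.card Fq = p ^ s) (P : Fq[X]) [hirr : Fact (Irreducible P)] (hP : P.Monic) (k : ℕ)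
    (hk0 : 0 < k) (hk : k < Fintype.card Fq ^ P.natDegree - 1)
    (hB : ∀ k' : ℕ, 0 < k' → k' < Fintype.card Fq ^ P.natDegree - 1 →
      (∃ m : ℕ, k' ≡ p ^ m * k [MOD Fintype.card Fq ^ P.natDegree - 1]) →
      PrimeDvd Fq P (bernoulliCarlitz Fq k')) (j : ℕ) :
    PowerSeries.coeff ((Fintype.card Fq ^ j * k) % (Fintype.card Fq ^ P.natDegree - 1))
      (eser (Fintype.card Fq) P.natDegree (AdjoinRoot.root P))⁻¹ = 0 := by
  set N := Fintype.card Fq ^ P.natDegree - 1 with hN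
  have hN0 : 0 < N := by omega
  have h1 : Fintype.card Fq ^ j * k % N < N := Nat.mod_lt _ hN0
  have hcop : Nat.Coprime N (Fintype.card Fq ^ j) := by
    refine Nat.Coprime.pow_right _ ?_
    have h2 : Nat.Coprime N (N + 1) := by simp
    refine Nat.Coprime.coprime_dvd_right ?_ h2
    have h3 : N + 1 = Fintype.card Fq ^ P.natDegree := by
      have : 0 < Fintype.card Fq ^ P.natDegree := pow_pos Fintype.card_pos _
      omega
    rw [h3]
    exact dvd_pow_self _ hirr.out.natDegree_pos.ne'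
  have h2 : 0 < Fintype.card Fq ^ j * k % N := by
    rcases Nat.eq_zero_or_pos (Fintype.card Fq ^ j * k % N) with h0 | h0
    · exfalso
      have h3 : N ∣ Fintype.card Fq ^ j * k := Nat.dvd_of_mod_eq_zero h0
      have h4 := Nat.le_of_dvd hk0 (hcop.dvd_of_dvd_mul_left h3)
      omega
    · exact h0
  refine Pool.Agent.R483.GK.taskB Fq P hP _ h1 (hB _ h2 h1 ⟨s * j, ?_⟩)
  rw [pow_mul, ← hs]
  exact Nat.mod_modEq _ _

/-- Gekeler's conjecture, a nonzero equivariant map to the class group -/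
theorem gekeler_core (p : ℕ) [hp : Fact p.Prime] (Fq : Type) [Field Fq] [Fintype Fq] [CharP Fq p]
    (P : Fq[X]) [hirr : Fact (Irreducible P)] (hP : P.Monic)
    (F : Type) [Field F] [Algebra Fq F] [Algebra Fq[X] F] [IsScalarTower Fq Fq[X] F]
    [Algebra (RatFunc Fq) F] [IsScalarTower Fq[X] (RatFunc Fq) F] (lam : F) (h : IsCyclotomic Fq P F lam) (k : ℕ)
    (hk0 : 0 < k) (hk : k < Fintype.card Fq ^ P.natDegree - 1) (hdvd : (Fintype.card Fq - 1) ∣ k)
    (hB : ∀ k' : ℕ, 0 < k' → k' < Fintype.card Fq ^ P.natDegree - 1 →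
      (∃ m : ℕ, k' ≡ p ^ m * k [MOD Fintype.card Fq ^ P.natDegree - 1]) →
      PrimeDvd Fq P (bernoulliCarlitz Fq k')) :
    ∃ θ : AdjoinRoot P →+ Cl Fq F, θ ≠ 0 ∧ (∀ c, p • θ c = 0) ∧
      ∀ (σ : F ≃ₐ[RatFunc Fq] F) (c : AdjoinRoot P),
        clAct Fq F σ (θ c) = θ (galHom h hP σ ^ k * c) := by
  classical
  let _ : Fintype (AdjoinRoot P) := Fintype.ofFinite _
  have : CharP F p := charP_F Fq
  have : CharP (AdjoinRoot P) p :=
    charP_of_injective_algebraMap (algebraMap Fq (AdjoinRoot P)).injective p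
  obtain ⟨s, -, hs⟩ := FiniteField.card Fq p
  have hs0 : 0 < (s : ℕ) := s.2
  obtain ⟨hgal, hfd⟩ := isGalois_of (p := p) h hP
  have hDed : IsDedekindDomain (integralClosure Fq[X] F) :=
    integralClosure.isDedekindDomain Fq[X] (RatFunc Fq) F
  have hFrac : IsFractionRing (integralClosure Fq[X] F) F :=
    integralClosure.isFractionRing_of_finite_extension (RatFunc Fq) F
  obtain ⟨R1, R2, hR⟩ := Pool.Agent.R483.GK.taskR Fq P hP
  have hd : Fintype.card (AdjoinRoot P) = Fintype.card Fq ^ P.natDegree := by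
    rw [← Nat.card_eq_fintype_card, card_κ]
  have hkq : k < Fintype.card Fq ^ P.natDegree := by omega
  obtain ⟨D, hDT⟩ := exists_der (Fq := Fq) (F := F)
  obtain ⟨Cp, C1, C2, C3⟩ := cartier_exists D (algebraMap Fq[X] F X) hDT (hspan (p := p) h hP)
  -- two fixed vectors
  obtain ⟨f, g, hfg, hf, hg⟩ := Pool.Agent.R664.GK.taskA p (Fintype.card Fq) s P.natDegree hp.out hs
    hs0 hirr.out.natDegree_pos (AdjoinRoot P) (AdjoinRoot.root P) R1 R2 k hk0 hk hdvd
    (fun j _ => coeff_zero_of_dvd Fq p s hs P hP k hk0 hk hB j)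
  obtain ⟨φ, hφ, hφσ⟩ := exists_phi h hP hR D hDT Cp C1 C2 C3 s hs k hk0 hkq hdvd f hf
  obtain ⟨ψ, hψ, hψσ⟩ := exists_phi h hP hR D hDT Cp C1 C2 C3 s hs k hk0 hkq hdvd g hg
  -- conclusion from a nonzero map
  have concl : ∀ (θ : AdjoinRoot P →+ ClP Fq p F) (z : AdjoinRoot P → F),
      (∀ c, Rel Fq p D (z c) (θ c : Cl Fq F)) →
      (∀ (σ : F ≃ₐ[RatFunc Fq] F) (c : AdjoinRoot P),
        Ideal.primaryComponent.map (Ideal.span {(p : ℤ)}) (clAct Fq F σ) (θ c) =
          θ (galHom h hP σ ^ k * c)) → θ ≠ 0 →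
      ∃ θ : AdjoinRoot P →+ Cl Fq F, θ ≠ 0 ∧ (∀ c, p • θ c = 0) ∧
      ∀ (σ : F ≃ₐ[RatFunc Fq] F) (c : AdjoinRoot P),
        clAct Fq F σ (θ c) = θ (galHom h hP σ ^ k * c) := by
    intro θ z hθz hθσ hθ
    refine ⟨(ClP Fq p F).subtype.toAddMonoidHom.comp θ, ?_, ?_, ?_⟩
    · intro h0
      apply hθ
      ext c
      exact congrArg (fun g : AdjoinRoot P →+ Cl Fq F => g c) h0
    · intro c
      exact Rel_p (hθz c)
    · intro σ c
      exact congrArg Subtype.val (hθσ σ c)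
  by_cases hφ0 : φ = 0
  swap
  · exact concl φ _ hφ hφσ hφ0
  by_cases hψ0 : ψ = 0
  swap
  · exact concl ψ _ hψ hψσ hψ0
  exfalso
  -- both maps come from units
  have hu1 : ∀ c, ∃ u : (integralClosure Fq[X] F)ˣ, D ((u : integralClosure Fq[X] F) : F) =
      ZF h Cp k s f c * ((u : integralClosure Fq[X] F) : F) := by
    intro c
    have := hφ c
    rw [hφ0] at this
    exact Rel_unit this
  have hu2 : ∀ c, ∃ u : (integralClosure Fq[X] F)ˣ, D ((u : integralClosure Fq[X] F) : F) =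
      ZF h Cp k s g c * ((u : integralClosure Fq[X] F) : F) := by
    intro c
    have := hψ c
    rw [hψ0] at this
    exact Rel_unit this
  obtain ⟨v, hv⟩ := Pool.Agent.R891.GK.taskI Fq p F
  let ι : (integralClosure Fq[X] F)ˣ →* Fˣ := Units.map (algebraMap (integralClosure Fq[X] F) F : _ →* F)
  have hι : ∀ u, ((ι u : Fˣ) : F) = ((u : integralClosure Fq[X] F) : F) := fun u => rfl
  let v' : Additive (integralClosure Fq[X] F)ˣ →+ ℤ :=
    AddMonoidHom.mk' (fun e => (v (ι e.toMul)).toAdd) (fun a b => by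
      rw [toMul_add, map_mul, map_mul, toAdd_mul])
  have hDσ : ∀ (σ : F ≃ₐ[RatFunc Fq] F) x, D (σ x) = σ (D x) := by
    intro σ x
    exact D_comm D (algebraMap Fq[X] F X) hDT (hspan (p := p) h hP) (σ : F →+* F) (by
      rw [IsScalarTower.algebraMap_apply Fq[X] (RatFunc Fq) F]
      exact AlgEquiv.commutes σ _) x
  have hu0 : ∀ u : (integralClosure Fq[X] F)ˣ, ((u : integralClosure Fq[X] F) : F) ≠ 0 := by
    intro u
    rw [← hι]
    exact (ι u).ne_zero
  let dl : Additive (integralClosure Fq[X] F)ˣ →+ F :=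
    AddMonoidHom.mk' (fun e => D ((e.toMul : integralClosure Fq[X] F) : F) /
      ((e.toMul : integralClosure Fq[X] F) : F)) (fun a b => by
      have ha := hu0 a.toMul
      have hb := hu0 b.toMul
      have e1 : (((a + b).toMul : integralClosure Fq[X] F) : F) =
          ((a.toMul : integralClosure Fq[X] F) : F) * ((b.toMul : integralClosure Fq[X] F) : F) := by
        rw [toMul_add]; rfl
      rw [e1, Derivation.leibniz]
      simp only [smul_eq_mul]
      field_simp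
      ring)
  have hdl : ∀ (z : F), (∃ u : (integralClosure Fq[X] F)ˣ,
      D ((u : integralClosure Fq[X] F) : F) = z * ((u : integralClosure Fq[X] F) : F)) →
      ∃ e, dl e = z := by
    rintro z ⟨u, hu⟩
    refine ⟨Additive.ofMul u, ?_⟩
    change D ((u : integralClosure Fq[X] F) : F) / ((u : integralClosure Fq[X] F) : F) = z
    rw [hu, mul_div_cancel_right₀ _ (hu0 u)]
  let _ := actA Fq F
  obtain ⟨b₁, b₂, hb, hzero⟩ := Pool.Agent.R664.GK.taskF p hp.out (AdjoinRoot P)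
    (F ≃ₐ[RatFunc Fq] F) (card_coprime h hP) (Additive (integralClosure Fq[X] F)ˣ) v'
    (by
      intro e he
      obtain ⟨m, hm, hm2⟩ := hv (ι e.toMul) (e.toMul : integralClosure Fq[X] F).2 (by
        intro σ
        have h1 := he σ
        have h2 : Units.map (σ : F →* F) (ι e.toMul) = ι (actU σ e.toMul) := by
          apply Units.ext
          rfl
        rw [h2]
        exact Multiplicative.toAdd.injective h1)
      refine ⟨m, hm, ?_⟩
      apply Additive.toMul.injective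
      apply Units.ext
      apply Subtype.ext
      have h3 := congrArg (Units.val) hm2
      rw [Units.val_pow_eq_pow_val, Units.val_one, hι] at h3
      rw [toMul_nsmul, Units.val_pow_eq_pow_val]
      push_cast
      rw [h3]
      rfl)
    F (by
      intro x
      rw [nsmul_eq_mul, CharP.cast_eq_zero, zero_mul]) dl
    (by
      intro σ e
      change D (σ ((e.toMul : integralClosure Fq[X] F) : F)) /
        σ ((e.toMul : integralClosure Fq[X] F) : F) = σ (D _ / _)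
      rw [hDσ, map_div₀])
    ((powMonoidHom k).comp (galUnits h hP)) (ZF h Cp k s f) (ZF h Cp k s g)
    (fun c => hdl _ (hu1 c)) (fun c => hdl _ (hu2 c))
    (by
      intro σ c
      exact map_ZF h hP D hDT Cp C1 C2 s k hkq σ f c)
    (by
      intro σ c
      exact map_ZF h hP D hDT Cp C1 C2 s k hkq σ g c)
  have h5 : C b₁ * f + C b₂ * g = 0 := by
    refine eq_zero_of_ZF h Cp s k hkq hd hs C1 _ fun c => ?_
    have := hzero c
    change zf _ _ _ _ _ _ _ _ _ = 0
    rw [zf_add', zf_C_mul, zf_C_mul]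
    exact this
  have h6 := LinearIndependent.pair_iff.1 hfg b₁ b₂ (by
    rw [smul_eq_C_mul, smul_eq_C_mul]; exact h5)
  rcases hb with hb | hb
  · exact hb h6.1
  · exact hb h6.2

end final

end Pool.Agent.R360.GK
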