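import Pool.Agent.R360.GK.ClassMap
import Pool.Agent.R360.GK.H3

/-!
# From logarithmic differentials to ideal classes
-/

set_option autoImplicit false
set_option linter.unusedSectionVars false

open Polynomial
open scoped TensorProduct nonZeroDivisors

namespace Pool.Agent.R360.GK

section rel

variable {Fq : Type} [Field Fq] [Fintype Fq] {p : ℕ} [hp : Fact p.Prime] [CharP Fq p]
  {F : Type} [Field F] [Algebra Fq[X] F]
  [IsDedekindDomain (integralClosure Fq[X] F)]

/-- `z = D β / β`, `(β) = J ^ p`, `c` = the class of `J` -/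
def Rel (Fq : Type) [Field Fq] {F : Type} [Field F] [Algebra Fq[X] F]
    [IsDedekindDomain (integralClosure Fq[X] F)] (p : ℕ) (D : Derivation ℤ F F) (z : F)
    (c : Cl Fq F) : Prop :=
  ∃ (β : integralClosure Fq[X] F) (J : (Ideal (integralClosure Fq[X] F))⁰), (β : F) ≠ 0 ∧
    D (β : F) = z * β ∧ Ideal.span {β} = (J : Ideal (integralClosure Fq[X] F)) ^ p ∧
    c = Additive.ofMul (ClassGroup.mk0 J)

lemma ideal_pow_inj {R : Type*} [CommRing R] [IsDedekindDomain R] {I J : Ideal R} {n : ℕ}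
    (hn : n ≠ 0) (h : I ^ n = J ^ n) : I = J := by
  refine le_antisymm ?_ ?_
  · exact Ideal.dvd_iff_le.1 ((UniqueFactorizationMonoid.pow_dvd_pow_iff_dvd hn).1 (dvd_of_eq h.symm))
  · exact Ideal.dvd_iff_le.1 ((UniqueFactorizationMonoid.pow_dvd_pow_iff_dvd hn).1 (dvd_of_eq h))

variable {D : Derivation ℤ F F} {T : F}

lemma Rel_zero_zero : Rel Fq p D 0 0 := by
  refine ⟨1, 1, by simp, by simp, ?_, ?_⟩
  · rw [OneMemClass.coe_one, one_pow, Ideal.one_eq_top, Ideal.span_singleton_one]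
  rw [map_one]
  rfl

lemma Rel_add [IsFractionRing (integralClosure Fq[X] F) F] [CharP F p] (hT : D T = 1)
    (hs : ∀ z : F, ∃ h : ℕ → F, z = ∑ i ∈ Finset.range p, h i ^ p * T ^ i) {z z' : F}
    {c c' c'' : Cl Fq F} (h : Rel Fq p D z c) (h' : Rel Fq p D z' c')
    (h'' : Rel Fq p D (z + z') c'') : c'' = c + c' := by
  obtain ⟨β, J, hβ, hD, hJ, rfl⟩ := h
  obtain ⟨β', J', hβ', hD', hJ', rfl⟩ := h'
  obtain ⟨β'', J'', hβ'', hD'', hJ'', rfl⟩ := h''
  have h1 : D ((β : F) * β' / β'') = 0 := by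
    have e : (β : F) * β' = β'' * (β * β' / β'') := by field_simp
    have e2 := congrArg D e
    rw [Derivation.leibniz, Derivation.leibniz, hD, hD', hD''] at e2
    simp only [smul_eq_mul] at e2
    have e3 : (β'' : F) * D ((β : F) * β' / β'') = 0 := by
      have e4 : (β : F) * β' / β'' * ((z + z') * β'') = (β : F) * (z' * β') + β' * (z * β) := by
        field_simp
        ring
      rw [e4] at e2
      linear_combination -e2
    exact (mul_eq_zero.1 e3).resolve_left hβ''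
  obtain ⟨γ, hγ⟩ := ker_D D T hT hs _ h1
  obtain ⟨a, b, hb, rfl⟩ := IsFractionRing.div_surjective (A := integralClosure Fq[X] F) γ
  have hb0 : b ≠ 0 := nonZeroDivisors.ne_zero hb
  have hbF : (b : F) ≠ 0 := fun h => hb0 (Subtype.ext h)
  change (β : F) * β' / β'' = ((a : F) / (b : F)) ^ p at hγ
  have h2 : β * β' * b ^ p = β'' * a ^ p := by
    apply Subtype.ext
    push_cast
    rw [div_pow, div_eq_div_iff hβ'' (pow_ne_zero _ hbF)] at hγ
    rw [hγ, mul_comm]
  have ha0 : a ≠ 0 := by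
    rintro rfl
    rw [zero_pow hp.out.ne_zero, mul_zero] at h2
    have h3 : ((β * β' * b ^ p : integralClosure Fq[X] F) : F) = 0 := by rw [h2]; rfl
    push_cast at h3
    exact mul_ne_zero (mul_ne_zero hβ hβ') (pow_ne_zero _ hbF) h3
  have h3 : (Ideal.span {b} * (J * J' : Ideal (integralClosure Fq[X] F))) ^ p =
      (Ideal.span {a} * (J'' : Ideal (integralClosure Fq[X] F))) ^ p := by
    rw [mul_pow, mul_pow, mul_pow, ← hJ, ← hJ', ← hJ'', Ideal.span_singleton_pow,
      Ideal.span_singleton_pow, Ideal.span_singleton_mul_span_singleton,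
      Ideal.span_singleton_mul_span_singleton, Ideal.span_singleton_mul_span_singleton,
      mul_comm _ (β * β'), h2, mul_comm]
  have h4 := ideal_pow_inj hp.out.ne_zero h3
  have h5 : ClassGroup.mk0 J'' = ClassGroup.mk0 (J * J') := by
    rw [ClassGroup.mk0_eq_mk0_iff]
    exact ⟨a, b, ha0, hb0, h4.symm⟩
  have h6 : ClassGroup.mk0 (J * J') = ClassGroup.mk0 J * ClassGroup.mk0 J' :=
    MonoidHom.map_mul _ J J'
  rw [h5, h6]
  rfl

lemma Rel_unique [IsFractionRing (integralClosure Fq[X] F) F] [CharP F p] (hT : D T = 1)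
    (hs : ∀ z : F, ∃ h : ℕ → F, z = ∑ i ∈ Finset.range p, h i ^ p * T ^ i) {z : F}
    {c c' : Cl Fq F} (h : Rel Fq p D z c) (h' : Rel Fq p D z c') : c' = c := by
  have := Rel_add hT hs h (Rel_zero_zero (D := D)) (by rwa [add_zero])
  rwa [add_zero] at this

lemma Rel_p {z : F} {c : Cl Fq F} (h : Rel Fq p D z c) : p • c = 0 := by
  obtain ⟨β, J, hβ, hD, hJ, rfl⟩ := h
  rw [← ofMul_pow, ← map_pow]
  have : ClassGroup.mk0 (J ^ p) = 1 := by
    refine (ClassGroup.mk0_eq_one_iff (J ^ p).2).2 ?_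
    rw [SubmonoidClass.coe_pow, ← hJ]
    exact ⟨⟨β, rfl⟩⟩
  rw [this]
  rfl

lemma Rel_unit {z : F} [CharP F p] (h : Rel Fq p D z 0) :
    ∃ u : (integralClosure Fq[X] F)ˣ,
      D ((u : integralClosure Fq[X] F) : F) = z * ((u : integralClosure Fq[X] F) : F) := by
  obtain ⟨β, J, hβ, hD, hJ, hc⟩ := h
  have h1 : ClassGroup.mk0 J = 1 := (Additive.ofMul.injective hc).symm
  have h2 := (ClassGroup.mk0_eq_one_iff J.2).1 h1
  obtain ⟨δ, hδ⟩ := h2
  have hδ' : (J : Ideal (integralClosure Fq[X] F)) = Ideal.span {δ} := hδ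
  rw [hδ', Ideal.span_singleton_pow, Ideal.span_singleton_eq_span_singleton] at hJ
  obtain ⟨u, hu⟩ := hJ.symm
  refine ⟨u, ?_⟩
  have h3 : (β : F) = (δ : F) ^ p * ((u : integralClosure Fq[X] F) : F) := by
    rw [← hu]; push_cast; rfl
  have hδ0 : (δ : F) ^ p ≠ 0 := by
    intro h0
    rw [h0, zero_mul] at h3
    exact hβ h3
  rw [h3, D_pow_p_mul] at hD
  have h4 : (δ : F) ^ p * D ((u : integralClosure Fq[X] F) : F) =
      (δ : F) ^ p * (z * ((u : integralClosure Fq[X] F) : F)) := by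
    rw [hD]; ring
  exact mul_left_cancel₀ hδ0 h4

lemma Rel_map [Algebra (RatFunc Fq) F] [IsScalarTower Fq[X] (RatFunc Fq) F] {z : F} {c : Cl Fq F}
    (h : Rel Fq p D z c) (σ : F ≃ₐ[RatFunc Fq] F) (hσ : ∀ x, D (σ x) = σ (D x)) :
    Rel Fq p D (σ z) (clAct Fq F σ c) := by
  obtain ⟨β, J, hβ, hD, hJ, rfl⟩ := h
  set g := ((σ.restrictScalars Fq[X]).mapIntegralClosure.toRingEquiv) with hg
  have hgβ : ∀ x : integralClosure Fq[X] F, ((g x : integralClosure Fq[X] F) : F) = σ (x : F) :=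
    fun x => rfl
  have hJ0 : (J : Ideal (integralClosure Fq[X] F)).map g ≠ ⊥ :=
    map_ne_bot g (nonZeroDivisors.coe_ne_zero J)
  refine ⟨g β, ⟨(J : Ideal (integralClosure Fq[X] F)).map g,
    mem_nonZeroDivisors_iff_ne_zero.2 hJ0⟩, ?_, ?_, ?_, ?_⟩
  · rw [hgβ]
    simpa using hβ
  · rw [hgβ, hσ, hD, map_mul]
  · change _ = ((J : Ideal (integralClosure Fq[X] F)).map g) ^ p
    rw [← Ideal.map_pow, ← hJ, Ideal.map_span, Set.image_singleton]
  · have := mulEquiv_mk0 g J ⟨(J : Ideal (integralClosure Fq[X] F)).map g,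
      mem_nonZeroDivisors_iff_ne_zero.2 hJ0⟩ rfl
    rw [← this]
    rfl

end rel

end Pool.Agent.R360.GK
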