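import Pool.Agent.R360.GK.Defs

/-!
# The torsion of the Carlitz module and the Galois group
-/

set_option autoImplicit false

open Polynomial

namespace Pool.Agent.R360.GK

section lin

variable (Fq : Type) [Field Fq] [Fintype Fq] (R : Type) [CommRing R] [Algebra Fq R]
  [Algebra Fq[X] R] [IsScalarTower Fq Fq[X] R]

/-- `C_T` as a linear map -/
noncomputable def cTl : Module.End Fq R :=
  LinearMap.mulLeft Fq (algebraMap Fq[X] R X) + (FiniteField.frobeniusAlgHom Fq R).toLinearMap

lemma cTl_apply (x : R) : cTl Fq R x = cT Fq R x := by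
  simp [cTl, cT]

lemma cTl_pow_apply (n : ℕ) (x : R) : (cTl Fq R ^ n) x = (cT Fq R)^[n] x := by
  induction n with
  | zero => simp
  | succ n ih =>
    rw [pow_succ', Module.End.mul_apply, ih, cTl_apply, Function.iterate_succ_apply']

lemma carlitz_eq (a : Fq[X]) (x : R) : carlitz Fq R a x = aeval (cTl Fq R) a x := by
  rw [aeval_endomorphism, carlitz]
  refine Finset.sum_congr rfl fun i _ => ?_
  change _ = a.coeff i • (cTl Fq R ^ i) x
  rw [cTl_pow_apply, Algebra.smul_def, IsScalarTower.algebraMap_apply Fq Fq[X] R]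
  rfl

lemma carlitz_add (a b : Fq[X]) (x : R) :
    carlitz Fq R (a + b) x = carlitz Fq R a x + carlitz Fq R b x := by
  simp [carlitz_eq]

lemma carlitz_sub (a b : Fq[X]) (x : R) :
    carlitz Fq R (a - b) x = carlitz Fq R a x - carlitz Fq R b x := by
  simp [carlitz_eq]

lemma carlitz_add' (a : Fq[X]) (x y : R) :
    carlitz Fq R a (x + y) = carlitz Fq R a x + carlitz Fq R a y := by
  simp [carlitz_eq]

lemma carlitz_mul (a b : Fq[X]) (x : R) :
    carlitz Fq R (a * b) x = carlitz Fq R a (carlitz Fq R b x) := by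
  simp [carlitz_eq]

lemma carlitz_comm (a b : Fq[X]) (x : R) :
    carlitz Fq R a (carlitz Fq R b x) = carlitz Fq R b (carlitz Fq R a x) := by
  rw [← carlitz_mul, ← carlitz_mul, mul_comm]

lemma carlitz_one (x : R) : carlitz Fq R 1 x = x := by
  simp [carlitz_eq]

lemma carlitz_C (c : Fq) (x : R) : carlitz Fq R (C c) x = algebraMap Fq[X] R (C c) * x := by
  rw [carlitz_eq, aeval_C, Module.algebraMap_end_apply, Algebra.smul_def,
    IsScalarTower.algebraMap_apply Fq Fq[X] R]
  rfl

lemma carlitz_smul (c : Fq) (a : Fq[X]) (x : R) :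
    carlitz Fq R (c • a) x = c • carlitz Fq R a x := by
  simp [carlitz_eq]

lemma carlitz_X (x : R) : carlitz Fq R X x = algebraMap Fq[X] R X * x + x ^ Fintype.card Fq := by
  rw [carlitz_eq, aeval_X, cTl_apply, cT]

lemma carlitz_zero (a : Fq[X]) : carlitz Fq R a 0 = 0 := by
  simp [carlitz_eq]

lemma carlitz_zero' (x : R) : carlitz Fq R 0 x = 0 := by
  simp [carlitz_eq]

end lin

section map

variable (Fq : Type) [Field Fq] [Fintype Fq] {R S : Type} [CommRing R]
  [Algebra Fq[X] R] [CommRing S] [Algebra Fq[X] S]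

lemma carlitz_map (φ : R →ₐ[Fq[X]] S) (a : Fq[X]) (x : R) :
    φ (carlitz Fq R a x) = carlitz Fq S a (φ x) := by
  have h : ∀ n, φ ((cT Fq R)^[n] x) = (cT Fq S)^[n] (φ x) := by
    intro n
    induction n with
    | zero => rfl
    | succ n ih =>
      rw [Function.iterate_succ_apply', Function.iterate_succ_apply', ← ih]
      simp [cT]
  rw [carlitz, carlitz, Polynomial.sum, Polynomial.sum, map_sum]
  refine Finset.sum_congr rfl fun i _ => ?_
  rw [map_mul, h, AlgHom.commutes]

/-- `C_a(x)` lies in every subalgebra containing `x`, and is divisible by `x` there -/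
lemma carlitz_dvd (a : Fq[X]) (x : R) : x ∣ carlitz Fq R a x := by
  have h : ∀ n, x ∣ (cT Fq R)^[n] x := by
    intro n
    induction n with
    | zero => exact dvd_rfl
    | succ n ih =>
      rw [Function.iterate_succ_apply', cT]
      exact dvd_add (ih.mul_left _) (dvd_pow ih Fintype.card_ne_zero)
  exact Finset.dvd_sum fun i _ => (h i).mul_left _

end map

section poly

variable (Fq : Type) [Field Fq] [Fintype Fq] (F : Type) [Field F] [Algebra Fq[X] F]

/-- the polynomial `C_a(Y)` -/
noncomputable def carPoly (a : Fq[X]) : F[X] := carlitz Fq F[X] a X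

lemma eval_carPoly (a : Fq[X]) (x : F) : (carPoly Fq F a).eval x = carlitz Fq F a x := by
  have := carlitz_map Fq ((aeval (R := F) x).restrictScalars Fq[X]) a (X : F[X])
  rw [carPoly]
  simpa using this

lemma iter_monic (n : ℕ) : ((cT Fq F[X])^[n] X).Monic ∧
    ((cT Fq F[X])^[n] X).natDegree = Fintype.card Fq ^ n := by
  induction n with
  | zero => exact ⟨monic_X, by simp⟩
  | succ n ih =>
    rw [Function.iterate_succ_apply', cT]
    set f := (cT Fq F[X])^[n] X
    have hq : 1 < Fintype.card Fq := Fintype.one_lt_card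
    have h1 : (f ^ Fintype.card Fq).Monic := ih.1.pow _
    have h2 : (f ^ Fintype.card Fq).natDegree = Fintype.card Fq ^ (n + 1) := by
      rw [ih.1.natDegree_pow, ih.2, pow_succ, mul_comm]
    have h3 : (algebraMap Fq[X] F[X] X * f).natDegree < (f ^ Fintype.card Fq).natDegree := by
      rw [h2]
      have e : algebraMap Fq[X] F[X] X = C (algebraMap Fq[X] F X) := rfl
      rw [e]
      refine (natDegree_C_mul_le _ _).trans_lt ?_
      rw [ih.2]
      exact Nat.pow_lt_pow_right hq (by omega)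
    refine ⟨h1.add_of_right (degree_lt_degree h3), ?_⟩
    rw [natDegree_add_eq_right_of_natDegree_lt h3, h2]

lemma degree_C_mul_le' (c : F) (f : F[X]) : (C c * f).degree ≤ f.degree := by
  refine (degree_mul_le _ _).trans ?_
  calc (C c).degree + f.degree ≤ 0 + f.degree := by gcongr; exact degree_C_le
    _ = f.degree := zero_add _

lemma carPoly_monic (a : Fq[X]) (ha : a.Monic) : (carPoly Fq F a).Monic ∧
    (carPoly Fq F a).natDegree = Fintype.card Fq ^ a.natDegree := by
  classical
  have hq : 1 < Fintype.card Fq := Fintype.one_lt_card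
  have h1 := iter_monic Fq F a.natDegree
  have e : carPoly Fq F a = (cT Fq F[X])^[a.natDegree] X +
      ∑ i ∈ Finset.range a.natDegree, algebraMap Fq[X] F[X] (C (a.coeff i)) * (cT Fq F[X])^[i] X := by
    rw [carPoly, carlitz, Polynomial.sum_over_range _ (by simp), Finset.sum_range_succ,
      ← leadingCoeff, ha.leadingCoeff]
    simp [add_comm]
  have hlt : (∑ i ∈ Finset.range a.natDegree,
      algebraMap Fq[X] F[X] (C (a.coeff i)) * (cT Fq F[X])^[i] X).degree <
      ((cT Fq F[X])^[a.natDegree] X).degree := by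
    rw [degree_eq_natDegree h1.1.ne_zero, h1.2]
    refine (degree_sum_le _ _).trans_lt ?_
    rw [Finset.sup_lt_iff (by exact WithBot.bot_lt_coe _)]
    intro i hi
    have hi' := Finset.mem_range.1 hi
    have h2 := iter_monic Fq F i
    have e2 : algebraMap Fq[X] F[X] (C (a.coeff i)) = C (algebraMap Fq[X] F (C (a.coeff i))) := rfl
    rw [e2]
    refine (degree_C_mul_le' F _ _).trans_lt ?_
    rw [degree_eq_natDegree h2.1.ne_zero, h2.2]
    exact_mod_cast Nat.pow_lt_pow_right hq hi'
  rw [e]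
  refine ⟨h1.1.add_of_left hlt, ?_⟩
  rw [natDegree_add_eq_left_of_degree_lt hlt, h1.2]

lemma carPoly_derivative (p : ℕ) [Fact p.Prime] [CharP Fq p] (a : Fq[X]) :
    derivative (carPoly Fq F a) = C (algebraMap Fq[X] F a) := by
  have hcF : (Fintype.card Fq : F[X]) = 0 := by
    have h1 : ((Fintype.card Fq : ℕ) : Fq) = 0 := Nat.cast_card_eq_zero Fq
    have h2 := congrArg (algebraMap Fq[X] F[X]) (congrArg (C : Fq → Fq[X]) h1)
    rw [map_zero, map_zero, map_natCast, map_natCast] at h2
    exact h2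
  have h : ∀ n, derivative ((cT Fq F[X])^[n] X) = C (algebraMap Fq[X] F X) ^ n := by
    intro n
    induction n with
    | zero => simp
    | succ n ih =>
      rw [Function.iterate_succ_apply', cT]
      have e : algebraMap Fq[X] F[X] X = C (algebraMap Fq[X] F X) := rfl
      rw [e, derivative_add, derivative_C_mul, ih, derivative_pow, map_natCast, hcF]
      ring
  rw [carPoly, carlitz, Polynomial.sum, derivative_sum]
  have e1 : ∀ i ∈ a.support, derivative (algebraMap Fq[X] F[X] (C (a.coeff i)) *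
      (cT Fq F[X])^[i] X) = C (algebraMap Fq[X] F (C (a.coeff i) * X ^ i)) := by
    intro i _
    have e2 : algebraMap Fq[X] F[X] (C (a.coeff i)) = C (algebraMap Fq[X] F (C (a.coeff i))) := rfl
    rw [e2, derivative_C_mul, h, map_mul, map_mul, map_pow, map_pow]
  rw [Finset.sum_congr rfl e1, ← map_sum, ← map_sum]
  congr 2
  exact (a.as_sum_support_C_mul_X_pow).symm

end poly

section torsion

variable {Fq : Type} [Field Fq] [Fintype Fq] {p : ℕ} [hp : Fact p.Prime] [CharP Fq p]
  {P : Fq[X]} [hirr : Fact (Irreducible P)] {F : Type} [Field F] [Algebra Fq F] [Algebra Fq[X] F]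
  [IsScalarTower Fq Fq[X] F] [Algebra (RatFunc Fq) F] [IsScalarTower Fq[X] (RatFunc Fq) F]
  {lam : F}

omit hp [CharP Fq p] [IsScalarTower Fq[X] (RatFunc Fq) F] in
lemma carlitz_lam_eq_zero (h : IsCyclotomic Fq P F lam) (a : Fq[X]) :
    carlitz Fq F a lam = 0 ↔ P ∣ a := by
  constructor
  · intro ha
    by_contra hd
    obtain ⟨u, v, huv⟩ := (hirr.out.coprime_iff_not_dvd.2 hd).symm
    have h1 := carlitz_one Fq F lam
    rw [← huv, carlitz_add, carlitz_mul, carlitz_mul, ha, h.torsion, carlitz_zero, carlitz_zero,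
      add_zero] at h1
    exact h.ne_zero h1.symm
  · rintro ⟨b, rfl⟩
    rw [mul_comm, carlitz_mul, h.torsion, carlitz_zero]

/-- `L(z) = C_a(lam)`, `z = a mod P` -/
noncomputable def Lm (P : Fq[X]) (lam : F) (z : AdjoinRoot P) : F :=
  carlitz Fq F (Function.surjInv AdjoinRoot.mk_surjective z) lam

omit hp [CharP Fq p] [IsScalarTower Fq[X] (RatFunc Fq) F] in
lemma Lm_mk (h : IsCyclotomic Fq P F lam) (a : Fq[X]) :
    Lm P lam (AdjoinRoot.mk P a) = carlitz Fq F a lam := by
  rw [Lm, ← sub_eq_zero, ← carlitz_sub, carlitz_lam_eq_zero h, ← AdjoinRoot.mk_eq_zero, map_sub,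
    Function.surjInv_eq (AdjoinRoot.mk_surjective (g := P)), sub_self]

omit hp [CharP Fq p] [IsScalarTower Fq[X] (RatFunc Fq) F] in
lemma Lm_injective (h : IsCyclotomic Fq P F lam) : Function.Injective (Lm P lam) := by
  intro x y hxy
  obtain ⟨a, rfl⟩ := AdjoinRoot.mk_surjective x
  obtain ⟨b, rfl⟩ := AdjoinRoot.mk_surjective y
  rw [Lm_mk h, Lm_mk h, ← sub_eq_zero, ← carlitz_sub, carlitz_lam_eq_zero h,
    ← AdjoinRoot.mk_eq_zero, map_sub, sub_eq_zero] at hxy
  exact hxy

/-- `L` as a linear map -/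
noncomputable def Ll (h : IsCyclotomic Fq P F lam) : AdjoinRoot P →ₗ[Fq] F where
  toFun := Lm P lam
  map_add' x y := by
    obtain ⟨a, rfl⟩ := AdjoinRoot.mk_surjective x
    obtain ⟨b, rfl⟩ := AdjoinRoot.mk_surjective y
    rw [← map_add, Lm_mk h, Lm_mk h, Lm_mk h, carlitz_add]
  map_smul' c x := by
    obtain ⟨a, rfl⟩ := AdjoinRoot.mk_surjective x
    rw [AdjoinRoot.smul_mk, Lm_mk h, Lm_mk h, carlitz_smul]
    rfl

omit hp [CharP Fq p] [IsScalarTower Fq[X] (RatFunc Fq) F] in
lemma Ll_mk (h : IsCyclotomic Fq P F lam) (a : Fq[X]) :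
    Ll h (AdjoinRoot.mk P a) = carlitz Fq F a lam := Lm_mk h a

omit hp [CharP Fq p] [IsScalarTower Fq[X] (RatFunc Fq) F] in
lemma Ll_injective (h : IsCyclotomic Fq P F lam) : Function.Injective (Ll h) := Lm_injective h

omit hp [CharP Fq p] [IsScalarTower Fq[X] (RatFunc Fq) F] in
/-- `L(θ z) = T L(z) + L(z)^q` -/
lemma Ll_root_mul (h : IsCyclotomic Fq P F lam) (z : AdjoinRoot P) :
    Ll h (AdjoinRoot.root P * z) = algebraMap Fq[X] F X * Ll h z + Ll h z ^ Fintype.card Fq := by
  obtain ⟨a, rfl⟩ := AdjoinRoot.mk_surjective z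
  rw [← AdjoinRoot.mk_X, ← map_mul, Ll_mk, Ll_mk, carlitz_mul, carlitz_X]

/-- the residue field is finite -/
instance finiteκ : Finite (AdjoinRoot P) :=
  have : Module.Finite Fq (AdjoinRoot P) := (AdjoinRoot.powerBasis hirr.out.ne_zero).finite
  Module.finite_of_finite Fq

lemma card_κ : Nat.card (AdjoinRoot P) = Fintype.card Fq ^ P.natDegree := by
  have hb := AdjoinRoot.powerBasis hirr.out.ne_zero
  have : Module.Finite Fq (AdjoinRoot P) := (AdjoinRoot.powerBasis hirr.out.ne_zero).finite
  rw [Module.natCard_eq_pow_finrank (K := Fq),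
    (AdjoinRoot.powerBasis hirr.out.ne_zero).finrank, AdjoinRoot.powerBasis_dim,
    Nat.card_eq_fintype_card]

omit [IsScalarTower Fq[X] (RatFunc Fq) F] in
/-- all roots of `C_P(Y)` -/
lemma roots_carPoly (h : IsCyclotomic Fq P F lam) (hP : P.Monic) :
    ∃ s : Finset F, (carPoly Fq F P).roots = s.val ∧ (∀ x, x ∈ s ↔ ∃ z, Ll h z = x) ∧
      s.card = (carPoly Fq F P).natDegree := by
  classical
  have := Fintype.ofFinite (AdjoinRoot P)
  let s : Finset F := Finset.univ.image (Ll h)
  have hs : s.card = (carPoly Fq F P).natDegree := by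
    rw [Finset.card_image_of_injective _ (Ll_injective h), Finset.card_univ,
      ← Nat.card_eq_fintype_card, card_κ, (carPoly_monic Fq F P hP).2]
  have hne : carPoly Fq F P ≠ 0 := (carPoly_monic Fq F P hP).1.ne_zero
  have hsub : s.val ≤ (carPoly Fq F P).roots := by
    rw [Multiset.le_iff_subset s.nodup]
    intro x hx
    have hx' : x ∈ s := hx
    obtain ⟨z, -, rfl⟩ := Finset.mem_image.1 hx'
    rw [mem_roots hne, IsRoot.def, eval_carPoly]
    obtain ⟨a, rfl⟩ := AdjoinRoot.mk_surjective z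
    rw [Ll_mk, carlitz_comm, h.torsion, carlitz_zero]
  refine ⟨s, ?_, ?_, hs⟩
  · refine (Multiset.eq_of_le_of_card_le hsub ?_).symm
    refine (card_roots' _).trans ?_
    rw [← hs]
    rfl
  · intro x
    simp [s]

omit [IsScalarTower Fq[X] (RatFunc Fq) F] in
lemma carPoly_eq_prod (h : IsCyclotomic Fq P F lam) (hP : P.Monic) [Fintype (AdjoinRoot P)] :
    carPoly Fq F P = ∏ z : AdjoinRoot P, (X - C (Ll h z)) := by
  classical
  obtain ⟨s, hs1, hs2, hs3⟩ := roots_carPoly h hP
  have hmon := carPoly_monic Fq F P hP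
  have h1 : Multiset.card (carPoly Fq F P).roots = (carPoly Fq F P).natDegree := by
    rw [hs1]; exact hs3
  have h2 := C_leadingCoeff_mul_prod_multiset_X_sub_C h1
  rw [hmon.1.leadingCoeff, C_1, one_mul, hs1] at h2
  have h3 : s = Finset.univ.image (Ll h) := by
    ext x; simp [hs2 x]
  rw [← h2]
  change ∏ x ∈ s, (X - C x) = _
  rw [h3, Finset.prod_image fun x _ y _ hxy => Ll_injective h hxy]

end torsion

end Pool.Agent.R360.GK
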